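import Pool.Agent.P.MP_1f474f_ag.Comb6

set_option linter.unusedSimpArgs false

namespace Pool.Agent.P.MP_1f474f_ag

open Sum Submodule

theorem choose_basis {k V ι : Type*} [Field k] [AddCommGroup V] [Module k V] (v : ι → V)
    (t0 t : Set ι) (h0 : t0 ⊆ t) (ρ : Fin 4 → V) (hρ : LinearIndependent k ρ)
    (h1 : ∀ z ∈ t, v z ∈ span k (Set.range ρ)) (h2 : ∀ l, ρ l ∈ span k (v '' t)) :
    ∃ e : Fin 4 → ι, (∀ l, e l ∈ t) ∧ (∀ z ∈ t, v z ∈ span k (Set.range fun l => v (e l))) ∧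
      ∀ l, ∃ f : V →ₗ[k] k, f (v (e l)) ≠ 0 ∧ (∀ l', l' ≠ l → f (v (e l')) = 0) ∧
        (e l ∉ t0 → ∀ z ∈ t0, f (v z) = 0) := by
  classical
  obtain ⟨b0, b01, -, b03, b04⟩ := exists_linearIndepOn_extension (K := k) (v := v)
    (linearIndepOn_empty k v) (Set.empty_subset t0)
  obtain ⟨b, b1, b2, b3, b4⟩ := exists_linearIndepOn_extension b04 (b01.trans h0)
  have hr : (Set.range fun x : b => v x) = v '' b := by
    ext w
    simp
  have hsp : span k (v '' b) = span k (Set.range ρ) := by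
    apply le_antisymm
    · rw [span_le]
      rintro _ ⟨z, hz, rfl⟩
      exact h1 z (b1 hz)
    · rw [span_le]
      rintro _ ⟨l, rfl⟩
      exact (span_le.2 b3) (h2 l)
  have hfin : Finite b := LinearIndependent.finite_of_le_span_finite (fun x : b => v x) b4
    (Set.range ρ) (by rw [hr, ← hsp]; exact subset_span)
  have := Fintype.ofFinite b
  have hcard : Fintype.card b = 4 := by
    have a1 := finrank_span_eq_card (b := fun x : b => v x) b4
    have a2 := finrank_span_eq_card hρ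
    rw [hr, hsp, a2] at a1
    simpa using a1.symm
  let φ := (Fintype.equivFinOfCardEq hcard).symm
  refine ⟨fun l => (φ l).1, fun l => b1 (φ l).2, ?_, ?_⟩
  · intro z hz
    have : (Set.range fun l => v (φ l).1) = v '' b := by
      rw [← hr]
      exact φ.surjective.range_comp (fun x : b => v x)
    rw [this]
    exact b3 ⟨z, hz, rfl⟩
  · intro l
    have hn : v (φ l).1 ∉ span k (v '' (b \ {(φ l).1})) := b4.notMem_span (φ l).2
    obtain ⟨f, hf1, hf2⟩ := exists_dual_map_eq_bot_of_notMem hn inferInstance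
    have hf3 : ∀ w ∈ span k (v '' (b \ {(φ l).1})), f w = 0 := by
      intro w hw
      have : f w ∈ (span k (v '' (b \ {(φ l).1}))).map f := mem_map_of_mem hw
      rw [hf2] at this
      exact this
    refine ⟨f, hf1, fun l' hl' => hf3 _ (subset_span ⟨_, ⟨(φ l').2, ?_⟩, rfl⟩), ?_⟩
    · intro h
      exact hl' (φ.injective (Subtype.ext h))
    · intro hl z hz
      refine hf3 _ (span_mono (Set.image_mono ?_) (b03 ⟨z, hz, rfl⟩))
      intro w hw
      refine ⟨b2 hw, ?_⟩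
      rintro rfl
      exact hl (b01 hw)

variable {k : Type*} [Field k]

noncomputable def bin (k : Type*) [Field k] (z : Vtx × Vtx) : Vtx →₀ k :=
  Finsupp.single z.1 1 - Finsupp.single z.2 1

noncomputable def NS (k : Type*) [Field k] (s : Fin 4 → ℕ) (d : Fin 3 → ℤ) : Submodule k (Vtx →₀ k) :=
  span k (bin k '' {z | dg s d z.1 = dg s d z.2 ∧ ∃ j, 0 < z.1.2 j ∧ 0 < z.2.2 j})

noncomputable def RS (k : Type*) [Field k] (s : Fin 4 → ℕ) (d : Fin 3 → ℤ) : Submodule k (Vtx →₀ k) :=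
  span k (bin k '' {z | dg s d z.1 = dg s d z.2})

open Classical in
noncomputable def flt (k : Type*) [Field k] (B : Vtx → Prop) : (Vtx →₀ k) →ₗ[k] (Vtx →₀ k) where
  toFun := Finsupp.filter B
  map_add' := fun _ _ => Finsupp.filter_add
  map_smul' := fun _ _ => Finsupp.filter_smul

theorem flt_bin_pos {B : Vtx → Prop} {z : Vtx × Vtx} (h1 : B z.1) (h2 : B z.2) :
    flt k B (bin k z) = bin k z := by
  classical
  rw [bin, map_sub]
  congr 1 <;> exact Finsupp.filter_single_of_pos _ (by assumption)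

theorem flt_bin_neg {B : Vtx → Prop} {z : Vtx × Vtx} (h1 : ¬ B z.1) (h2 : ¬ B z.2) :
    flt k B (bin k z) = 0 := by
  classical
  rw [bin, map_sub]
  have a1 : flt k B (Finsupp.single z.1 1) = 0 := Finsupp.filter_single_of_neg _ h1
  have a2 : flt k B (Finsupp.single z.2 1) = 0 := Finsupp.filter_single_of_neg _ h2
  rw [a1, a2, sub_zero]

theorem flt_pos {B : Vtx → Prop} {f : Vtx →₀ k} (h : ∀ w, f w ≠ 0 → B w) : flt k B f = f := by
  classical
  exact (Finsupp.filter_eq_self_iff _ _).2 h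

theorem flt_neg {B : Vtx → Prop} {f : Vtx →₀ k} (h : ∀ w, f w ≠ 0 → ¬ B w) : flt k B f = 0 := by
  classical
  exact (Finsupp.filter_eq_zero_iff _ _).2 fun w hw => by_contra fun h' => h w h' hw

theorem flt_NS (s : Fin 4 → ℕ) (d : Fin 3 → ℤ) (B : ℤ → Prop) {f} (hf : f ∈ NS k s d) :
    flt k (fun w => B (dg s d w)) f ∈ NS k s d := by
  have : NS k s d ≤ (NS k s d).comap (flt k fun w => B (dg s d w)) := by
    refine span_le.2 ?_
    rintro _ ⟨z, hz, rfl⟩
    simp only [SetLike.mem_coe, mem_comap]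
    by_cases h : B (dg s d z.1)
    · rw [flt_bin_pos h (hz.1 ▸ h)]
      exact subset_span ⟨z, hz, rfl⟩
    · rw [flt_bin_neg h (hz.1 ▸ h)]
      exact zero_mem _
  exact this hf

theorem half (s : Fin 4 → ℕ) (d : Fin 3 → ℤ) (B : ℤ → Prop) (ρ ρ' : Fin 4 → Vtx →₀ k)
    (hρ : ∀ l w, ρ l w ≠ 0 → B (dg s d w)) (hρ' : ∀ l w, ρ' l w ≠ 0 → ¬ B (dg s d w))
    (h1 : ∀ l, ρ l ∈ RS k s d)
    (h2 : ∀ z : Vtx × Vtx, dg s d z.1 = dg s d z.2 →
      bin k z ∈ span k (Set.range ρ) ⊔ span k (Set.range ρ') ⊔ NS k s d)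
    (h3 : ∀ c : Fin 4 → k, ∑ l, c l • ρ l ∈ NS k s d → ∀ l, c l = 0)
    (t0 : Set (Vtx × Vtx)) (h0 : ∀ z ∈ t0, dg s d z.1 = dg s d z.2 ∧ B (dg s d z.1)) :
    ∃ e : Fin 4 → Vtx × Vtx, (∀ l, dg s d (e l).1 = dg s d (e l).2 ∧ B (dg s d (e l).1)) ∧
      (∀ z : Vtx × Vtx, dg s d z.1 = dg s d z.2 → B (dg s d z.1) →
        bin k z ∈ span k (Set.range fun l => bin k (e l)) ⊔ NS k s d) ∧
      ∀ l, ∃ f : (Vtx →₀ k) →ₗ[k] k, (∀ w ∈ NS k s d, f w = 0) ∧ f (bin k (e l)) ≠ 0 ∧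
        (∀ l', l' ≠ l → f (bin k (e l')) = 0) ∧ (e l ∉ t0 → ∀ z ∈ t0, f (bin k z) = 0) := by
  refine Exists.imp ?_ (choose_basis (k := k) (fun z => (NS k s d).mkQ (bin k z)) t0
    {z | dg s d z.1 = dg s d z.2 ∧ B (dg s d z.1)} h0 (fun l => (NS k s d).mkQ (ρ l)) ?_ ?_ ?_)
  · rintro e ⟨e1, e2, e3⟩
    refine ⟨e1, ?_, ?_⟩
    · intro z a1 a2
      have := e2 z ⟨a1, a2⟩
      rw [show (Set.range fun l => (NS k s d).mkQ (bin k (e l))) =
        (NS k s d).mkQ '' Set.range (fun l => bin k (e l)) from by rw [← Set.range_comp]; rfl,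
        ← map_span, ← mem_comap, comap_map_mkQ, sup_comm] at this
      exact this
    · intro l
      obtain ⟨f, f1, f2, f3⟩ := e3 l
      refine ⟨f ∘ₗ (NS k s d).mkQ, fun w hw => ?_, f1, f2, f3⟩
      rw [LinearMap.comp_apply, mkQ_apply, (Quotient.mk_eq_zero _).2 hw, map_zero]
  · rw [Fintype.linearIndependent_iff]
    intro c hc
    refine h3 c ?_
    rw [← Quotient.mk_eq_zero, ← mkQ_apply, map_sum]
    simpa only [map_smul] using hc
  · rintro z ⟨a1, a2⟩
    obtain ⟨y, hy, n, hn, a3⟩ := mem_sup.1 (h2 z a1)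
    obtain ⟨y1, hy1, y2, hy2, rfl⟩ := mem_sup.1 hy
    have b1 : flt k (fun w => B (dg s d w)) y1 = y1 := by
      refine span_induction ?_ (map_zero _) ?_ ?_ hy1
      · rintro _ ⟨l, rfl⟩
        exact flt_pos (hρ l)
      · intro x y _ _ hx hy
        rw [map_add, hx, hy]
      · intro a x _ hx
        rw [map_smul, hx]
    have b2 : flt k (fun w => B (dg s d w)) y2 = 0 := by
      refine span_induction ?_ (map_zero _) ?_ ?_ hy2
      · rintro _ ⟨l, rfl⟩
        exact flt_neg (hρ' l)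
      · intro x y _ _ hx hy
        rw [map_add, hx, hy, add_zero]
      · intro a x _ hx
        rw [map_smul, hx, smul_zero]
    have b3 := congrArg (flt k fun w => B (dg s d w)) a3
    rw [map_add, map_add, b1, b2, add_zero, flt_bin_pos a2 (a1 ▸ a2)] at b3
    have b4 : (NS k s d).mkQ (bin k z) = (NS k s d).mkQ y1 := by
      rw [← b3, map_add, mkQ_apply _ (flt _ _ _), (Quotient.mk_eq_zero _).2 (flt_NS s d B hn),
        add_zero]
    rw [b4, show (Set.range fun l => (NS k s d).mkQ (ρ l)) = (NS k s d).mkQ '' Set.range ρ from by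
      rw [← Set.range_comp]; rfl, ← map_span]
    exact mem_map_of_mem hy1
  · intro l
    rw [← flt_pos (hρ l)]
    refine span_induction (p := fun x _ => (NS k s d).mkQ (flt k (fun w => B (dg s d w)) x) ∈
      span k ((fun z => (NS k s d).mkQ (bin k z)) ''
        {z | dg s d z.1 = dg s d z.2 ∧ B (dg s d z.1)})) ?_ ?_ ?_ ?_ (h1 l)
    · rintro _ ⟨z, hz, rfl⟩
      by_cases h : B (dg s d z.1)
      · rw [flt_bin_pos h (hz ▸ h)]
        exact subset_span ⟨z, ⟨hz, h⟩, rfl⟩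
      · rw [flt_bin_neg h (hz ▸ h), map_zero]
        exact zero_mem _
    · simp
    · intro x y _ _ hx hy
      rw [map_add, map_add]
      exact add_mem hx hy
    · intro a x _ hx
      rw [map_smul, map_smul]
      exact smul_mem _ _ hx

theorem sh_sh (p : Vtx) (m m' : Mon) : sh (sh p m) m' = sh p (m + m') := by
  simp [sh, add_assoc]

theorem sh_zero (p : Vtx) : sh p 0 = p := by simp [sh]

theorem gen_of_span (s : Fin 4 → ℕ) (d : Fin 3 → ℤ) (spos : ∀ j, 0 < s j) {L : Type*}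
    (e : L → Vtx × Vtx) (he : ∀ l, dg s d (e l).1 = dg s d (e l).2)
    (h : ∀ z : Vtx × Vtx, dg s d z.1 = dg s d z.2 →
      bin k z ∈ span k (Set.range fun l => bin k (e l)) ⊔ NS k s d)
    (J : Vtx → Prop) (hJ : ∀ l m, J (sh (e l).1 m) ↔ J (sh (e l).2 m)) (p q : Vtx)
    (hpq : dg s d p = dg s d q) (hp : J p) : J q := by
  classical
  obtain ⟨c, hc⟩ : ∃ c, ∀ w, c ≤ dg s d w := by
    refine ⟨min (d 0) (min (d 1) (d 2)), fun ⟨i, m⟩ => ?_⟩
    have := wt_nonneg s m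
    rw [dg_mk]
    fin_cases i <;> simp only [Fin.zero_eta, Fin.mk_one, Fin.reduceFinMk] <;> omega
  have key : ∀ n : ℕ, ∀ J : Vtx → Prop, (∀ l m, J (sh (e l).1 m) ↔ J (sh (e l).2 m)) →
      ∀ p q, dg s d p = dg s d q → dg s d p < c + n → J p → J q := by
    intro n
    induction n with
    | zero =>
      intro J _ p q _ h2
      have := hc p
      omega
    | succ n ih =>
      intro J hJ p q hpq hn hp
      let φ : (Vtx →₀ k) →ₗ[k] k :=
        Finsupp.linearCombination k fun w => if dg s d w = dg s d p ∧ J w then 1 else 0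
      have hφ : ∀ z : Vtx × Vtx, dg s d z.1 = dg s d z.2 →
          (dg s d z.1 = dg s d p → (J z.1 ↔ J z.2)) → φ (bin k z) = 0 := by
        intro z a1 a2
        simp only [φ, bin, map_sub, Finsupp.linearCombination_single, one_smul]
        rw [sub_eq_zero]
        refine if_congr ?_ rfl rfl
        rw [← a1]
        exact and_congr_right a2
      have hker : span k (Set.range fun l => bin k (e l)) ⊔ NS k s d ≤ LinearMap.ker φ := by
        refine sup_le (span_le.2 ?_) (span_le.2 ?_)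
        · rintro _ ⟨l, rfl⟩
          refine hφ _ (he l) fun _ => ?_
          simpa only [sh_zero] using hJ l 0
        · rintro _ ⟨⟨p', q'⟩, ⟨a1, j, a2, a3⟩, rfl⟩
          refine hφ _ a1 fun a4 => ?_
          simp only at a1 a2 a3 a4 ⊢
          have hd : ∀ w : Vtx, 0 < w.2 j → w = sh (w.1, w.2 - sg j 1) (sg j 1) := by
            intro w hw
            refine Prod.ext rfl (funext fun i => ?_)
            simp only [sh, Pi.add_apply, Pi.sub_apply]
            by_cases hi : i = j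
            · subst hi
              rw [sg_same]
              omega
            · simp [sg_ne hi]
          have b1 := congrArg (dg s d) (hd p' a2)
          have b2 := congrArg (dg s d) (hd q' a3)
          rw [dg_sh, wt_sg] at b1 b2
          have b3 := spos j
          have hJ' : ∀ l m, J (sh (sh (e l).1 m) (sg j 1)) ↔ J (sh (sh (e l).2 m) (sg j 1)) := by
            intro l m
            rw [sh_sh, sh_sh]
            exact hJ l _
          rw [hd p' a2, hd q' a3]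
          constructor
          · exact ih (fun w => J (sh w (sg j 1))) hJ' _ _ (by omega) (by push_cast at *; omega)
          · exact ih (fun w => J (sh w (sg j 1))) hJ' _ _ (by omega) (by push_cast at *; omega)
      have := hker (h (p, q) hpq)
      simp only [LinearMap.mem_ker, φ, bin, map_sub, Finsupp.linearCombination_single, one_smul,
        hp, and_true, if_true] at this
      by_contra hq
      simp [hq] at this
  exact key (dg s d p - c + 1).toNat J hJ p q hpq (by have := hc p; omega) hp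

theorem exists_sys (s : Fin 4 → ℕ) (d : Fin 3 → ℤ) (spos : ∀ j, 0 < s j)
    (nz : ∀ {p q}, dg s d p = dg s d q → p ≠ q → p.2 ≠ 0)
    (big : ∀ i i' j, ∃ N m, dg s d (i, sg j N) = dg s d (i', m))
    (top1 : ∀ j p, (∀ q, dg s d q = dg s d p → q.2 j = 0) → ∃ m, dg s d (sh p m) = s j)
    (top2 : ∀ j q, dg s d q = s j → q.2 j = 0)
    (top3 : ∀ j i, ∃ m, dg s d (i, m) = s j)
    (ρ ρ' : Fin 4 → Vtx →₀ k)
    (hρ : ∀ l w, ρ l w ≠ 0 → dg s d w < d 0) (hρ' : ∀ l w, ρ' l w ≠ 0 → d 0 ≤ dg s d w)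
    (h1 : ∀ l, ρ l ∈ RS k s d) (h1' : ∀ l, ρ' l ∈ RS k s d)
    (h2 : ∀ z : Vtx × Vtx, dg s d z.1 = dg s d z.2 →
      bin k z ∈ span k (Set.range ρ) ⊔ span k (Set.range ρ') ⊔ NS k s d)
    (h3 : ∀ c : Fin 4 → k, ∑ l, c l • ρ l ∈ NS k s d → ∀ l, c l = 0)
    (h3' : ∀ c : Fin 4 → k, ∑ l, c l • ρ' l ∈ NS k s d → ∀ l, c l = 0)
    (v : Fin 4 → ℤ) : ∃ T : Sys, T.s = s ∧ T.d = d ∧ NF T v := by
  obtain ⟨e, e1, e2, e3⟩ := half s d (fun D => D < d 0) ρ ρ' hρ
    (fun l w h => not_lt.2 (hρ' l w h)) h1 h2 h3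
    {z | (dg s d z.1 = dg s d z.2 ∧ dg s d z.1 < d 0) ∧ ∃ i, z = ((i, vp v), (i, vn v))}
    (fun z hz => hz.1)
  obtain ⟨e', e1', e2', e3'⟩ := half s d (fun D => d 0 ≤ D) ρ' ρ hρ'
    (fun l w h => not_le.2 (hρ l w h)) h1' (fun z hz => by rw [sup_comm (span k _)]; exact h2 z hz)
    h3' ∅ (by simp)
  let ee : Fin 4 ⊕ Fin 4 → Vtx × Vtx := Sum.elim e e'
  have hdeq : ∀ l, dg s d (ee l).1 = dg s d (ee l).2 := by
    rintro (l | l)
    exacts [(e1 l).1, (e1' l).1]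
  have hmin : ∀ (l : Fin 4 ⊕ Fin 4) (f : (Vtx →₀ k) →ₗ[k] k), (∀ w ∈ NS k s d, f w = 0) →
      f (bin k (ee l)) ≠ 0 →
      (∀ l', l' ≠ l → dg s d (ee l').1 = dg s d (ee l).1 → f (bin k (ee l')) = 0) →
      ∀ p q, Pr p q (ee l).1 (ee l).2 → ∃ J : Vtx → Prop, J p ∧ ¬ J q ∧ Shr s d J ∧
        (∀ l' p' q', l' ≠ l → Pr p' q' (ee l').1 (ee l').2 → J p' → J q') ∧
        ∀ z : Vtx × Vtx, dg s d z.1 = dg s d z.2 → f (bin k z) = 0 → (J z.1 ↔ J z.2) := by
    intro l f f1 f2 f3 p q hpq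
    have hz : ∀ z : Vtx × Vtx, dg s d z.1 = dg s d z.2 → f (bin k z) = 0 →
        ((dg s d z.1 = dg s d (ee l).1 ∧ f (Finsupp.single z.1 1) = f (Finsupp.single p 1)) ↔
          (dg s d z.2 = dg s d (ee l).1 ∧ f (Finsupp.single z.2 1) = f (Finsupp.single p 1))) := by
      intro z a1 a2
      rw [bin, map_sub, sub_eq_zero] at a2
      rw [a1, a2]
    refine ⟨fun w => dg s d w = dg s d (ee l).1 ∧ f (Finsupp.single w 1) = f (Finsupp.single p 1),
      ⟨?_, rfl⟩, ?_, ?_, ?_, hz⟩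
    · rcases hpq with ⟨rfl, -⟩ | ⟨rfl, -⟩
      exacts [rfl, (hdeq l).symm]
    · rintro ⟨-, a⟩
      apply f2
      rw [bin, map_sub, sub_eq_zero]
      rcases hpq with ⟨rfl, rfl⟩ | ⟨rfl, rfl⟩
      exacts [a.symm, a]
    · intro p' q' j a1 a2 a3
      exact (hz (p', q') a1 (f1 _ (subset_span ⟨(p', q'), ⟨a1, j, a2, a3⟩, rfl⟩))).1
    · intro l' p' q' a1 a2 a3
      rcases a2 with ⟨rfl, rfl⟩ | ⟨rfl, rfl⟩
      · exact (hz _ (hdeq l') (f3 l' a1 a3.1)).1 a3
      · exact (hz _ (hdeq l') (f3 l' a1 ((hdeq l').trans a3.1))).2 a3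
  have hminB : ∀ l : Fin 4, ∃ f : (Vtx →₀ k) →ₗ[k] k, (∀ w ∈ NS k s d, f w = 0) ∧
      f (bin k (ee (inl l))) ≠ 0 ∧
      (∀ l', l' ≠ inl l → dg s d (ee l').1 = dg s d (ee (inl l)).1 → f (bin k (ee l')) = 0) ∧
      ((e l).1.1 ≠ (e l).2.1 → ∀ i, dg s d (i, vp v) = dg s d (i, vn v) → dg s d (i, vp v) < d 0 →
        f (bin k ((i, vp v), (i, vn v))) = 0) := by
    intro l
    obtain ⟨f, f1, f2, f3, f4⟩ := e3 l
    refine ⟨f, f1, f2, ?_, ?_⟩
    · rintro (l' | l') a1 a2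
      · exact f3 l' fun h => a1 (h ▸ rfl)
      · have b1 := (e1 l).2
        have b2 := (e1' l').2
        simp only [ee, Sum.elim_inl, Sum.elim_inr] at a2
        omega
    · intro a1 i a2 a3
      refine f4 ?_ _ ⟨⟨a2, a3⟩, i, rfl⟩
      rintro ⟨-, i', hi'⟩
      exact a1 (by rw [hi'])
  refine ⟨⟨s, d, fun l p q => Pr p q (ee l).1 (ee l).2, spos, ?_, ?_, ?_, ?_, ?_, ?_, ?_, ?_, nz,
    big, top1, top2, top3⟩, rfl, rfl, ?_⟩
  · intro l p q h
    unfold Pr at *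
    tauto
  · rintro l p q p' q' (⟨rfl, rfl⟩ | ⟨rfl, rfl⟩) h
    · exact h
    · unfold Pr at *
      tauto
  · exact fun l => ⟨_, _, Or.inl ⟨rfl, rfl⟩⟩
  · rintro l p q (⟨rfl, rfl⟩ | ⟨rfl, rfl⟩)
    exacts [hdeq l, (hdeq l).symm]
  · rintro l p q (⟨rfl, rfl⟩ | ⟨rfl, rfl⟩)
    exacts [(e1 l).2, (hdeq (inl l)) ▸ (e1 l).2]
  · rintro l p q (⟨rfl, rfl⟩ | ⟨rfl, rfl⟩)
    exacts [(e1' l).2, (hdeq (inr l)) ▸ (e1' l).2]
  · intro J hJ
    refine gen_of_span (k := k) s d spos ee hdeq ?_ J fun l m =>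
      ⟨hJ l _ _ m (Or.inl ⟨rfl, rfl⟩), hJ l _ _ m (Or.inr ⟨rfl, rfl⟩)⟩
    intro z hz
    rcases lt_or_ge (dg s d z.1) (d 0) with h | h
    · refine SetLike.le_def.1 (sup_le_sup_right (span_mono ?_) _) (e2 z hz h)
      rintro _ ⟨l, rfl⟩
      exact ⟨inl l, rfl⟩
    · refine SetLike.le_def.1 (sup_le_sup_right (span_mono ?_) _) (e2' z hz h)
      rintro _ ⟨l, rfl⟩
      exact ⟨inr l, rfl⟩
  · rintro (l | l) p q h
    · obtain ⟨f, f1, f2, f3, -⟩ := hminB l
      obtain ⟨J, j1, j2, j3, j4, -⟩ := hmin _ f f1 f2 f3 p q h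
      exact ⟨J, j1, j2, j3, j4⟩
    · obtain ⟨f, f1, f2, f3, -⟩ := e3' l
      obtain ⟨J, j1, j2, j3, j4, -⟩ := hmin (inr l) f f1 f2 (by
        rintro (l' | l') a1 a2
        · have b1 := (e1 l').2
          have b2 := (e1' l).2
          simp only [ee, Sum.elim_inl, Sum.elim_inr] at a2
          omega
        · exact f3 l' fun h => a1 (h ▸ rfl)) p q h
      exact ⟨J, j1, j2, j3, j4⟩
  · intro l p q h hne
    obtain ⟨f, f1, f2, f3, f4⟩ := hminB l
    obtain ⟨J, j1, j2, j3, j4, j5⟩ := hmin _ f f1 f2 f3 p q h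
    refine ⟨J, j1, j2, j3, j4, fun i a1 a2 => j5 ((i, vp v), (i, vn v)) a1 (f4 ?_ i a1 a2)⟩
    rcases h with ⟨rfl, rfl⟩ | ⟨rfl, rfl⟩
    exacts [hne, hne.symm]

end Pool.Agent.P.MP_1f474f_ag
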