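import Mathlib

namespace Pool.Agent.P.MP_1f474f_ag

open Sum

abbrev Mon := Fin 4 → ℕ
abbrev Vtx := Fin 3 × Mon

def wt (s : Fin 4 → ℕ) (m : Mon) : ℤ := ∑ j, (m j : ℤ) * s j
def dg (s : Fin 4 → ℕ) (d : Fin 3 → ℤ) (p : Vtx) : ℤ := d p.1 + wt s p.2
def sh (p : Vtx) (m : Mon) : Vtx := (p.1, p.2 + m)
def Shr (s : Fin 4 → ℕ) (d : Fin 3 → ℤ) (J : Vtx → Prop) : Prop :=
  ∀ p q j, dg s d p = dg s d q → 0 < p.2 j → 0 < q.2 j → J p → J q
def Pr (p q p0 q0 : Vtx) : Prop := (p = p0 ∧ q = q0) ∨ (p = q0 ∧ q = p0)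
def sg (j : Fin 4) (n : ℕ) : Mon := fun i => if i = j then n else 0

structure Sys where
  s : Fin 4 → ℕ
  d : Fin 3 → ℤ
  E : Fin 4 ⊕ Fin 4 → Vtx → Vtx → Prop
  spos : ∀ j, 0 < s j
  symm : ∀ {l p q}, E l p q → E l q p
  uniq : ∀ {l p q p' q'}, E l p q → E l p' q' → Pr p' q' p q
  ex : ∀ l, ∃ p q, E l p q
  deq : ∀ {l p q}, E l p q → dg s d p = dg s d q
  below : ∀ {l p q}, E (inl l) p q → dg s d p < d 0
  above : ∀ {l p q}, E (inr l) p q → d 0 ≤ dg s d p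
  gen : ∀ J : Vtx → Prop, (∀ l p q m, E l p q → J (sh p m) → J (sh q m)) →
    ∀ p q, dg s d p = dg s d q → J p → J q
  min : ∀ {l p q}, E l p q → ∃ J : Vtx → Prop, J p ∧ ¬ J q ∧ Shr s d J ∧
    ∀ l' p' q', l' ≠ l → E l' p' q' → J p' → J q'
  nz : ∀ {p q}, dg s d p = dg s d q → p ≠ q → p.2 ≠ 0
  big : ∀ i i' j, ∃ N m, dg s d (i, sg j N) = dg s d (i', m)
  top1 : ∀ j p, (∀ q, dg s d q = dg s d p → q.2 j = 0) → ∃ m, dg s d (sh p m) = s j
  top2 : ∀ j q, dg s d q = s j → q.2 j = 0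
  top3 : ∀ j i, ∃ m, dg s d (i, m) = s j

structure D4 (x y z t : Fin 4) : Prop where
  xy : x ≠ y
  xz : x ≠ z
  xt : x ≠ t
  yz : y ≠ z
  yt : y ≠ t
  zt : z ≠ t

theorem D4.all {x y z t : Fin 4} (h : D4 x y z t) (j : Fin 4) : j = x ∨ j = y ∨ j = z ∨ j = t := by
  obtain ⟨h1, h2, h3, h4, h5, h6⟩ := h
  omega

structure G3 (g2 g3 : Fin 3) : Prop where
  a : g2 ≠ 0
  b : g3 ≠ 0
  c : g2 ≠ g3

theorem G3.all {g2 g3 : Fin 3} (h : G3 g2 g3) (i : Fin 3) : i = 0 ∨ i = g2 ∨ i = g3 := by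
  obtain ⟨h1, h2, h3⟩ := h
  omega

theorem G3.swap {g2 g3 : Fin 3} (h : G3 g2 g3) : G3 g3 g2 := ⟨h.b, h.a, h.c.symm⟩

@[simp] theorem sg_same (j : Fin 4) (n : ℕ) : sg j n j = n := by simp [sg]
theorem sg_ne {i j : Fin 4} (h : i ≠ j) (n : ℕ) : sg j n i = 0 := by simp [sg, h]

theorem wt_add (s : Fin 4 → ℕ) (m m' : Mon) : wt s (m + m') = wt s m + wt s m' := by
  simp [wt, add_mul, Finset.sum_add_distrib]

theorem wt_nonneg (s : Fin 4 → ℕ) (m : Mon) : 0 ≤ wt s m :=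
  Finset.sum_nonneg fun j _ => by positivity

theorem wt_sg (s : Fin 4 → ℕ) (j : Fin 4) (n : ℕ) : wt s (sg j n) = n * s j := by
  unfold wt
  rw [Finset.sum_eq_single j]
  · simp
  · intro i _ hi
    simp [sg_ne hi]
  · simp

theorem wt4 {x y z t : Fin 4} (h : D4 x y z t) (s : Fin 4 → ℕ) (m : Mon) :
    wt s m = m x * (s x : ℤ) + m y * (s y : ℤ) + m z * (s z : ℤ) + m t * (s t : ℤ) := by
  have hu : (Finset.univ : Finset (Fin 4)) = {x, y, z, t} := by
    ext j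
    simpa using h.all j
  obtain ⟨h1, h2, h3, h4, h5, h6⟩ := h
  unfold wt
  rw [hu, Finset.sum_insert (by simp [h1, h2, h3]), Finset.sum_insert (by simp [h4, h5]),
    Finset.sum_insert (by simp [h6]), Finset.sum_singleton]
  ring

theorem dg_sh (s : Fin 4 → ℕ) (d : Fin 3 → ℤ) (p : Vtx) (m : Mon) :
    dg s d (sh p m) = dg s d p + wt s m := by
  simp [dg, sh, wt_add, add_assoc]

theorem dg_mk (s : Fin 4 → ℕ) (d : Fin 3 → ℤ) (i : Fin 3) (m : Mon) :
    dg s d (i, m) = d i + wt s m := rfl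

def mon (x y z : Fin 4) (a b c e : ℕ) : Mon :=
  fun j => if j = x then a else if j = y then b else if j = z then c else e

theorem D4.mkx {x y z t : Fin 4} (_ : D4 x y z t) (a b c e : ℕ) : mon x y z a b c e x = a := by
  simp [mon]
theorem D4.mky {x y z t : Fin 4} (h : D4 x y z t) (a b c e : ℕ) : mon x y z a b c e y = b := by
  simp [mon, h.xy.symm]
theorem D4.mkz {x y z t : Fin 4} (h : D4 x y z t) (a b c e : ℕ) : mon x y z a b c e z = c := by
  simp [mon, h.xz.symm, h.yz.symm]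
theorem D4.mkt {x y z t : Fin 4} (h : D4 x y z t) (a b c e : ℕ) : mon x y z a b c e t = e := by
  simp [mon, h.xt.symm, h.yt.symm, h.zt.symm]

theorem D4.dgmk {x y z t : Fin 4} (h : D4 x y z t) (s : Fin 4 → ℕ) (d : Fin 3 → ℤ) (i : Fin 3)
    (a b c e : ℕ) : dg s d (i, mon x y z a b c e) =
      d i + (a * (s x : ℤ) + b * (s y : ℤ) + c * (s z : ℤ) + e * (s t : ℤ)) := by
  rw [dg_mk, wt4 h, h.mkx, h.mky, h.mkz, h.mkt]

theorem exists_pos {m : Mon} (h : m ≠ 0) : ∃ j, 0 < m j := by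
  by_contra hc
  push Not at hc
  exact h (funext fun j => Nat.le_zero.1 (hc j))

theorem eq_sg {m : Mon} {j : Fin 4} (h : ∀ i, i ≠ j → m i = 0) : m = sg j (m j) := by
  funext i
  by_cases hi : i = j
  · subst hi; simp
  · rw [sg_ne hi, h i hi]

namespace Sys

variable (T : Sys)

theorem ne {l p q} (h : T.E l p q) : p ≠ q := by
  obtain ⟨J, h1, h2, -⟩ := T.min h
  rintro rfl
  exact h2 h1

theorem pos {l p q} (h : T.E l p q) : ∃ j, 0 < p.2 j :=
  exists_pos (T.nz (T.deq h) (T.ne h))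

theorem disj {l p q} (h : T.E l p q) (j : Fin 4) : p.2 j = 0 ∨ q.2 j = 0 := by
  obtain ⟨J, h1, h2, h3, -⟩ := T.min h
  by_contra hc
  push Not at hc
  exact h2 (h3 p q j (T.deq h) (Nat.pos_of_ne_zero hc.1) (Nat.pos_of_ne_zero hc.2) h1)

theorem sgpos {l i j n q} (h : T.E l (i, sg j n) q) : 0 < n := by
  obtain ⟨k, hk⟩ := T.pos h
  by_cases hkj : k = j
  · subst hkj; simpa using hk
  · simp [sg_ne hkj] at hk

theorem par {l l' p q} (h : T.E l p q) (h' : T.E l' p q) : l = l' := by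
  by_contra hc
  obtain ⟨J, h1, h2, -, h4⟩ := T.min h
  exact h2 (h4 l' p q (Ne.symm hc) h' h1)

theorem ne0 {p : Vtx} (h : dg T.s T.d p < T.d 0) : p.1 ≠ 0 := by
  intro h0
  have := wt_nonneg T.s p.2
  unfold dg at h
  rw [h0] at h
  omega

theorem bne0 {l p q} (h : T.E (inl l) p q) : p.1 ≠ 0 := T.ne0 (T.below h)

theorem other (i : Fin 3) : ∃ i' : Fin 3, i' ≠ i := by
  by_cases h : i = 0
  · exact ⟨1, by subst h; decide⟩
  · exact ⟨0, Ne.symm h⟩

/-- a nonempty set of variables on one generator cannot be closed -/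
theorem notclosed (i : Fin 3) (A : Finset (Fin 4)) (hA : A.Nonempty)
    (h : ∀ l p q, T.E l p q → p.1 = i → (∀ j, 0 < p.2 j → j ∈ A) →
      q.1 = i ∧ ∀ j, 0 < q.2 j → j ∈ A) : False := by
  obtain ⟨j, hj⟩ := hA
  obtain ⟨i', hi'⟩ := other i
  obtain ⟨N, m, hN⟩ := T.big i i' j
  have := T.gen (fun p => p.1 = i ∧ ∀ j, 0 < p.2 j → j ∈ A) ?_ _ _ hN ?_
  · exact hi' this.1
  · rintro l p q m he ⟨h1, h2⟩
    have := h l p q he h1 (fun j hj => h2 j (by simp [sh]; omega))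
    refine ⟨this.1, fun j hj => ?_⟩
    simp only [sh, Pi.add_apply] at hj
    by_cases hq : 0 < q.2 j
    · exact this.2 j hq
    · exact h2 j (by simp [sh]; omega)
  · refine ⟨rfl, fun k hk => ?_⟩
    by_cases hkj : k = j
    · exact hkj ▸ hj
    · simp [sg_ne hkj] at hk

theorem pure (i : Fin 3) (j : Fin 4) : ∃ l n q, T.E l (i, sg j n) q := by
  by_contra hc
  push Not at hc
  refine T.notclosed i {j} (Finset.singleton_nonempty j) ?_
  intro l p q he h1 h2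
  exfalso
  have : p = (i, sg j (p.2 j)) := by
    refine Prod.ext h1 (eq_sg fun k hk => ?_)
    by_contra h0
    exact hk (by simpa using h2 k (Nat.pos_of_ne_zero h0))
  exact hc l (p.2 j) q (this ▸ he)

theorem L0aux (i : Fin 3) (n : ℕ) : ∀ (F : Finset (Fin 4 ⊕ Fin 4)) (A : Finset (Fin 4)),
    F.card = n → n < A.card → ∃ B ⊆ A, B.Nonempty ∧ ∀ l ∈ F, ∀ p q, T.E l p q → p.1 = i →
      (∀ j, 0 < p.2 j → j ∈ B) → q.1 = i ∧ ∀ j, 0 < q.2 j → j ∈ B := by
  induction n with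
  | zero =>
    intro F A hF hA
    refine ⟨A, subset_rfl, Finset.card_pos.1 hA, ?_⟩
    intro l hl
    rw [Finset.card_eq_zero.1 hF] at hl
    simp at hl
  | succ n ih =>
    intro F A hF hA
    by_cases hg : ∀ l ∈ F, ∀ p q, T.E l p q → p.1 = i →
      (∀ j, 0 < p.2 j → j ∈ A) → q.1 = i ∧ ∀ j, 0 < q.2 j → j ∈ A
    · exact ⟨A, subset_rfl, Finset.card_pos.1 (by omega), hg⟩
    · push Not at hg
      obtain ⟨l, hl, p, q, he, hp, hpA, hq⟩ := hg
      obtain ⟨j, hj⟩ := T.pos he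
      obtain ⟨B, hBA, hB, hgood⟩ := ih (F.erase l) (A.erase j)
        (by rw [Finset.card_erase_of_mem hl]; omega)
        (by rw [Finset.card_erase_of_mem (hpA j hj)]; omega)
      refine ⟨B, hBA.trans (Finset.erase_subset _ _), hB, ?_⟩
      intro l' hl' p' q' he' hp' hp'B
      by_cases hll : l' = l
      · subst hll
        exfalso
        rcases T.uniq he he' with ⟨rfl, rfl⟩ | ⟨rfl, rfl⟩
        · have := hBA (hp'B j hj)
          simp at this
        · obtain ⟨k, hk, hkA⟩ := hq hp'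
          exact hkA (Finset.erase_subset _ _ (hBA (hp'B k hk)))
      · exact hgood l' (Finset.mem_erase.2 ⟨hll, hl'⟩) p' q' he' hp' hp'B

theorem L0 (i : Fin 3) (F : Finset (Fin 4 ⊕ Fin 4)) (hF : F.card < 4)
    (h : ∀ l p q, T.E l p q → p.1 = i → l ∈ F) : False := by
  obtain ⟨B, -, hB, hgood⟩ := T.L0aux i F.card F Finset.univ rfl (by simpa using hF)
  exact T.notclosed i B hB fun l p q he hp => hgood l (h l p q he hp) p q he hp

theorem above0 (a : Fin 4) : ∃ m q, T.E (inr a) (0, m) q := by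
  by_contra hc
  push Not at hc
  refine T.L0 0 ((Finset.univ.erase a).map Function.Embedding.inr) (by simp) ?_
  rintro (l | l) p q he hp
  · exact absurd hp (T.bne0 he)
  · simp only [Finset.mem_map, Finset.mem_erase, Finset.mem_univ, and_true]
    refine ⟨l, ?_, rfl⟩
    rintro rfl
    exact hc p.2 q (by rw [← hp]; exact he)

theorem above0' {a p q} (he : T.E (inr a) p q) (hp : p.1 ≠ 0) : q.1 = 0 := by
  obtain ⟨m, q', he'⟩ := T.above0 a
  rcases T.uniq he he' with ⟨h1, -⟩ | ⟨h1, -⟩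
  · exact absurd (by rw [← h1]) hp
  · rw [← h1]

theorem topl (j : Fin 4) (J : Vtx → Prop)
    (h : ∀ l p q m, T.E l p q → p.2 j = 0 → q.2 j = 0 → J (sh p m) → J (sh q m))
    (p q : Vtx) (hp : dg T.s T.d p = T.s j) (hq : dg T.s T.d q = T.s j) (hJ : J p) : J q := by
  have := T.gen (fun r => dg T.s T.d r = T.s j → J r) ?_ p q (hp.trans hq.symm) (fun _ => hJ)
  · exact this hq
  · intro l p q m he h1 h2
    have h3 : dg T.s T.d (sh p m) = T.s j := by
      rw [dg_sh] at h2 ⊢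
      rw [T.deq he, h2]
    have h4 := T.top2 j _ h3
    have h5 := T.top2 j _ h2
    simp only [sh, Pi.add_apply] at h4 h5
    exact h l p q m he (by omega) (by omega) (h1 h3)

/-- some edge free of the variable j joins generator i to another generator -/
theorem topedge (j : Fin 4) (i : Fin 3) :
    ∃ l p q, T.E l p q ∧ p.1 = i ∧ q.1 ≠ i ∧ p.2 j = 0 ∧ q.2 j = 0 := by
  by_contra hc
  push Not at hc
  obtain ⟨i', hi'⟩ := other i
  obtain ⟨m, hm⟩ := T.top3 j i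
  obtain ⟨m', hm'⟩ := T.top3 j i'
  refine hi' (T.topl j (fun r => r.1 = i) ?_ _ _ hm hm' rfl)
  intro l p q m he h1 h2 h3
  by_contra h4
  exact hc l p q he h3 h4 h1 h2

theorem socle (t : Fin 4) (J : Vtx → Prop) (ξ : Vtx) (i : Fin 3)
    (hcl : ∀ l p q m, T.E l p q → J (sh p m) → J (sh q m)) (hξ : J ξ)
    (ht : ∀ p, J p → p.2 t = 0) (hi : ∀ p, J p → p.1 ≠ i)
    (hup : ∀ j, ∃ q : Vtx, dg T.s T.d q = dg T.s T.d ξ + T.s j ∧ 0 < q.2 t) : False := by
  obtain ⟨m, hm⟩ := T.top1 t ξ fun q hq => ht q (T.gen J hcl ξ q hq.symm hξ)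
  by_cases h0 : m = 0
  · subst h0
    obtain ⟨m', hm'⟩ := T.top3 t i
    have h1 : dg T.s T.d ξ = dg T.s T.d (i, m') := by
      rw [hm', ← hm, dg_sh]
      simp [wt]
    exact hi _ (T.gen J hcl _ _ h1 hξ) rfl
  · obtain ⟨j, hj⟩ := exists_pos h0
    obtain ⟨q, hq, hqt⟩ := hup j
    have h1 : m = sg j 1 + (m - sg j 1) := by
      funext k
      by_cases hk : k = j
      · subst hk
        simp only [Pi.add_apply, Pi.sub_apply, sg_same]
        omega
      · simp [sg_ne hk]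
    have h2 : dg T.s T.d (sh q (m - sg j 1)) = T.s t := by
      rw [← hm, dg_sh, dg_sh, hq]
      conv_rhs => rw [h1, wt_add, wt_sg]
      push_cast
      ring
    have := T.top2 t _ h2
    simp only [sh, Pi.add_apply] at this
    omega

theorem aboveStruct (h : ∀ a m m', ¬ T.E (inr a) (0, m) (0, m')) :
    ∃ (n : Fin 4 → ℕ) (o : Fin 4 → Vtx) (τ : Fin 4 → Fin 4),
      (∀ j, T.E (inr (τ j)) (0, sg j (n j)) (o j)) ∧
      (∀ a p q, T.E (inr a) p q → ∃ j, Pr p q (0, sg j (n j)) (o j)) := by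
  have h1 : ∀ j, ∃ a n q, T.E (inr a) (0, sg j n) q := by
    intro j
    obtain ⟨l, n, q, he⟩ := T.pure 0 j
    rcases l with l | l
    · exact absurd rfl (T.bne0 he)
    · exact ⟨l, n, q, he⟩
  choose τ n o he using h1
  have hinj : Function.Injective τ := by
    intro j j' hjj
    have h2 := he j'
    rw [← hjj] at h2
    rcases T.uniq (he j) h2 with ⟨h3, -⟩ | ⟨h3, -⟩
    · by_contra hne
      have h4 := congrFun (congrArg Prod.snd h3) j
      have h5 := T.sgpos (he j)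
      simp [sg_ne hne] at h4
      omega
    · exfalso
      have h4 := he j
      rw [← h3] at h4
      exact h _ _ _ h4
  refine ⟨n, o, τ, he, ?_⟩
  intro a p q hpq
  obtain ⟨j, rfl⟩ := (Finite.injective_iff_surjective.1 hinj) a
  exact ⟨j, T.uniq (he j) hpq⟩

end Sys

end Pool.Agent.P.MP_1f474f_ag
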