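import Pool.Agent.P.MP_1f474f_ag.Comb1

set_option linter.unusedSimpArgs false

namespace Pool.Agent.P.MP_1f474f_ag

open Sum

def vp (v : Fin 4 → ℤ) : Mon := fun j => (v j).toNat
def vn (v : Fin 4 → ℤ) : Mon := fun j => (-v j).toNat

theorem vp_neg (v : Fin 4 → ℤ) : vp (-v) = vn v := rfl
theorem vn_neg (v : Fin 4 → ℤ) : vn (-v) = vp v := by
  funext j
  simp [vn, vp]

theorem wt_sub (s : Fin 4 → ℕ) {m m' : Mon} {v : Fin 4 → ℤ} {κ : ℤ}
    (h : ∀ j, (m j : ℤ) - m' j = κ * v j) : wt s m - wt s m' = κ * ∑ j, v j * s j := by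
  unfold wt
  rw [← Finset.sum_sub_distrib, Finset.mul_sum]
  refine Finset.sum_congr rfl fun j _ => ?_
  rw [← sub_mul, h j]
  ring

theorem exD4 (t : Fin 4) : ∃ x y z, D4 x y z t := by
  fin_cases t
  · exact ⟨1, 2, 3, by constructor <;> decide⟩
  · exact ⟨0, 2, 3, by constructor <;> decide⟩
  · exact ⟨0, 1, 3, by constructor <;> decide⟩
  · exact ⟨0, 1, 2, by constructor <;> decide⟩

namespace Sys

variable (T : Sys)

theorem abaux (v : Fin 4 → ℤ) (J : Vtx → Prop) (hJ : Shr T.s T.d J) (i : Fin 3) (m m' : Mon)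
    (κ : ℤ) (hκ0 : 0 < κ) (hd : dg T.s T.d (i, m) = dg T.s T.d (i, m')) (h1 : J (i, m))
    (h2 : ¬ J (i, m')) (hκ : ∀ j, (m j : ℤ) - m' j = κ * v j) : m = vp v ∧ m' = vn v := by
  have hne : (i, m) ≠ (i, m') := by
    intro h
    exact h2 (h ▸ h1)
  have hdis : ∀ j, m j = 0 ∨ m' j = 0 := by
    intro j
    by_contra hc
    push Not at hc
    exact h2 (hJ _ _ j hd (Nat.pos_of_ne_zero hc.1) (Nat.pos_of_ne_zero hc.2) h1)
  by_cases hκ1 : κ = 1
  · subst hκ1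
    constructor <;> funext j <;> have := hκ j <;> have := hdis j <;> simp only [vp, vn] <;> omega
  · exfalso
    have hκ2 : 2 ≤ κ := by omega
    obtain ⟨j, hj⟩ := exists_pos (T.nz hd hne)
    obtain ⟨j', hj'⟩ := exists_pos (T.nz hd.symm hne.symm)
    simp only at hj hj'
    have hW : ∑ j, v j * T.s j = 0 := by
      have := wt_sub T.s hκ
      simp only [dg_mk] at hd
      have h3 : κ * ∑ j, v j * T.s j = 0 := by omega
      exact (mul_eq_zero.1 h3).resolve_left (by omega)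
    have hge : ∀ k, v k ≤ m k ∧ (0 < m k → v k < m k) ∧ (0 < m' k → v k < 0) := by
      intro k
      have h3 := hκ k
      rcases hdis k with h4 | h4
      · rw [h4] at h3 ⊢
        refine ⟨?_, by omega, fun h5 => ?_⟩
        · by_contra h6
          have : 0 < κ * v k := mul_pos hκ0 (by omega)
          omega
        · by_contra h6
          have : 0 ≤ κ * v k := mul_nonneg hκ0.le (by omega)
          omega
      · rw [h4] at h3 ⊢
        have h7 : 0 ≤ v k := by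
          by_contra h6
          have : κ * v k < 0 := mul_neg_of_pos_of_neg hκ0 (by omega)
          omega
        refine ⟨by nlinarith, fun h5 => ?_, by omega⟩
        have h8 : 0 < v k := by
          by_contra h6
          have : v k = 0 := by omega
          rw [this] at h3
          omega
        nlinarith
    let r : Mon := fun k => ((m k : ℤ) - v k).toNat
    have hr : ∀ k, (m k : ℤ) - r k = 1 * v k := by
      intro k
      have := (hge k).1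
      simp only [r]
      omega
    have hdr : dg T.s T.d (i, m) = dg T.s T.d (i, r) := by
      have := wt_sub T.s hr
      rw [hW] at this
      simp only [dg_mk]
      omega
    have h5 : J (i, r) := hJ _ _ j hdr hj (by have := (hge j).2.1 hj; simp only [r]; omega) h1
    exact h2 (hJ _ _ j' (hdr.symm.trans hd)
      (by have := (hge j').2.2 hj'; simp only [r]; omega) hj' h5)

theorem ab (v : Fin 4 → ℤ) (J : Vtx → Prop) (hJ : Shr T.s T.d J) (i : Fin 3) (m m' : Mon)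
    (κ : ℤ) (hd : dg T.s T.d (i, m) = dg T.s T.d (i, m')) (h1 : J (i, m))
    (h2 : ¬ J (i, m')) (hκ : ∀ j, (m j : ℤ) - m' j = κ * v j) :
    (m = vp v ∧ m' = vn v) ∨ (m = vn v ∧ m' = vp v) := by
  rcases lt_trichotomy κ 0 with h | h | h
  · right
    have := T.abaux (-v) J hJ i m m' (-κ) (by omega) hd h1 h2 (fun j => by rw [hκ j]; simp)
    rwa [vp_neg, vn_neg] at this
  · exfalso
    have : m = m' := by
      funext j
      have := hκ j
      rw [h] at this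
      omega
    exact h2 (this ▸ h1)
  · exact Or.inl (T.abaux v J hJ i m m' κ h hd h1 h2 hκ)

theorem abE (v : Fin 4 → ℤ) {l} {i : Fin 3} {m m' : Mon} (he : T.E l (i, m) (i, m'))
    (κ : ℤ) (hκ : ∀ j, (m j : ℤ) - m' j = κ * v j) : T.E l (i, vp v) (i, vn v) := by
  obtain ⟨J, h1, h2, h3, -⟩ := T.min he
  rcases T.ab v J h3 i m m' κ (T.deq he) h1 h2 hκ with ⟨rfl, rfl⟩ | ⟨rfl, rfl⟩
  · exact he
  · exact T.symm he

theorem caseW {g2 g3 : Fin 3} (hg : G3 g2 g3) (u : Fin 4 → ℤ)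
    (h1 : ∀ l p q, T.E (inl l) p q → p.1 ≠ q.1)
    (h2 : ∀ l m m', T.E (inl l) (g2, m) (g3, m') → ∀ j, (m' j : ℤ) - m j = u j) : False := by
  have key : ∀ l, T.E (inl l) (g2, vn u) (g3, vp u) := by
    intro l
    have : ∃ m m', T.E (inl l) (g2, m) (g3, m') := by
      obtain ⟨⟨i, m⟩, ⟨i', m'⟩, he⟩ := T.ex (inl l)
      have a1 := T.bne0 he
      have a2 := T.bne0 (T.symm he)
      have a3 := h1 _ _ _ he
      simp only at a1 a2 a3
      rcases hg.all i with rfl | rfl | rfl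
      · exact absurd rfl a1
      · rcases hg.all i' with rfl | rfl | rfl
        · exact absurd rfl a2
        · exact absurd rfl a3
        · exact ⟨_, _, he⟩
      · rcases hg.all i' with rfl | rfl | rfl
        · exact absurd rfl a2
        · exact ⟨_, _, T.symm he⟩
        · exact absurd rfl a3
    obtain ⟨m, m', he⟩ := this
    have e1 : m = vn u ∧ m' = vp u := by
      constructor <;> funext j <;> have := h2 l m m' he j <;> have := T.disj he j <;>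
        simp only [vp, vn] at * <;> omega
    rw [← e1.1, ← e1.2]
    exact he
  have := T.par (key 0) (key 1)
  simp at this

theorem caseZ {g2 g3 : Fin 3} (hg : G3 g2 g3) (v : Fin 4 → ℤ)
    (h1 : ∀ l p q, T.E (inl l) p q → p.1 = q.1)
    (h2 : ∀ l m m', T.E (inl l) (g2, m) (g2, m') → ∃ κ : ℤ, ∀ j, (m j : ℤ) - m' j = κ * v j) :
    False := by
  have h3 : ∀ j, ∃ a m m', T.E (inr a) (g3, m) (0, m') ∧ m' j = 0 := by
    intro j
    obtain ⟨l, ⟨i, m⟩, ⟨i', m'⟩, he, a1, a2, -, a4⟩ := T.topedge j g3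
    simp only at a1 a2 a4
    subst a1
    rcases l with l | l
    · exact absurd (h1 _ _ _ he).symm a2
    · have := T.above0' he hg.b
      simp only at this
      subst this
      exact ⟨l, m, m', he, a4⟩
  obtain ⟨a, m, m', he, -⟩ := h3 0
  obtain ⟨j, hj⟩ := T.pos (T.symm he)
  obtain ⟨a', n, n', he', hn⟩ := h3 j
  have haa : a ≠ a' := by
    rintro rfl
    rcases T.uniq he he' with ⟨-, h⟩ | ⟨h, -⟩
    · simp only [Prod.mk.injEq, true_and] at h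
      subst h
      simp only at hj
      omega
    · exact hg.b (congrArg Prod.fst h)
  have h4 : ∃ lA, ∀ l p q, T.E (inl l) p q → p.1 = g2 → l = lA := by
    have h5 : ∀ l p q, T.E (inl l) p q → p.1 = g2 → T.E (inl l) (g2, vp v) (g2, vn v) := by
      rintro l ⟨i, m⟩ ⟨i', m'⟩ he hp
      have := h1 _ _ _ he
      simp only at hp this
      subst hp
      subst this
      obtain ⟨κ, hκ⟩ := h2 _ _ _ he
      exact T.abE v he κ hκ
    by_cases hA : ∃ l, T.E (inl l) (g2, vp v) (g2, vn v)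
    · obtain ⟨lA, hA⟩ := hA
      exact ⟨lA, fun l p q he hp => inl_injective (T.par (h5 l p q he hp) hA)⟩
    · exact ⟨0, fun l p q he hp => absurd ⟨l, h5 l p q he hp⟩ hA⟩
  obtain ⟨lA, hA⟩ := h4
  refine T.L0 g2 (insert (inl lA) (((Finset.univ.erase a).erase a').map Function.Embedding.inr))
    ?_ ?_
  · refine lt_of_le_of_lt (Finset.card_insert_le _ _) ?_
    rw [Finset.card_map, Finset.card_erase_of_mem (by simp [haa.symm]),
      Finset.card_erase_of_mem (by simp)]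
    simp
  · rintro (l | l) p q hpq hp
    · rw [hA l p q hpq hp]
      exact Finset.mem_insert_self _ _
    · refine Finset.mem_insert_of_mem ?_
      simp only [Finset.mem_map, Finset.mem_erase, Finset.mem_univ, and_true]
      refine ⟨l, ⟨?_, ?_⟩, rfl⟩
      · rintro rfl
        rcases T.uniq he' hpq with ⟨h, -⟩ | ⟨h, -⟩
        · exact hg.c (by rw [← hp, h])
        · exact hg.a (by rw [← hp, h])
      · rintro rfl
        rcases T.uniq he hpq with ⟨h, -⟩ | ⟨h, -⟩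
        · exact hg.c (by rw [← hp, h])
        · exact hg.a (by rw [← hp, h])

theorem XB {g2 g3 : Fin 3} (hg : G3 g2 g3) {x y z t : Fin 4} (hD : D4 x y z t)
    (hX : ∀ l p q, T.E (inl l) p q → p.1 = g2 → 0 < p.2 t)
    {e p0 c q0 b r a : ℕ} {m' : Mon} (he : 0 < e) (hp : 0 < p0) (ha : 0 < a)
    (hA : ∀ l p q, T.E (inr l) p q → Pr p q (0, sg t e) (g2, sg x p0) ∨
      Pr p q (0, sg z c) (g2, sg y q0) ∨ Pr p q (0, sg y b) (g2, sg z r) ∨
      Pr p q (0, sg x a) (g3, m')) : False := by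
  obtain ⟨N, m, hN⟩ := T.big g2 g3 y
  obtain ⟨h1, h2, h3, h4, h5, h6⟩ := hD
  have := T.gen (fun p => p.1 ≠ g3 ∧ p.2 x = 0 ∧ p.2 t = 0) ?_ _ _ hN ?_
  · exact this.1 rfl
  · rintro (l | l) p q m hpq ⟨a1, a2, a3⟩
    · exfalso
      simp only [sh, Pi.add_apply] at a1 a2 a3
      rcases hg.all p.1 with h | h | h
      · exact T.bne0 hpq h
      · have := hX _ _ _ hpq h
        omega
      · exact a1 h
    · have b1 := hg.b
      have b2 := hg.c
      rcases hA l p q hpq with (⟨rfl, rfl⟩ | ⟨rfl, rfl⟩) | (⟨rfl, rfl⟩ | ⟨rfl, rfl⟩) |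
        (⟨rfl, rfl⟩ | ⟨rfl, rfl⟩) | (⟨rfl, rfl⟩ | ⟨rfl, rfl⟩) <;>
      simp only [sh, Pi.add_apply, sg_same, sg_ne h1, sg_ne h2, sg_ne h3, sg_ne h4, sg_ne h5,
        sg_ne h6, sg_ne h1.symm, sg_ne h2.symm, sg_ne h3.symm, sg_ne h4.symm, sg_ne h5.symm,
        sg_ne h6.symm] at a1 a2 a3 ⊢ <;> omega
  · exact ⟨hg.c, sg_ne h1 _, sg_ne h5.symm _⟩

theorem XA {g2 g3 : Fin 3} (hg : G3 g2 g3) {x y z t : Fin 4} (hD : D4 x y z t)
    (hX : ∀ l p q, T.E (inl l) p q → p.1 = g2 → 0 < p.2 t)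
    {e p0 c q0 b r a : ℕ} {m' : Mon} {l1 l2 l3 l4}
    (e1 : T.E l1 (0, sg t e) (g2, sg x p0)) (e2 : T.E l2 (0, sg x a) (g2, sg y q0))
    (e3 : T.E l3 (0, sg y b) (g2, sg z r)) (e4 : T.E l4 (0, sg z c) (g3, m')) (hm : m' t = 0)
    (hA : ∀ l p q, T.E (inr l) p q → Pr p q (0, sg t e) (g2, sg x p0) ∨
      Pr p q (0, sg x a) (g2, sg y q0) ∨ Pr p q (0, sg y b) (g2, sg z r) ∨
      Pr p q (0, sg z c) (g3, m')) : False := by
  have he := T.sgpos e1
  obtain ⟨p', rfl⟩ : ∃ p', p0 = p' + 1 := ⟨p0 - 1, by have := T.sgpos (T.symm e1); omega⟩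
  obtain ⟨a', rfl⟩ : ∃ a', a = a' + 1 := ⟨a - 1, by have := T.sgpos e2; omega⟩
  obtain ⟨b', rfl⟩ : ∃ b', b = b' + 1 := ⟨b - 1, by have := T.sgpos e3; omega⟩
  obtain ⟨c', rfl⟩ : ∃ c', c = c' + 1 := ⟨c - 1, by have := T.sgpos e4; omega⟩
  have d1 := T.deq e1
  have d2 := T.deq e2
  have d3 := T.deq e3
  have d4 := T.deq e4
  have hz : m' z = 0 := by
    have := T.disj e4 z
    simpa using this
  simp only [dg_mk, wt_sg] at d1 d2 d3 d4
  rw [wt4 hD, hz, hm] at d4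
  push_cast at d1 d2 d3 d4
  have b1 := hg.a
  have b2 := hg.b
  have b3 := hg.c
  refine T.socle t (fun w => w.2 t = 0 ∧ ∃ κ : ℤ,
      (w.1 = g2 ∧ (w.2 x : ℤ) + κ * (a' + 1) = p' ∧ (w.2 y : ℤ) + 1 = (κ + 1) * (b' + 1 + q0) ∧
        (w.2 z : ℤ) + κ * r = c') ∨
      (w.1 = 0 ∧ (w.2 x : ℤ) + κ * (a' + 1) = p' + a' + 1 ∧
        (w.2 y : ℤ) + q0 + 1 = (κ + 1) * (b' + 1 + q0) ∧ (w.2 z : ℤ) + κ * r = c'))
    (g2, mon x y z p' (b' + q0) c' 0) g3 ?_ ?_ (fun w hw => hw.1) ?_ ?_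
  · obtain ⟨h1, h2, h3, h4, h5, h6⟩ := hD
    rintro (l | l) p q m hpq ⟨a1, κ, a2⟩
    · exfalso
      simp only [sh, Pi.add_apply] at a1 a2
      rcases a2 with a2 | a2
      · have := hX _ _ _ hpq a2.1
        omega
      · exact T.bne0 hpq a2.1
    · have hκ : 0 ≤ κ := by
        have : 0 < (κ + 1) * ((b' : ℤ) + 1 + q0) := by
          rcases a2 with ⟨-, -, a3, -⟩ | ⟨-, -, a3, -⟩ <;> rw [← a3] <;> positivity
        by_contra hc
        have h7 : (κ + 1) * ((b' : ℤ) + 1 + q0) ≤ 0 :=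
          mul_nonpos_of_nonpos_of_nonneg (by omega) (by positivity)
        omega
      have k1 : 0 ≤ κ * ((a' : ℤ) + 1) := by positivity
      have k2 : 0 ≤ κ * (r : ℤ) := by positivity
      rcases hA l p q hpq with (⟨rfl, rfl⟩ | ⟨rfl, rfl⟩) | (⟨rfl, rfl⟩ | ⟨rfl, rfl⟩) |
        (⟨rfl, rfl⟩ | ⟨rfl, rfl⟩) | (⟨rfl, rfl⟩ | ⟨rfl, rfl⟩) <;>
      simp only [sh, Pi.add_apply, sg_same, sg_ne h1, sg_ne h2, sg_ne h3, sg_ne h4, sg_ne h5,
        sg_ne h6, sg_ne h1.symm, sg_ne h2.symm, sg_ne h3.symm, sg_ne h4.symm, sg_ne h5.symm,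
        sg_ne h6.symm, b1, b1.symm, b2, b3.symm, false_and, true_and, or_false, false_or,
        zero_add, Nat.cast_add, Nat.cast_one] at a1 a2 ⊢
      · omega
      · omega
      · exact ⟨a1, κ, by linarith [a2.1], by linarith [a2.2.1], a2.2.2⟩
      · exact ⟨a1, κ, by linarith [a2.1], by linarith [a2.2.1], a2.2.2⟩
      · exact ⟨a1, κ - 1, by linarith [a2.1], by linarith [a2.2.1], by linarith [a2.2.2]⟩
      · exact ⟨a1, κ + 1, by linarith [a2.1], by linarith [a2.2.1], by linarith [a2.2.2]⟩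
      · omega
  · refine ⟨hD.mkt _ _ _ _, 0, Or.inl ⟨rfl, ?_, ?_, ?_⟩⟩
    · simp [hD.mkx]
    · simp only [hD.mky]
      push_cast
      ring
    · simp [hD.mkz]
  · rintro w ⟨-, κ, ⟨h, -⟩ | ⟨h, -⟩⟩ <;> rw [h]
    · exact b3
    · exact b2.symm
  · intro j
    rcases hD.all j with rfl | rfl | rfl | rfl
    · refine ⟨(0, mon j y z 0 (b' + q0) c' e), ?_, by simpa [hD.mkt] using he⟩
      simp only [hD.dgmk]
      push_cast
      linarith
    · refine ⟨(0, mon x j z a' 0 (r + c') e), ?_, by simpa [hD.mkt] using he⟩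
      simp only [hD.dgmk]
      push_cast
      linarith
    · obtain ⟨k, hk⟩ := T.pos (T.symm e4)
      simp only at hk
      rcases hD.all k with rfl | rfl | rfl | rfl
      · obtain ⟨i, hi⟩ : ∃ i, m' k = i + 1 := ⟨m' k - 1, by omega⟩
        refine ⟨(g3, mon k y j i (b' + m' y + q0) 0 e), ?_, by simpa [hD.mkt] using he⟩
        rw [hi] at d4
        simp only [hD.dgmk]
        push_cast at d4 ⊢
        linarith
      · obtain ⟨i, hi⟩ : ∃ i, m' k = i + 1 := ⟨m' k - 1, by omega⟩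
        refine ⟨(g3, mon x k j (a' + m' x) i r e), ?_, by simpa [hD.mkt] using he⟩
        rw [hi] at d4
        simp only [hD.dgmk]
        push_cast at d4 ⊢
        linarith
      · omega
      · omega
    · refine ⟨(g2, mon x y z p' (b' + q0) c' 1), ?_, by simp [hD.mkt]⟩
      simp only [hD.dgmk]
      push_cast
      linarith

theorem XM {g2 g3 : Fin 3} (hg : G3 g2 g3) {x y z t : Fin 4} (hD : D4 x y z t)
    (hX : ∀ l p q, T.E (inl l) p q → p.1 = g2 → 0 < p.2 t)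
    {n : Fin 4 → ℕ} {o : Fin 4 → Vtx} {τ : Fin 4 → Fin 4}
    (h1 : ∀ j, T.E (inr (τ j)) (0, sg j (n j)) (o j))
    (h2 : ∀ a p q, T.E (inr a) p q → ∃ j, Pr p q (0, sg j (n j)) (o j))
    {σy σz σ4 : Fin 4} (hσ : D4 t σy σz σ4) {p0 q0 r : ℕ} {m' : Mon} (hm : m' t = 0)
    (ot : o t = (g2, sg x p0)) (oy : o σy = (g2, sg y q0)) (oz : o σz = (g2, sg z r))
    (o4 : o σ4 = (g3, m')) : False := by
  have hy : σy ≠ y := by
    rintro rfl
    have a1 := T.disj (h1 σy) σy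
    have a2 := T.sgpos (h1 σy)
    have a3 := T.sgpos (T.symm (oy ▸ h1 σy))
    rw [oy] at a1
    simp only [sg_same] at a1
    omega
  have hz : σz ≠ z := by
    rintro rfl
    have a1 := T.disj (h1 σz) σz
    have a2 := T.sgpos (h1 σz)
    have a3 := T.sgpos (T.symm (oz ▸ h1 σz))
    rw [oz] at a1
    simp only [sg_same] at a1
    omega
  have hcase : (σy = x ∧ σz = y ∧ σ4 = z) ∨ (σy = z ∧ σz = x ∧ σ4 = y) ∨
      (σy = z ∧ σz = y ∧ σ4 = x) := by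
    obtain ⟨b1, b2, b3, b4, b5, b6⟩ := hσ
    rcases hD.all σy with rfl | rfl | rfl | rfl <;> rcases hD.all σz with rfl | rfl | rfl | rfl <;>
      rcases hD.all σ4 with rfl | rfl | rfl | rfl <;> simp_all
  rcases hcase with ⟨rfl, rfl, rfl⟩ | ⟨rfl, rfl, rfl⟩ | ⟨rfl, rfl, rfl⟩
  · refine T.XA hg hD hX (ot ▸ h1 t) (oy ▸ h1 σy) (oz ▸ h1 σz) (o4 ▸ h1 σ4) hm ?_
    intro l p q hpq
    obtain ⟨j, hj⟩ := h2 l p q hpq
    rcases hσ.all j with rfl | rfl | rfl | rfl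
    · exact Or.inl (ot ▸ hj)
    · exact Or.inr (Or.inl (oy ▸ hj))
    · exact Or.inr (Or.inr (Or.inl (oz ▸ hj)))
    · exact Or.inr (Or.inr (Or.inr (o4 ▸ hj)))
  · refine T.XA hg ⟨hD.xz, hD.xy, hD.xt, hD.yz.symm, hD.zt, hD.yt⟩ hX
      (ot ▸ h1 t) (oz ▸ h1 σz) (oy ▸ h1 σy) (o4 ▸ h1 σ4) hm ?_
    intro l p q hpq
    obtain ⟨j, hj⟩ := h2 l p q hpq
    rcases hσ.all j with rfl | rfl | rfl | rfl
    · exact Or.inl (ot ▸ hj)
    · exact Or.inr (Or.inr (Or.inl (oy ▸ hj)))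
    · exact Or.inr (Or.inl (oz ▸ hj))
    · exact Or.inr (Or.inr (Or.inr (o4 ▸ hj)))
  · refine T.XB hg hD hX (c := n σy) (q0 := q0) (b := n σz) (r := r) (m' := m') (T.sgpos (h1 t))
      (T.sgpos (T.symm (ot ▸ h1 t))) (T.sgpos (h1 σ4)) ?_
    intro l p q hpq
    obtain ⟨j, hj⟩ := h2 l p q hpq
    rcases hσ.all j with rfl | rfl | rfl | rfl
    · exact Or.inl (ot ▸ hj)
    · exact Or.inr (Or.inl (oy ▸ hj))
    · exact Or.inr (Or.inr (Or.inl (oz ▸ hj)))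
    · exact Or.inr (Or.inr (Or.inr (o4 ▸ hj)))

/-- four above edges with pairwise different endpoints outside generator 0 -/
theorem four {p1 p2 p3 p4 q1 q2 q3 q4 : Vtx} {a1 a2 a3 a4 : Fin 4}
    (e1 : T.E (inr a1) p1 q1) (e2 : T.E (inr a2) p2 q2) (e3 : T.E (inr a3) p3 q3)
    (e4 : T.E (inr a4) p4 q4) (n1 : p1.1 ≠ 0) (n2 : p2.1 ≠ 0) (n3 : p3.1 ≠ 0) (n4 : p4.1 ≠ 0)
    (d12 : p1 ≠ p2) (d13 : p1 ≠ p3) (d14 : p1 ≠ p4) (d23 : p2 ≠ p3) (d24 : p2 ≠ p4)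
    (d34 : p3 ≠ p4) :
    ∃ (n : Fin 4 → ℕ) (o : Fin 4 → Vtx) (τ : Fin 4 → Fin 4) (w1 w2 w3 w4 : Fin 4),
      (∀ j, T.E (inr (τ j)) (0, sg j (n j)) (o j)) ∧
      (∀ a p q, T.E (inr a) p q → ∃ j, Pr p q (0, sg j (n j)) (o j)) ∧
      D4 w1 w2 w3 w4 ∧ o w1 = p1 ∧ o w2 = p2 ∧ o w3 = p3 ∧ o w4 = p4 ∧
      q4 = (0, sg w4 (n w4)) := by
  have hne : ∀ {a a' p q p' q'}, T.E (inr a) p q → T.E (inr a') p' q' → p.1 ≠ 0 → p'.1 ≠ 0 →
      p ≠ p' → a ≠ a' := by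
    intro a a' p q p' q' he he' hp hp' hpp
    rintro rfl
    rcases T.uniq he he' with ⟨h, -⟩ | ⟨h, -⟩
    · exact hpp h.symm
    · exact hp' (h ▸ T.above0' he hp)
  have hD : D4 a1 a2 a3 a4 := ⟨hne e1 e2 n1 n2 d12, hne e1 e3 n1 n3 d13, hne e1 e4 n1 n4 d14,
    hne e2 e3 n2 n3 d23, hne e2 e4 n2 n4 d24, hne e3 e4 n3 n4 d34⟩
  have h11 : ∀ a m m', ¬ T.E (inr a) (0, m) (0, m') := by
    intro a m m' he
    have : ∀ {p q}, T.E (inr a) p q → p.1 ≠ 0 → False := by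
      intro p q hpq hp
      rcases T.uniq he hpq with ⟨h, -⟩ | ⟨h, -⟩ <;> exact hp (by rw [h])
    rcases hD.all a with rfl | rfl | rfl | rfl
    exacts [this e1 n1, this e2 n2, this e3 n3, this e4 n4]
  obtain ⟨n, o, τ, h1, h2⟩ := T.aboveStruct h11
  have h3 : ∀ {a p q}, T.E (inr a) p q → p.1 ≠ 0 → ∃ w, o w = p ∧ q = (0, sg w (n w)) := by
    intro a p q hpq hp
    obtain ⟨j, ⟨h, -⟩ | ⟨h, h'⟩⟩ := h2 a p q hpq
    · exact absurd (by rw [h]) hp
    · exact ⟨j, h.symm, h'⟩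
  obtain ⟨w1, o1, -⟩ := h3 e1 n1
  obtain ⟨w2, o2, -⟩ := h3 e2 n2
  obtain ⟨w3, o3, -⟩ := h3 e3 n3
  obtain ⟨w4, o4, o4'⟩ := h3 e4 n4
  refine ⟨n, o, τ, w1, w2, w3, w4, h1, h2, ?_, o1, o2, o3, o4, o4'⟩
  subst o1 o2 o3 o4
  constructor <;> rintro rfl <;> contradiction

theorem sgne {l i j j' n n' q} (h : T.E l (i, sg j n) q) (hj : j ≠ j') (i' : Fin 3) :
    ((i, sg j n) : Vtx) ≠ (i', sg j' n') := by
  intro h1
  have h2 := congrFun (congrArg Prod.snd h1) j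
  have := T.sgpos h
  simp only [sg_same, sg_ne hj] at h2
  omega

theorem caseX {g2 g3 : Fin 3} (hg : G3 g2 g3) (t : Fin 4)
    (hX : ∀ l p q, T.E (inl l) p q → p.1 = g2 → 0 < p.2 t) : False := by
  obtain ⟨x, y, z, hD⟩ := exD4 t
  have h1 : ∀ j, j ≠ t → ∃ a n q, T.E (inr a) (g2, sg j n) q := by
    intro j hj
    obtain ⟨l | l, n, q, he⟩ := T.pure g2 j
    · have := hX _ _ _ he rfl
      simp [sg_ne hj.symm] at this
    · exact ⟨l, n, q, he⟩
  obtain ⟨ax, px, qx, ex⟩ := h1 x hD.xt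
  obtain ⟨ay, py, qy, ey⟩ := h1 y hD.yt
  obtain ⟨az, pz, qz, ez⟩ := h1 z hD.zt
  obtain ⟨l, ⟨i, m'⟩, q4, e4, a1, a2, a3, a4⟩ := T.topedge t g3
  simp only at a1 a3
  subst a1
  rcases l with l | a4'
  · have := T.bne0 (T.symm e4)
    have := hX _ _ _ (T.symm e4) (by have := hg.all q4.1; tauto)
    omega
  have hc : ∀ m m', ((g2, m) : Vtx) ≠ (i, m') := fun m m' h => hg.c (congrArg Prod.fst h)
  obtain ⟨n, o, τ, w1, w2, w3, w4, k1, k2, hw, o1, o2, o3, o4, o4'⟩ :=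
    T.four ex ey ez e4 hg.a hg.a hg.a hg.b (T.sgne ex hD.xy _) (T.sgne ex hD.xz _) (hc _ _)
      (T.sgne ey hD.yz _) (hc _ _) (hc _ _)
  rcases hw.all t with rfl | rfl | rfl | rfl
  · exact T.XM hg hD hX k1 k2 hw a3 o1 o2 o3 o4
  · exact T.XM hg ⟨hD.xy.symm, hD.yz, hD.yt, hD.xz, hD.xt, hD.zt⟩ hX k1 k2
      ⟨hw.xy.symm, hw.yz, hw.yt, hw.xz, hw.xt, hw.zt⟩ a3 o2 o1 o3 o4
  · exact T.XM hg ⟨hD.xz.symm, hD.yz.symm, hD.zt, hD.xy, hD.xt, hD.yt⟩ hX k1 k2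
      ⟨hw.xz.symm, hw.yz.symm, hw.zt, hw.xy, hw.xt, hw.yt⟩ a3 o3 o1 o2 o4
  · have := T.sgpos (k1 t)
    rw [o4'] at a4
    simp only [sg_same] at a4
    omega

end Sys

end Pool.Agent.P.MP_1f474f_ag
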