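import Pool.Agent.P.MP_1f474f_ag.Comb2

set_option linter.unusedSimpArgs false

namespace Pool.Agent.P.MP_1f474f_ag

open Sum

def NF (T : Sys) (v : Fin 4 → ℤ) : Prop :=
  ∀ l p q, T.E (inl l) p q → p.1 ≠ q.1 → ∃ J : Vtx → Prop, J p ∧ ¬ J q ∧ Shr T.s T.d J ∧
    (∀ l' p' q', l' ≠ inl l → T.E l' p' q' → J p' → J q') ∧
    ∀ i, dg T.s T.d (i, vp v) = dg T.s T.d (i, vn v) → dg T.s T.d (i, vp v) < T.d 0 →
      (J (i, vp v) ↔ J (i, vn v))

structure YH (T : Sys) (g2 g3 : Fin 3) (v u : Fin 4 → ℤ) : Prop where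
  hg : G3 g2 g3
  same : ∀ i m m', dg T.s T.d (i, m) = dg T.s T.d (i, m') → dg T.s T.d (i, m) < T.d 0 →
    ∃ κ : ℤ, ∀ j, (m j : ℤ) - m' j = κ * v j
  cross : ∀ l m m', T.E (inl l) (g2, m) (g3, m') →
    ∃ κ : ℤ, ∀ j, (m' j : ℤ) - m j = u j + κ * v j
  nf : NF T v

theorem YH.swap {T g2 g3 v u} (h : YH T g2 g3 v u) : YH T g3 g2 v (-u) where
  hg := h.hg.swap
  same := h.same
  cross := fun l m m' he => by
    obtain ⟨κ, hκ⟩ := h.cross l m' m (T.symm he)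
    exact ⟨-κ, fun j => by have := hκ j; simp only [Pi.neg_apply]; linarith⟩
  nf := h.nf

theorem YH.neg {T g2 g3 v u} (h : YH T g2 g3 v u) : YH T g2 g3 (-v) u where
  hg := h.hg
  same := fun i m m' h1 h2 => by
    obtain ⟨κ, hκ⟩ := h.same i m m' h1 h2
    exact ⟨-κ, fun j => by have := hκ j; simp only [Pi.neg_apply]; linarith⟩
  cross := fun l m m' he => by
    obtain ⟨κ, hκ⟩ := h.cross l m m' he
    exact ⟨-κ, fun j => by have := hκ j; simp only [Pi.neg_apply]; linarith⟩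
  nf := fun l p q he hne => by
    obtain ⟨J, h1, h2, h3, h4, h5⟩ := h.nf l p q he hne
    refine ⟨J, h1, h2, h3, h4, fun i => ?_⟩
    rw [vp_neg, vn_neg]
    intro a1 a2
    exact (h5 i a1.symm (a1 ▸ a2)).symm

theorem YH.sep {T g2 g3 v u} (h : YH T g2 g3 v u) {l l' : Fin 4} {i i' : Fin 3} {a b a' b' : Mon}
    (e : T.E (inl l) (i, a) (i', b)) (e' : T.E (inl l') (i, a') (i', b')) (hi : i ≠ i')
    (hl : l ≠ l') : ∃ j, a' j < a j := by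
  by_contra hc
  push Not at hc
  obtain ⟨J, h1, h2, h3, h4, h5⟩ := h.nf l' _ _ e' hi
  have ha : a' = a + (a' - a) := by
    funext j
    have := hc j
    simp only [Pi.add_apply, Pi.sub_apply]
    omega
  have hd : dg T.s T.d (i, a') = dg T.s T.d (i', b + (a' - a)) := by
    have := T.deq e
    conv_lhs => rw [ha]
    simp only [dg_mk, wt_add] at this ⊢
    omega
  have hJ : J (i', b + (a' - a)) := by
    by_cases h0 : a' - a = 0
    · rw [h0, add_zero] at ha ⊢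
      subst ha
      exact h4 _ _ _ (by simpa using hl) e h1
    · obtain ⟨j, hj⟩ := exists_pos h0
      refine h3 _ _ j hd ?_ ?_ h1
      · simp only [Pi.sub_apply] at hj ⊢
        omega
      · simp only [Pi.add_apply]
        omega
  have hd2 : dg T.s T.d (i', b + (a' - a)) = dg T.s T.d (i', b') := hd.symm.trans (T.deq e')
  have hb : dg T.s T.d (i', b + (a' - a)) < T.d 0 := hd ▸ T.below e'
  obtain ⟨κ, hκ⟩ := h.same _ _ _ hd2 hb
  rcases T.ab v J h3 i' _ _ κ hd2 hJ h2 hκ with ⟨a1, a2⟩ | ⟨a1, a2⟩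
  · rw [a1] at hJ hd2 hb
    rw [a2] at h2 hd2
    exact h2 ((h5 i' hd2 hb).1 hJ)
  · rw [a1] at hJ hd2 hb
    rw [a2] at h2 hd2
    exact h2 ((h5 i' hd2.symm (hd2 ▸ hb)).2 hJ)

structure YS (T : Sys) (g2 g3 : Fin 3) (v u : Fin 4 → ℤ) where
  H : YH T g2 g3 v u
  l1 : Fin 4
  l2 : Fin 4
  c2 : Fin 4 → Mon
  c3 : Fin 4 → Mon
  κ : Fin 4 → ℤ
  cls : ∀ l, T.E (inl l) (g2, vp v) (g2, vn v) ∨ T.E (inl l) (g3, vp v) (g3, vn v) ∨
    T.E (inl l) (g2, c2 l) (g3, c3 l)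
  hu : ∀ l, T.E (inl l) (g2, c2 l) (g3, c3 l) → ∀ j, (c3 l j : ℤ) - c2 l j = u j + κ l * v j
  e1 : T.E (inl l1) (g2, c2 l1) (g3, c3 l1)
  e2 : T.E (inl l2) (g2, c2 l2) (g3, c3 l2)
  lt : κ l1 < κ l2
  mid : ∀ l, T.E (inl l) (g2, c2 l) (g3, c3 l) → l = l1 ∨ l = l2 ∨ (κ l1 < κ l ∧ κ l < κ l2)

def YS.swap {T g2 g3 v u} (Y : YS T g2 g3 v u) : YS T g3 g2 v (-u) where
  H := Y.H.swap
  l1 := Y.l2
  l2 := Y.l1
  c2 := Y.c3
  c3 := Y.c2
  κ := fun l => -Y.κ l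
  cls := fun l => by
    rcases Y.cls l with h | h | h
    · exact Or.inr (Or.inl h)
    · exact Or.inl h
    · exact Or.inr (Or.inr (T.symm h))
  hu := fun l h j => by
    have := Y.hu l (T.symm h) j
    simp only [Pi.neg_apply]
    linarith
  e1 := T.symm Y.e2
  e2 := T.symm Y.e1
  lt := by have := Y.lt; omega
  mid := fun l h => by
    rcases Y.mid l (T.symm h) with h | h | h
    · exact Or.inr (Or.inl h)
    · exact Or.inl h
    · exact Or.inr (Or.inr (by omega))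

theorem pig2 (A B : Fin 4 → Prop) (hA : ∀ l l', A l → A l' → l = l')
    (hB : ∀ l l', B l → B l' → l = l') : ∃ y z, y ≠ z ∧ ¬ A y ∧ ¬ B y ∧ ¬ A z ∧ ¬ B z := by
  classical
  have h1 : (Finset.univ.filter A).card ≤ 1 :=
    Finset.card_le_one.2 fun a ha b hb => hA a b (by simpa using ha) (by simpa using hb)
  have h2 : (Finset.univ.filter B).card ≤ 1 :=
    Finset.card_le_one.2 fun a ha b hb => hB a b (by simpa using ha) (by simpa using hb)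
  have h3 := Finset.card_union_le (Finset.univ.filter A) (Finset.univ.filter B)
  have h4 := Finset.card_compl (Finset.univ.filter A ∪ Finset.univ.filter B)
  have h5 : 1 < (Finset.univ.filter A ∪ Finset.univ.filter B)ᶜ.card := by
    rw [h4, Fintype.card_fin]
    omega
  obtain ⟨y, hy, z, hz, hyz⟩ := Finset.one_lt_card.1 h5
  simp only [Finset.mem_compl, Finset.mem_union, Finset.mem_filter, Finset.mem_univ, true_and,
    not_or] at hy hz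
  exact ⟨y, z, hyz, hy.1, hy.2, hz.1, hz.2⟩

theorem compl2 {y z : Fin 4} (h : y ≠ z) : ∃ x t, D4 x y z t := by
  have : ∀ y z : Fin 4, y ≠ z → ∃ x t : Fin 4,
      x ≠ y ∧ x ≠ z ∧ x ≠ t ∧ y ≠ z ∧ y ≠ t ∧ z ≠ t := by decide
  obtain ⟨x, t, h1, h2, h3, h4, h5, h6⟩ := this y z h
  exact ⟨x, t, h1, h2, h3, h4, h5, h6⟩

theorem YH.struct {T g2 g3 v u} (h : YH T g2 g3 v u) : Nonempty (YS T g2 g3 v u) := by
  classical
  have hg := h.hg
  have cls : ∀ l, ∃ (c2 c3 : Mon) (κ : ℤ), (T.E (inl l) (g2, vp v) (g2, vn v) ∨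
      T.E (inl l) (g3, vp v) (g3, vn v) ∨ T.E (inl l) (g2, c2) (g3, c3)) ∧
      (T.E (inl l) (g2, c2) (g3, c3) → ∀ j, (c3 j : ℤ) - c2 j = u j + κ * v j) := by
    intro l
    by_cases hC : ∃ m m', T.E (inl l) (g2, m) (g3, m')
    · obtain ⟨m, m', he⟩ := hC
      obtain ⟨κ, hκ⟩ := h.cross l m m' he
      exact ⟨m, m', κ, Or.inr (Or.inr he), fun _ => hκ⟩
    · refine ⟨0, 0, 0, ?_, fun he => absurd ⟨_, _, he⟩ hC⟩
      obtain ⟨⟨i, m⟩, ⟨i', m'⟩, he⟩ := T.ex (inl l)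
      have a1 := T.bne0 he
      have a2 := T.bne0 (T.symm he)
      simp only at a1 a2
      rcases hg.all i with rfl | rfl | rfl
      · exact absurd rfl a1
      · rcases hg.all i' with rfl | rfl | rfl
        · exact absurd rfl a2
        · obtain ⟨κ, hκ⟩ := h.same _ _ _ (T.deq he) (T.below he)
          exact Or.inl (T.abE v he κ hκ)
        · exact absurd ⟨_, _, he⟩ hC
      · rcases hg.all i' with rfl | rfl | rfl
        · exact absurd rfl a2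
        · exact absurd ⟨_, _, T.symm he⟩ hC
        · obtain ⟨κ, hκ⟩ := h.same _ _ _ (T.deq he) (T.below he)
          exact Or.inr (Or.inl (T.abE v he κ hκ))
  choose c2 c3 κ cls hu using cls
  have inj : ∀ l l', T.E (inl l) (g2, c2 l) (g3, c3 l) → T.E (inl l') (g2, c2 l') (g3, c3 l') →
      κ l = κ l' → l = l' := by
    intro l l' e e' hκ
    have a1 : c2 l = c2 l' ∧ c3 l = c3 l' := by
      constructor <;> funext j <;> have b1 := hu l e j <;> have b2 := hu l' e' j <;>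
        have b3 := T.disj e j <;> have b4 := T.disj e' j <;> rw [hκ] at b1 <;>
        simp only at b3 b4 <;> omega
    rw [← a1.1, ← a1.2] at e'
    exact inl_injective (T.par e e')
  obtain ⟨y, z, hyz, y1, y2, z1, z2⟩ := pig2 (fun l => T.E (inl l) (g2, vp v) (g2, vn v))
    (fun l => T.E (inl l) (g3, vp v) (g3, vn v))
    (fun l l' a b => inl_injective (T.par a b)) (fun l l' a b => inl_injective (T.par a b))
  have ey : T.E (inl y) (g2, c2 y) (g3, c3 y) := by have := cls y; tauto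
  have ez : T.E (inl z) (g2, c2 z) (g3, c3 z) := by have := cls z; tauto
  have hne : (Finset.univ.filter fun l => T.E (inl l) (g2, c2 l) (g3, c3 l)).Nonempty :=
    ⟨y, by simpa using ey⟩
  obtain ⟨l1, e1, hl1⟩ := Finset.exists_min_image _ κ hne
  obtain ⟨l2, e2, hl2⟩ := Finset.exists_max_image _ κ hne
  simp only [Finset.mem_filter, Finset.mem_univ, true_and] at e1 e2 hl1 hl2
  refine ⟨⟨h, l1, l2, c2, c3, κ, cls, hu, e1, e2, ?_, ?_⟩⟩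
  · have b1 := hl1 y ey
    have b2 := hl1 z ez
    have b3 := hl2 y ey
    have b4 := hl2 z ez
    have b5 : κ y ≠ κ z := fun hh => hyz (inj y z ey ez hh)
    omega
  · intro l e
    by_cases b1 : κ l = κ l1
    · exact Or.inl (inj _ _ e e1 b1)
    by_cases b2 : κ l = κ l2
    · exact Or.inr (Or.inl (inj _ _ e e2 b2))
    have b3 := hl1 l e
    have b4 := hl2 l e
    exact Or.inr (Or.inr (by omega))

namespace YS

variable {T : Sys} {g2 g3 : Fin 3} {v u : Fin 4 → ℤ} (Y : YS T g2 g3 v u)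

theorem sign2 {l l' : Fin 4} (e : T.E (inl l) (g2, Y.c2 l) (g3, Y.c3 l))
    (e' : T.E (inl l') (g2, Y.c2 l') (g3, Y.c3 l')) (hκ : Y.κ l < Y.κ l') :
    (∃ j, 0 < v j ∧ 0 < Y.c2 l j) ∧ (∃ j, v j < 0 ∧ 0 < Y.c2 l' j) := by
  have hl : l ≠ l' := by
    rintro rfl
    omega
  constructor
  · obtain ⟨j, hj⟩ := Y.H.sep e e' Y.H.hg.c hl
    refine ⟨j, ?_, by omega⟩
    have b1 := Y.hu l e j
    have b2 := Y.hu l' e' j
    have b3 := T.disj e j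
    simp only at b3
    by_contra hc
    have : (Y.κ l' - Y.κ l) * v j ≤ 0 := mul_nonpos_of_nonneg_of_nonpos (by omega) (by omega)
    have b4 : (Y.c3 l j : ℤ) = 0 := by omega
    have b5 : (0 : ℤ) ≤ Y.c3 l' j := by positivity
    have b6 : (Y.c2 l' j : ℤ) < Y.c2 l j := by omega
    nlinarith
  · obtain ⟨j, hj⟩ := Y.H.sep e' e Y.H.hg.c hl.symm
    refine ⟨j, ?_, by omega⟩
    have b1 := Y.hu l e j
    have b2 := Y.hu l' e' j
    have b3 := T.disj e' j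
    simp only at b3
    by_contra hc
    have : 0 ≤ (Y.κ l' - Y.κ l) * v j := mul_nonneg (by omega) (by omega)
    have b4 : (Y.c3 l' j : ℤ) = 0 := by omega
    have b5 : (0 : ℤ) ≤ Y.c3 l j := by positivity
    have b6 : (Y.c2 l j : ℤ) < Y.c2 l' j := by omega
    nlinarith

theorem sign3 {l l' : Fin 4} (e : T.E (inl l) (g2, Y.c2 l) (g3, Y.c3 l))
    (e' : T.E (inl l') (g2, Y.c2 l') (g3, Y.c3 l')) (hκ : Y.κ l < Y.κ l') :
    (∃ j, 0 < v j ∧ 0 < Y.c3 l' j) ∧ (∃ j, v j < 0 ∧ 0 < Y.c3 l j) :=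
  Y.swap.sign2 (l := l') (l' := l) (T.symm e') (T.symm e) (by simp only [swap]; omega)

def Pp (j : Fin 4) : Prop :=
  0 < v j ∧ ((∀ j', j' ≠ j → Y.c2 Y.l1 j' = 0) ∨ ∀ j', j' ≠ j → v j' ≤ 0)
def Pm (j : Fin 4) : Prop :=
  v j < 0 ∧ ((∀ j', j' ≠ j → Y.c2 Y.l2 j' = 0) ∨ ∀ j', j' ≠ j → 0 ≤ v j')

theorem Pp_uniq (j j' : Fin 4) (h : Y.Pp j) (h' : Y.Pp j') : j = j' := by
  by_contra hc
  obtain ⟨a1, a2 | a2⟩ := h
  · obtain ⟨a3, a4 | a4⟩ := h'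
    · obtain ⟨⟨k, -, hk⟩, -⟩ := Y.sign2 Y.e1 Y.e2 Y.lt
      by_cases hkj : k = j
      · have := a4 k (hkj ▸ hc)
        omega
      · have := a2 k hkj
        omega
    · have := a4 j hc
      omega
  · have := a2 j' (Ne.symm hc)
    have := h'.1
    omega

theorem Pm_uniq (j j' : Fin 4) (h : Y.Pm j) (h' : Y.Pm j') : j = j' := by
  by_contra hc
  obtain ⟨a1, a2 | a2⟩ := h
  · obtain ⟨a3, a4 | a4⟩ := h'
    · obtain ⟨-, k, -, hk⟩ := Y.sign2 Y.e1 Y.e2 Y.lt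
      by_cases hkj : k = j
      · have := a4 k (hkj ▸ hc)
        omega
      · have := a2 k hkj
        omega
    · have := a4 j hc
      omega
  · have := a2 j' (Ne.symm hc)
    have := h'.1
    omega

/-- endpoints on generator g2 of below edges -/
theorem end2 {l : Fin 4} {m : Mon} {q : Vtx} (e : T.E (inl l) (g2, m) q) :
    (T.E (inl l) (g2, vp v) (g2, vn v) ∧ ((m = vp v ∧ q = (g2, vn v)) ∨ (m = vn v ∧ q = (g2, vp v)))) ∨
      (T.E (inl l) (g2, Y.c2 l) (g3, Y.c3 l) ∧ m = Y.c2 l ∧ q = (g3, Y.c3 l)) := by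
  have hc := Y.H.hg.c
  rcases Y.cls l with h | h | h
  · left
    refine ⟨h, ?_⟩
    rcases T.uniq h e with ⟨a, b⟩ | ⟨a, b⟩
    · exact Or.inl ⟨congrArg Prod.snd a, b⟩
    · exact Or.inr ⟨congrArg Prod.snd a, b⟩
  · exfalso
    rcases T.uniq h e with ⟨a, b⟩ | ⟨a, b⟩ <;> exact hc (congrArg Prod.fst a)
  · right
    refine ⟨h, ?_⟩
    rcases T.uniq h e with ⟨a, b⟩ | ⟨a, b⟩
    · exact ⟨congrArg Prod.snd a, b⟩
    · exact absurd (congrArg Prod.fst a) hc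

theorem cov {l j n q} (e : T.E (inl l) (g2, sg j n) q) : Y.Pp j ∨ Y.Pm j := by
  have hn := T.sgpos e
  rcases Y.end2 e with ⟨-, ⟨h, -⟩ | ⟨h, -⟩⟩ | ⟨e', h, -⟩
  · left
    refine ⟨?_, Or.inr fun j' hj' => ?_⟩
    · have := congrFun h j
      simp only [sg_same, vp] at this
      omega
    · have := congrFun h j'
      simp only [sg_ne hj', vp] at this
      omega
  · right
    refine ⟨?_, Or.inr fun j' hj' => ?_⟩
    · have := congrFun h j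
      simp only [sg_same, vn] at this
      omega
    · have := congrFun h j'
      simp only [sg_ne hj', vn] at this
      omega
  · have hp : ∀ k, 0 < Y.c2 l k → k = j := by
      intro k hk
      by_contra hc
      rw [← h, sg_ne hc] at hk
      omega
    rcases Y.mid l e' with rfl | rfl | ⟨a1, a2⟩
    · obtain ⟨⟨k, k1, k2⟩, -⟩ := Y.sign2 Y.e1 Y.e2 Y.lt
      rw [hp k k2] at k1
      exact Or.inl ⟨k1, Or.inl fun j' hj' => by rw [← h, sg_ne hj']⟩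
    · obtain ⟨-, k, k1, k2⟩ := Y.sign2 Y.e1 Y.e2 Y.lt
      rw [hp k k2] at k1
      exact Or.inr ⟨k1, Or.inl fun j' hj' => by rw [← h, sg_ne hj']⟩
    · obtain ⟨⟨k, k1, k2⟩, -⟩ := Y.sign2 e' Y.e2 a2
      obtain ⟨-, k', k1', k2'⟩ := Y.sign2 Y.e1 e' a1
      rw [hp k k2] at k1
      rw [hp k' k2'] at k1'
      omega

include Y in
theorem unc : ∃ y z, y ≠ z ∧ (∃ a n q, T.E (inr a) (g2, sg y n) q) ∧
    (∃ a n q, T.E (inr a) (g2, sg z n) q) := by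
  obtain ⟨y, z, hyz, y1, y2, z1, z2⟩ := pig2 Y.Pp Y.Pm Y.Pp_uniq Y.Pm_uniq
  have : ∀ j, ¬ Y.Pp j → ¬ Y.Pm j → ∃ a n q, T.E (inr a) (g2, sg j n) q := by
    intro j h1 h2
    obtain ⟨l | l, n, q, e⟩ := T.pure g2 j
    · have := Y.cov e
      tauto
    · exact ⟨l, n, q, e⟩
  exact ⟨y, z, hyz, this y y1 y2, this z z1 z2⟩

theorem cov2 {y z : Fin 4} (hyz : y ≠ z)
    (h : ∀ a j n q, T.E (inr a) (g2, sg j n) q → j = y ∨ j = z) :
    ∃ x t, D4 x y z t ∧ Y.Pp x ∧ Y.Pm t := by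
  obtain ⟨x, t, hD⟩ := compl2 hyz
  have : ∀ j, j ≠ y → j ≠ z → Y.Pp j ∨ Y.Pm j := by
    intro j h1 h2
    obtain ⟨l | l, n, q, e⟩ := T.pure g2 j
    · exact Y.cov e
    · have := h _ _ _ _ e
      tauto
  rcases this x hD.xy hD.xz with a | a <;> rcases this t hD.yt.symm hD.zt.symm with b | b
  · exact absurd (Y.Pp_uniq _ _ a b) hD.xt
  · exact ⟨x, t, hD, a, b⟩
  · exact ⟨t, x, ⟨hD.yt.symm, hD.zt.symm, hD.xt.symm, hD.yz, hD.xy.symm, hD.xz.symm⟩, b, a⟩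
  · exact absurd (Y.Pm_uniq _ _ a b) hD.xt

end YS

/-- the four above edges in case Y -/
structure Ab (T : Sys) (g2 g3 : Fin 3) (y z y' z' : Fin 4) where
  w1 : Fin 4
  w2 : Fin 4
  w3 : Fin 4
  w4 : Fin 4
  n1 : ℕ
  n2 : ℕ
  n3 : ℕ
  n4 : ℕ
  b1 : ℕ
  b2 : ℕ
  b3 : ℕ
  b4 : ℕ
  hw : D4 w1 w2 w3 w4
  e1 : ∃ l, T.E l (0, sg w1 n1) (g2, sg y b1)
  e2 : ∃ l, T.E l (0, sg w2 n2) (g2, sg z b2)
  e3 : ∃ l, T.E l (0, sg w3 n3) (g3, sg y' b3)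
  e4 : ∃ l, T.E l (0, sg w4 n4) (g3, sg z' b4)
  all : ∀ a p q, T.E (inr a) p q → Pr p q (0, sg w1 n1) (g2, sg y b1) ∨
    Pr p q (0, sg w2 n2) (g2, sg z b2) ∨ Pr p q (0, sg w3 n3) (g3, sg y' b3) ∨
    Pr p q (0, sg w4 n4) (g3, sg z' b4)

def Ab.sw2 {T g2 g3 y z y' z'} (A : Ab T g2 g3 y z y' z') : Ab T g2 g3 z y y' z' where
  w1 := A.w2
  w2 := A.w1
  w3 := A.w3
  w4 := A.w4
  n1 := A.n2
  n2 := A.n1
  n3 := A.n3
  n4 := A.n4
  b1 := A.b2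
  b2 := A.b1
  b3 := A.b3
  b4 := A.b4
  hw := ⟨A.hw.xy.symm, A.hw.yz, A.hw.yt, A.hw.xz, A.hw.xt, A.hw.zt⟩
  e1 := A.e2
  e2 := A.e1
  e3 := A.e3
  e4 := A.e4
  all := fun a p q e => by have := A.all a p q e; tauto

def Ab.sw3 {T g2 g3 y z y' z'} (A : Ab T g2 g3 y z y' z') : Ab T g2 g3 y z z' y' where
  w1 := A.w1
  w2 := A.w2
  w3 := A.w4
  w4 := A.w3
  n1 := A.n1
  n2 := A.n2
  n3 := A.n4
  n4 := A.n3
  b1 := A.b1
  b2 := A.b2
  b3 := A.b4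
  b4 := A.b3
  hw := ⟨A.hw.xy, A.hw.xt, A.hw.xz, A.hw.yt, A.hw.yz, A.hw.zt.symm⟩
  e1 := A.e1
  e2 := A.e2
  e3 := A.e4
  e4 := A.e3
  all := fun a p q e => by have := A.all a p q e; tauto

theorem YS.above {T : Sys} {g2 g3 : Fin 3} {v u : Fin 4 → ℤ} (Y : YS T g2 g3 v u) :
    ∃ x y z t x' y' z' t', D4 x y z t ∧ Y.Pp x ∧ Y.Pm t ∧ D4 x' y' z' t' ∧ Y.swap.Pp x' ∧
      Y.swap.Pm t' ∧ Nonempty (Ab T g2 g3 y z y' z') := by
  have hg := Y.H.hg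
  obtain ⟨y, z, hyz, ⟨a1, b1, q1, e1⟩, ⟨a2, b2, q2, e2⟩⟩ := Y.unc
  obtain ⟨y', z', hyz', ⟨a3, b3, q3, e3⟩, ⟨a4, b4, q4, e4⟩⟩ := Y.swap.unc
  have hc : ∀ m m', ((g2, m) : Vtx) ≠ (g3, m') := fun m m' h => hg.c (congrArg Prod.fst h)
  obtain ⟨n, o, τ, w1, w2, w3, w4, k1, k2, hw, o1, o2, o3, o4, -⟩ :=
    T.four e1 e2 e3 e4 hg.a hg.a hg.b hg.b (T.sgne e1 hyz _) (hc _ _) (hc _ _)
      (hc _ _) (hc _ _) (T.sgne e3 hyz' _)
  have all : ∀ a p q, T.E (inr a) p q → Pr p q (0, sg w1 (n w1)) (g2, sg y b1) ∨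
      Pr p q (0, sg w2 (n w2)) (g2, sg z b2) ∨ Pr p q (0, sg w3 (n w3)) (g3, sg y' b3) ∨
      Pr p q (0, sg w4 (n w4)) (g3, sg z' b4) := by
    intro a p q e
    obtain ⟨j, hj⟩ := k2 a p q e
    rcases hw.all j with rfl | rfl | rfl | rfl
    · exact Or.inl (o1 ▸ hj)
    · exact Or.inr (Or.inl (o2 ▸ hj))
    · exact Or.inr (Or.inr (Or.inl (o3 ▸ hj)))
    · exact Or.inr (Or.inr (Or.inr (o4 ▸ hj)))
  obtain ⟨x, t, hD, px, pt⟩ := Y.cov2 hyz (by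
    intro a j m q e
    by_contra hj
    push Not at hj
    rcases all a _ _ e with (⟨h, -⟩ | ⟨h, -⟩) | (⟨h, -⟩ | ⟨h, -⟩) | (⟨h, -⟩ | ⟨h, -⟩) |
      (⟨h, -⟩ | ⟨h, -⟩)
    exacts [hg.a (congrArg Prod.fst h), T.sgne e hj.1 _ h, hg.a (congrArg Prod.fst h),
      T.sgne e hj.2 _ h, hg.a (congrArg Prod.fst h), hc _ _ h, hg.a (congrArg Prod.fst h),
      hc _ _ h])
  obtain ⟨x', t', hD', px', pt'⟩ := Y.swap.cov2 hyz' (by
    intro a j m q e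
    by_contra hj
    push Not at hj
    rcases all a _ _ e with (⟨h, -⟩ | ⟨h, -⟩) | (⟨h, -⟩ | ⟨h, -⟩) | (⟨h, -⟩ | ⟨h, -⟩) |
      (⟨h, -⟩ | ⟨h, -⟩)
    exacts [hg.b (congrArg Prod.fst h), hc _ _ h.symm, hg.b (congrArg Prod.fst h),
      hc _ _ h.symm, hg.b (congrArg Prod.fst h), T.sgne e hj.1 _ h, hg.b (congrArg Prod.fst h),
      T.sgne e hj.2 _ h])
  exact ⟨x, y, z, t, x', y', z', t', hD, px, pt, hD', px', pt',
    ⟨⟨w1, w2, w3, w4, n w1, n w2, n w3, n w4, b1, b2, b3, b4, hw, ⟨_, o1 ▸ k1 w1⟩,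
      ⟨_, o2 ▸ k1 w2⟩, ⟨_, o3 ▸ k1 w3⟩, ⟨_, o4 ▸ k1 w4⟩, all⟩⟩⟩

end Pool.Agent.P.MP_1f474f_ag
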