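import Pool.Agent.P.MP_1f474f_ag.Comb3

set_option linter.unusedSimpArgs false

namespace Pool.Agent.P.MP_1f474f_ag

open Sum

theorem wt_mono (s : Fin 4 → ℕ) {m m' : Mon} (h : ∀ j, m j ≤ m' j) : wt s m ≤ wt s m' :=
  Finset.sum_le_sum fun j _ => mul_le_mul_of_nonneg_right (by exact_mod_cast h j) (by positivity)

theorem pigAB (l1 l2 : Fin 4) (A B : Fin 4 → Prop) (h : ∀ l, A l ∨ B l ∨ l = l1 ∨ l = l2)
    (hA : ∀ l l', A l → A l' → l = l') (hB : ∀ l l', B l → B l' → l = l') :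
    (∃ l, A l) ∧ ∃ l, B l := by
  constructor
  · by_contra hc
    push Not at hc
    obtain ⟨y, z, hyz, y1, y2, z1, z2⟩ := pig2 (fun l => l = l1) (fun l => l = l2)
      (fun a b h h' => h.trans h'.symm) (fun a b h h' => h.trans h'.symm)
    have a1 := h y
    have a2 := h z
    have a3 := hc y
    have a4 := hc z
    exact hyz (hB y z (by tauto) (by tauto))
  · by_contra hc
    push Not at hc
    obtain ⟨y, z, hyz, y1, y2, z1, z2⟩ := pig2 (fun l => l = l1) (fun l => l = l2)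
      (fun a b h h' => h.trans h'.symm) (fun a b h h' => h.trans h'.symm)
    have a1 := h y
    have a2 := h z
    have a3 := hc y
    have a4 := hc z
    exact hyz (hA y z (by tauto) (by tauto))

theorem D4.ext {x y z t : Fin 4} (h : D4 x y z t) {m : Mon} {a b c e : ℕ} (h1 : m x = a)
    (h2 : m y = b) (h3 : m z = c) (h4 : m t = e) : m = mon x y z a b c e := by
  funext j
  rcases h.all j with rfl | rfl | rfl | rfl
  · rw [h.mkx, h1]
  · rw [h.mky, h2]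
  · rw [h.mkz, h3]
  · rw [h.mkt, h4]

theorem D4.le {x y z t : Fin 4} (h : D4 x y z t) {m : Mon} {a b c e : ℕ}
    (hm : ∀ j, m j ≤ mon x y z a b c e j) : m x ≤ a ∧ m y ≤ b ∧ m z ≤ c ∧ m t ≤ e := by
  refine ⟨?_, ?_, ?_, ?_⟩
  · simpa only [h.mkx] using hm x
  · simpa only [h.mky] using hm y
  · simpa only [h.mkz] using hm z
  · simpa only [h.mkt] using hm t

namespace Sys

variable (T : Sys)

theorem isocl (ξ : Vtx) (h : ∀ l m q, T.E l (ξ.1, m) q → ¬ ∀ j, m j ≤ ξ.2 j) :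
    ∀ l p q m, T.E l p q → sh p m = ξ → sh q m = ξ := by
  intro l p q m he hp
  exfalso
  subst hp
  exact h l p.2 q he fun j => by simp [sh]

theorem noniso {ξ q : Vtx} (hd : dg T.s T.d ξ = dg T.s T.d q) (hne : ξ ≠ q) :
    ∃ l m q', T.E l (ξ.1, m) q' ∧ ∀ j, m j ≤ ξ.2 j := by
  by_contra hc
  refine hne (T.gen (fun w => w = ξ) (T.isocl ξ ?_) ξ q hd rfl).symm
  intro l m q' he hm
  exact hc ⟨l, m, q', he, hm⟩

theorem nonisoB {ξ q : Vtx} (hd : dg T.s T.d ξ = dg T.s T.d q) (hne : ξ ≠ q)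
    (hb : dg T.s T.d ξ < T.d 0) :
    ∃ l m q', T.E (inl l) (ξ.1, m) q' ∧ ∀ j, m j ≤ ξ.2 j := by
  obtain ⟨l | l, m, q', he, hm⟩ := T.noniso hd hne
  · exact ⟨l, m, q', he, hm⟩
  · have a1 := T.above he
    have a2 := wt_mono T.s hm
    simp only [dg] at a1 hb
    omega

theorem socleIso (t : Fin 4) (ξ : Vtx) (h : ∀ l m q, T.E l (ξ.1, m) q → ¬ ∀ j, m j ≤ ξ.2 j)
    (ht : ξ.2 t = 0)
    (hup : ∀ j, ∃ q : Vtx, dg T.s T.d q = dg T.s T.d ξ + T.s j ∧ 0 < q.2 t) : False := by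
  obtain ⟨i, hi⟩ := other ξ.1
  exact T.socle t (fun w => w = ξ) ξ i (T.isocl ξ h) rfl (fun p hp => hp ▸ ht)
    (fun p hp => hp ▸ hi.symm) hup

theorem up (t j : Fin 4) (ξ : Vtx) (m : Mon) (hm : dg T.s T.d (sh ξ m) = T.s t)
    (hup : ∃ q : Vtx, dg T.s T.d q = dg T.s T.d ξ + T.s j ∧ 0 < q.2 t) : m j = 0 := by
  by_contra hj
  obtain ⟨q, hq, hqt⟩ := hup
  have h1 : m = sg j 1 + (m - sg j 1) := by
    funext k
    by_cases hk : k = j
    · subst hk
      simp only [Pi.add_apply, Pi.sub_apply, sg_same]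
      omega
    · simp [sg_ne hk]
  have h2 : dg T.s T.d (sh q (m - sg j 1)) = T.s t := by
    rw [← hm, dg_sh, dg_sh, hq]
    conv_rhs => rw [h1, wt_add, wt_sg]
    push_cast
    ring
  have := T.top2 t _ h2
  simp only [sh, Pi.add_apply] at this
  omega

theorem climb (t j : Fin 4) (ξ : Vtx) (h : ∀ l m q, T.E l (ξ.1, m) q → ¬ ∀ j, m j ≤ ξ.2 j)
    (ht : ξ.2 t = 0)
    (hup : ∃ q : Vtx, dg T.s T.d q = dg T.s T.d ξ + T.s j ∧ 0 < q.2 t) :
    ∃ p : Vtx, p.1 = ξ.1 ∧ p.2 j = ξ.2 j ∧ dg T.s T.d p = T.s t := by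
  obtain ⟨m, hm⟩ := T.top1 t ξ fun q hq => by
    rw [T.gen (fun w => w = ξ) (T.isocl ξ h) ξ q hq.symm rfl]
    exact ht
  exact ⟨sh ξ m, rfl, by simp [sh, T.up t j ξ m hm hup], hm⟩

end Sys

theorem Ab.end2 {T : Sys} {g2 g3 y z y' z'} (hg : G3 g2 g3) (A : Ab T g2 g3 y z y' z')
    {a m q} (e : T.E (inr a) (g2, m) q) : (m = sg y A.b1 ∧ q = (0, sg A.w1 A.n1)) ∨
      (m = sg z A.b2 ∧ q = (0, sg A.w2 A.n2)) := by
  rcases A.all a _ _ e with (⟨h, h'⟩ | ⟨h, h'⟩) | (⟨h, h'⟩ | ⟨h, h'⟩) | (⟨h, h'⟩ | ⟨h, h'⟩) |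
    (⟨h, h'⟩ | ⟨h, h'⟩)
  · exact absurd (congrArg Prod.fst h) hg.a
  · exact Or.inl ⟨congrArg Prod.snd h, h'⟩
  · exact absurd (congrArg Prod.fst h) hg.a
  · exact Or.inr ⟨congrArg Prod.snd h, h'⟩
  · exact absurd (congrArg Prod.fst h) hg.a
  · exact absurd (congrArg Prod.fst h) hg.c
  · exact absurd (congrArg Prod.fst h) hg.a
  · exact absurd (congrArg Prod.fst h) hg.c

namespace YS

variable {T : Sys} {g2 g3 : Fin 3} {v u : Fin 4 → ℤ} (Y : YS T g2 g3 v u)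

theorem diff {l l' : Fin 4} (e : T.E (inl l) (g2, Y.c2 l) (g3, Y.c3 l))
    (e' : T.E (inl l') (g2, Y.c2 l') (g3, Y.c3 l')) (j : Fin 4) :
    (Y.c3 l' j : ℤ) - Y.c2 l' j = Y.c3 l j - Y.c2 l j + (Y.κ l' - Y.κ l) * v j := by
  rw [Y.hu l e j, Y.hu l' e' j]
  ring

theorem exAB (h : ∀ l, T.E (inl l) (g2, Y.c2 l) (g3, Y.c3 l) → l = Y.l1 ∨ l = Y.l2) :
    (∃ l, T.E (inl l) (g2, vp v) (g2, vn v)) ∧ ∃ l, T.E (inl l) (g3, vp v) (g3, vn v) := by
  refine pigAB Y.l1 Y.l2 _ _ (fun l => ?_) (fun l l' a b => inl_injective (T.par a b))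
    (fun l l' a b => inl_injective (T.par a b))
  rcases Y.cls l with a | a | a
  · exact Or.inl a
  · exact Or.inr (Or.inl a)
  · exact Or.inr (Or.inr (h l a))

theorem one_lt {x : Fin 4} (hx : ∀ j, j ≠ x → v j ≤ 0) {lA}
    (eA : T.E (inl lA) (g2, vp v) (g2, vn v)) : (Y.c2 Y.l1 x : ℤ) < v x := by
  by_contra hc
  obtain ⟨J, h1, h2, h3, h4⟩ := T.min Y.e1
  obtain ⟨-, k, k1, k2⟩ := Y.sign3 Y.e1 Y.e2 Y.lt
  have ha : Y.c2 Y.l1 = vp v + (Y.c2 Y.l1 - vp v) := by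
    funext j
    simp only [Pi.add_apply, Pi.sub_apply, vp]
    by_cases hj : j = x
    · subst hj
      omega
    · have := hx j hj
      omega
  have hd : dg T.s T.d (g2, Y.c2 Y.l1) = dg T.s T.d (g2, vn v + (Y.c2 Y.l1 - vp v)) := by
    have := T.deq eA
    conv_lhs => rw [ha]
    simp only [dg_mk, wt_add] at this ⊢
    omega
  have hJ : J (g2, vn v + (Y.c2 Y.l1 - vp v)) := by
    by_cases h0 : Y.c2 Y.l1 - vp v = 0
    · rw [h0, add_zero] at ha ⊢
      refine h4 (inl lA) _ _ ?_ eA (ha ▸ h1)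
      intro hh
      rw [hh] at eA
      rcases T.uniq eA Y.e1 with ⟨-, a⟩ | ⟨-, a⟩ <;> exact Y.H.hg.c (congrArg Prod.fst a).symm
    · obtain ⟨j, hj⟩ := exists_pos h0
      refine h3 _ _ j hd ?_ ?_ h1
      · simp only [Pi.sub_apply] at hj ⊢
        omega
      · simp only [Pi.add_apply]
        omega
  refine h2 (h3 _ _ k (hd.symm.trans (T.deq Y.e1)) ?_ k2 hJ)
  simp only [Pi.add_apply, vn]
  omega

theorem one_ex {x : Fin 4} (hx : ∀ j, j ≠ x → v j ≤ 0) {lA}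
    (eA : T.E (inl lA) (g2, vp v) (g2, vn v)) : ∃ j, j ≠ x ∧ 0 < Y.c2 Y.l1 j := by
  by_contra hc
  push Not at hc
  have hlt := Y.one_lt hx eA
  obtain ⟨J, h1, h2, h3, -⟩ := T.min eA
  obtain ⟨-, k, k1, k2⟩ := Y.sign3 Y.e1 Y.e2 Y.lt
  have ha : vp v = Y.c2 Y.l1 + (vp v - Y.c2 Y.l1) := by
    funext j
    simp only [Pi.add_apply, Pi.sub_apply, vp]
    by_cases hj : j = x
    · subst hj
      omega
    · have := hc j hj
      omega
  have hd : dg T.s T.d (g2, vp v) = dg T.s T.d (g3, Y.c3 Y.l1 + (vp v - Y.c2 Y.l1)) := by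
    have := T.deq Y.e1
    conv_lhs => rw [ha]
    simp only [dg_mk, wt_add] at this ⊢
    omega
  have hJ : J (g3, Y.c3 Y.l1 + (vp v - Y.c2 Y.l1)) := by
    refine h3 _ _ x hd ?_ ?_ h1
    · simp only [vp]
      omega
    · simp only [Pi.add_apply, Pi.sub_apply, vp]
      omega
  refine h2 (h3 _ _ k (hd.symm.trans (T.deq eA)) ?_ ?_ hJ)
  · simp only [Pi.add_apply]
    omega
  · simp only [vn]
    omega

theorem core12 {x y z t : Fin 4} (hD : D4 x y z t) (A : Ab T g2 g3 z t y t)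
    {p q j k r s : ℕ} (hp : vp v = mon x y z (p + 1 + (r + 1)) 0 0 0)
    (hn : vn v = mon x y z 0 (j + 1) (k + 1) 0)
    (h21 : Y.c2 Y.l1 = mon x y z (p + 1) (q + 1) 0 0)
    (h31 : Y.c3 Y.l1 = mon x y z 0 0 (s + 1 + (k + 1)) 0)
    (h22 : Y.c2 Y.l2 = mon x y z 0 (q + 1 + (j + 1)) 0 0)
    (h32 : Y.c3 Y.l2 = mon x y z (r + 1) 0 (s + 1) 0)
    (hC : ∀ l, T.E (inl l) (g2, Y.c2 l) (g3, Y.c3 l) → l = Y.l1 ∨ l = Y.l2) : False := by
  have hg := Y.H.hg
  obtain ⟨a1, e1⟩ := A.e1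
  obtain ⟨a2, e2⟩ := A.e2
  obtain ⟨a3, e3⟩ := A.e3
  obtain ⟨a4, e4⟩ := A.e4
  have b1 := T.sgpos (T.symm e1)
  have b2 := T.sgpos (T.symm e2)
  have d1 := T.deq Y.e1
  rw [h21, h31, hD.dgmk, hD.dgmk] at d1
  have d2 := T.deq Y.e2
  rw [h22, h32, hD.dgmk, hD.dgmk] at d2
  push_cast at d1 d2
  have hend : ∀ l m w, T.E l (g2, m) w → (p + 1 + (r + 1) ≤ m x) ∨ 0 < m z ∨ 0 < m t ∨
      (p + 1 ≤ m x ∧ q + 1 ≤ m y) ∨ q + 1 + (j + 1) ≤ m y := by
    rintro (l | l) m w e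
    · rcases Y.end2 e with ⟨-, ⟨h, -⟩ | ⟨h, -⟩⟩ | ⟨e', h, -⟩
      · rw [h, hp, hD.mkx]
        omega
      · rw [h, hn, hD.mkz]
        omega
      · rcases hC l e' with rfl | rfl
        · rw [h, h21, hD.mkx, hD.mky]
          omega
        · rw [h, h22, hD.mky]
          omega
    · rcases A.end2 hg e with ⟨h, -⟩ | ⟨h, -⟩
      · rw [h, sg_same]
        omega
      · rw [h, sg_same]
        omega
  obtain ⟨p1, p11, p12, p13⟩ := T.climb z x (g2, mon x y z (p + r + 1) q 0 0)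
    (fun l m w e hm => by
      have := hD.le hm
      have := hend l m w e
      omega) (hD.mkz _ _ _ _)
    ⟨(g2, mon x y z 0 (j + 1 + q) (k + 1) 0), by
      simp only [hD.dgmk]
      push_cast
      linarith, by simp [hD.mkz]⟩
  obtain ⟨p2, p21, p22, p23⟩ := T.climb z x (g2, mon x y z p (q + j + 1) 0 0)
    (fun l m w e hm => by
      have := hD.le hm
      have := hend l m w e
      omega) (hD.mkz _ _ _ _)
    ⟨(g3, mon x y z 0 j (s + 1 + (k + 1)) 0), by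
      simp only [hD.dgmk]
      push_cast
      linarith, by simp [hD.mkz]⟩
  simp only [hD.mkx] at p11 p12 p21 p22
  have hB : ∀ l p q, T.E (inl l) p q → p.2 z = 0 → q.2 z = 0 → False := by
    intro l p q e hp' hq'
    have : ∀ {p0 q0 : Vtx}, T.E (inl l) p0 q0 → 0 < q0.2 z → False := by
      intro p0 q0 e0 h0
      rcases T.uniq e0 e with ⟨rfl, rfl⟩ | ⟨rfl, rfl⟩ <;> omega
    rcases Y.cls l with h | h | h
    · exact this h (by simp [hn, hD.mkz])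
    · exact this h (by simp [hn, hD.mkz])
    · rcases hC l h with rfl | rfl
      · exact this h (by simp [h31, hD.mkz])
      · exact this h (by simp [h32, hD.mkz])
  have g1 := hg.a
  have g2' := hg.b
  have g3' := hg.c
  have n2 := T.sgpos e2
  have n3 := T.sgpos e3
  have n4 := T.sgpos e4
  have key : ∀ β : ℕ, (A.w3 ≠ z → sg A.w3 A.n3 x = β) → (A.w4 ≠ z → sg A.w4 A.n4 x = β) →
      False := by
    intro β h3 h4
    have := T.topl z (fun w => (w.1 = 0 → w.2 x = p + r + 1 + sg A.w2 A.n2 x) ∧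
      (w.1 = g2 → w.2 x = p + r + 1) ∧ (w.1 = g3 → w.2 x + β = p + r + 1 + sg A.w2 A.n2 x))
      ?_ p1 p2 p13 p23 ⟨fun h => absurd (p11.symm.trans h) g1, fun _ => p12,
        fun h => absurd (p11.symm.trans h) g3'⟩
    · have := this.2.1 p21
      omega
    · rintro (l | l) p q m e hp' hq' ⟨c1, c2, c3⟩
      · exact (hB l p q e hp' hq').elim
      · have f3 : sg A.w3 A.n3 z = 0 → sg A.w3 A.n3 x = β := fun h => h3 (by
          intro hh
          rw [hh, sg_same] at h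
          omega)
        have f4 : sg A.w4 A.n4 z = 0 → sg A.w4 A.n4 x = β := fun h => h4 (by
          intro hh
          rw [hh, sg_same] at h
          omega)
        rcases A.all l p q e with (⟨rfl, rfl⟩ | ⟨rfl, rfl⟩) | (⟨rfl, rfl⟩ | ⟨rfl, rfl⟩) |
          (⟨rfl, rfl⟩ | ⟨rfl, rfl⟩) | (⟨rfl, rfl⟩ | ⟨rfl, rfl⟩) <;>
        simp only [sh, Pi.add_apply, sg_same, sg_ne hD.xt, sg_ne hD.xy, g1, g1.symm, g2', g2'.symm,
          g3', g3'.symm, false_imp_iff, true_imp_iff, and_true, true_and, zero_add]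
          at c1 c2 c3 hp' hq' ⊢ <;> omega
  rcases A.hw.all z with h | h | h | h
  · have := T.disj e1 z
    have := T.sgpos e1
    rw [← h] at *
    simp only [sg_same] at *
    omega
  · obtain ⟨l | l, ⟨i, m⟩, w, e, c1, c2, c3, c4⟩ := T.topedge z g2
    · exact hB l _ _ e c3 c4
    · simp only at c1 c3
      subst c1
      rcases A.end2 hg e with ⟨h', -⟩ | ⟨-, h'⟩
      · rw [h', sg_same] at c3
        omega
      · rw [h', ← h] at c4
        simp only [sg_same] at c4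
        omega
  · exact key (sg A.w4 A.n4 x) (fun h' => absurd h.symm h') fun _ => rfl
  · exact key (sg A.w3 A.n3 x) (fun _ => rfl) fun h' => absurd h.symm h'

end YS

end Pool.Agent.P.MP_1f474f_ag
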