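import Pool.Agent.P.MP_1f474f_ag.Comb4

set_option linter.unusedSimpArgs false

namespace Pool.Agent.P.MP_1f474f_ag

open Sum

namespace YS

variable {T : Sys} {g2 g3 : Fin 3} {v u : Fin 4 → ℤ} (Y : YS T g2 g3 v u)

theorem core11 {x y z t : Fin 4} (hD : D4 x y z t) {y' z'} (A : Ab T g2 g3 y z y' z')
    (hy : v y = 0) (hz : v z = 0)
    (hC : ∀ l, T.E (inl l) (g2, Y.c2 l) (g3, Y.c3 l) → 0 < Y.c2 l y ∨ 0 < Y.c2 l z) : False := by
  have hg := Y.H.hg
  refine T.notclosed g2 {x, t} (by simp) ?_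
  have hy' : y ∉ ({x, t} : Finset (Fin 4)) := by simp [hD.xy.symm, hD.yt]
  have hz' : z ∉ ({x, t} : Finset (Fin 4)) := by simp [hD.xz.symm, hD.zt]
  have hv : ∀ j, v j ≠ 0 → j ∈ ({x, t} : Finset (Fin 4)) := by
    intro j hj
    rcases hD.all j with rfl | rfl | rfl | rfl
    · simp
    · exact absurd hy hj
    · exact absurd hz hj
    · simp
  rintro (l | l) ⟨i, m⟩ q e h1 h2
  · simp only at h1 h2
    subst h1
    rcases Y.end2 e with ⟨-, ⟨-, rfl⟩ | ⟨-, rfl⟩⟩ | ⟨e', rfl, -⟩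
    · exact ⟨rfl, fun j hj => hv j (by simp only [vn] at hj; omega)⟩
    · exact ⟨rfl, fun j hj => hv j (by simp only [vp] at hj; omega)⟩
    · rcases hC l e' with h | h
      · exact absurd (h2 _ h) hy'
      · exact absurd (h2 _ h) hz'
  · simp only at h1 h2
    subst h1
    obtain ⟨a1, e1⟩ := A.e1
    obtain ⟨a2, e2⟩ := A.e2
    rcases A.end2 hg e with ⟨rfl, -⟩ | ⟨rfl, -⟩
    · exact absurd (h2 y (by simpa using T.sgpos (T.symm e1))) hy'
    · exact absurd (h2 z (by simpa using T.sgpos (T.symm e2))) hz'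

theorem pre12 {x y z t : Fin 4} (hD : D4 x y z t) (A : Ab T g2 g3 z t y t)
    (hx : 0 < v x) (hy : v y < 0) (hz : v z < 0) (ht : v t ≤ 0)
    (hN : Y.κ Y.l2 - Y.κ Y.l1 = 1)
    (a1 : 0 < Y.c2 Y.l1 x) (a2 : 0 < Y.c3 Y.l2 x) (a3 : 0 < Y.c2 Y.l1 y) (a4 : 0 < Y.c3 Y.l2 z)
    (a5 : ∀ j, j ≠ y → Y.c2 Y.l2 j = 0) (a6 : ∀ j, j ≠ z → Y.c3 Y.l1 j = 0)
    (hC : ∀ l, T.E (inl l) (g2, Y.c2 l) (g3, Y.c3 l) → l = Y.l1 ∨ l = Y.l2) : False := by
  have f := Y.diff Y.e1 Y.e2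
  rw [hN] at f
  have fx := f x
  have fy := f y
  have fz := f z
  have ft := f t
  have b1 := a5 x hD.xy
  have b2 := a5 z hD.yz.symm
  have b3 := a5 t hD.yt.symm
  have b4 := a6 x hD.xz
  have b5 := a6 y hD.yz
  have b6 := a6 t hD.zt.symm
  have c1 := T.disj Y.e1 z
  have c2 := T.disj Y.e2 y
  simp only at c1 c2
  refine Y.core12 hD A (p := Y.c2 Y.l1 x - 1) (q := Y.c2 Y.l1 y - 1) (j := (-v y).toNat - 1)
    (k := (-v z).toNat - 1) (r := Y.c3 Y.l2 x - 1) (s := Y.c3 Y.l2 z - 1)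
    (hD.ext ?_ ?_ ?_ ?_) (hD.ext ?_ ?_ ?_ ?_) (hD.ext ?_ ?_ ?_ ?_) (hD.ext ?_ ?_ ?_ ?_)
    (hD.ext ?_ ?_ ?_ ?_) (hD.ext ?_ ?_ ?_ ?_) hC <;> (try simp only [vp, vn]) <;> omega

include Y in
theorem caseY1 {x0 : Fin 4} (hx : ∀ j, j ≠ x0 → v j ≤ 0) : False := by
  have hg := Y.H.hg
  have hx' : ∀ j, 0 < v j → j = x0 := fun j hj => by
    by_contra hc
    have := hx j hc
    omega
  have hC : ∀ l, T.E (inl l) (g2, Y.c2 l) (g3, Y.c3 l) → l = Y.l1 ∨ l = Y.l2 := by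
    intro l e
    rcases Y.mid l e with h | h | ⟨h1, h2⟩
    · exact Or.inl h
    · exact Or.inr h
    · obtain ⟨⟨j, j1, j2⟩, -⟩ := Y.sign2 e Y.e2 h2
      obtain ⟨⟨j', j1', j2'⟩, -⟩ := Y.sign3 Y.e1 e h1
      rw [hx' j j1] at j2
      rw [hx' j' j1'] at j2'
      have := T.disj e x0
      simp only at this
      omega
  obtain ⟨⟨lA, eA⟩, lB, eB⟩ := Y.exAB hC
  obtain ⟨x, y, z, t, x', y', z', t', hD, px, pt, hD', px', pt', ⟨A⟩⟩ := Y.above
  obtain rfl := hx' x px.1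
  obtain rfl := hx' x' px'.1
  obtain ⟨⟨j, j1, a1⟩, k, k1, k2⟩ := Y.sign2 Y.e1 Y.e2 Y.lt
  obtain ⟨⟨j', j1', a2⟩, k', k1', k2'⟩ := Y.sign3 Y.e1 Y.e2 Y.lt
  rw [hx' j j1] at a1
  rw [hx' j' j1'] at a2
  have l1 := Y.one_lt hx eA
  have l2 : (Y.c3 Y.l2 x' : ℤ) < v x' := Y.swap.one_lt hx eB
  obtain ⟨j1, j11, j12⟩ := Y.one_ex hx eA
  obtain ⟨j2, j21, j22⟩ : ∃ j, j ≠ x' ∧ 0 < Y.c3 Y.l2 j := Y.swap.one_ex hx eB
  have f := Y.diff Y.e1 Y.e2
  have hN : Y.κ Y.l2 - Y.κ Y.l1 = 1 := by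
    have fx := f x'
    have c1 := T.disj Y.e1 x'
    have c2 := T.disj Y.e2 x'
    simp only at c1 c2
    have := Y.lt
    have := px.1
    by_contra hc
    have h2 : 2 ≤ Y.κ Y.l2 - Y.κ Y.l1 := by omega
    have : 2 * v x' ≤ (Y.κ Y.l2 - Y.κ Y.l1) * v x' := mul_le_mul_of_nonneg_right h2 (by omega)
    omega
  rw [hN] at f
  have j13 : 0 < Y.c2 Y.l2 j1 := by
    have := f j1
    have := T.disj Y.e1 j1
    have := hx j1 j11
    simp only at *
    omega
  have j23 : 0 < Y.c3 Y.l1 j2 := by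
    have := f j2
    have := T.disj Y.e2 j2
    have := hx j2 j21
    simp only at *
    omega
  by_cases hs : ∀ j, j ≠ t → 0 ≤ v j
  · have hk : k' = t := by
      by_contra hc
      have := hs k' hc
      omega
    subst hk
    have hj : j1 ≠ k' := by
      rintro rfl
      have := T.disj Y.e1 j1
      simp only at this
      omega
    have hyz : j1 = y ∨ j1 = z := by
      have := hD.all j1
      tauto
    refine Y.core11 hD A ?_ ?_ ?_
    · have := hs y hD.yt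
      have := hx y hD.xy.symm
      omega
    · have := hs z hD.zt
      have := hx z hD.xz.symm
      omega
    · intro l e
      rcases hC l e with rfl | rfl <;> rcases hyz with rfl | rfl <;> tauto
  · have a5 : ∀ j, j ≠ t → Y.c2 Y.l2 j = 0 := pt.2.resolve_right hs
    have a6 : ∀ j, j ≠ t' → Y.c3 Y.l1 j = 0 := by
      refine pt'.2.resolve_right fun h => hs fun j hj => ?_
      by_cases htt : t = t'
      · exact h j (htt ▸ hj)
      · have := h t htt
        have := pt.1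
        omega
    obtain rfl : j1 = t := by
      by_contra hc
      have := a5 j1 hc
      omega
    obtain rfl : j2 = t' := by
      by_contra hc
      have := a6 j2 hc
      omega
    have h12 : j1 ≠ j2 := by
      rintro rfl
      have := T.disj Y.e2 j1
      simp only at this
      omega
    have main : ∀ {y z y' z'}, D4 x' y z j1 → D4 x' y' z' j2 → Ab T g2 g3 y z y' z' →
        j2 = y → j1 = y' → False := by
      intro y z y' z' hD hD' A e1 e2
      subst e1 e2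
      obtain rfl : z' = z := by
        rcases hD.all z' with h | h | h | h
        · exact absurd h.symm hD'.xz
        · exact absurd h hD'.zt
        · exact h
        · exact absurd h.symm hD'.yz
      exact Y.pre12 (x := x') (y := j1) (z := j2) (t := z')
        ⟨hD.xt, hD.xy, hD.xz, h12, hD.zt.symm, hD.yz⟩ A px.1 pt.1 pt'.1 (hx _ hD.xz.symm) hN
        a1 a2 j12 j22 a5 a6 hC
    rcases hD.all j2 with h | h | h | h
    · exact j21 h
    · rcases hD'.all j1 with h' | h' | h' | h'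
      · exact j11 h'
      · exact main hD hD' A h h'
      · exact main hD ⟨hD'.xz, hD'.xy, hD'.xt, hD'.yz.symm, hD'.zt, hD'.yt⟩ A.sw3 h h'
      · exact h12 h'
    · rcases hD'.all j1 with h' | h' | h' | h'
      · exact j11 h'
      · exact main ⟨hD.xz, hD.xy, hD.xt, hD.yz.symm, hD.zt, hD.yt⟩ hD' A.sw2 h h'
      · exact main ⟨hD.xz, hD.xy, hD.xt, hD.yz.symm, hD.zt, hD.yt⟩
          ⟨hD'.xz, hD'.xy, hD'.xt, hD'.yz.symm, hD'.zt, hD'.yt⟩ A.sw2.sw3 h h'
      · exact h12 h'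
    · exact h12 h.symm

theorem fin22 {x y z t : Fin 4} (hD : D4 x y z t) (A : Ab T g2 g3 y z x t)
    {i j k h : ℕ} (vx : v x = (i + 1 : ℕ)) (vy : v y = (j + 1 : ℕ)) (vz : v z = -(k + 1 : ℕ))
    (vt : v t = -(h + 1 : ℕ))
    (hp : vp v = mon x y z (i + 1) (j + 1) 0 0) (hn : vn v = mon x y z 0 0 (k + 1) (h + 1))
    {lm : Fin 4}
    (em : T.E (inl lm) (g2, mon x y z (i + 1) 0 0 (h + 1)) (g3, mon x y z 0 (j + 1) (k + 1) 0))
    (h22 : Y.c2 Y.l2 = mon x y z 0 0 0 (2 * (h + 1)))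
    (h32 : Y.c3 Y.l2 = mon x y z 0 (2 * (j + 1)) 0 0)
    (hend : ∀ l m w, T.E (inl l) (g2, m) w → m = mon x y z (2 * (i + 1)) 0 0 0 ∨
      m = mon x y z 0 0 0 (2 * (h + 1)) ∨ m = mon x y z (i + 1) 0 0 (h + 1)) : False := by
  have hg := Y.H.hg
  obtain ⟨a1, e1⟩ := A.e1
  obtain ⟨a2, e2⟩ := A.e2
  have b1 := T.sgpos (T.symm e1)
  have b2 := T.sgpos (T.symm e2)
  have n1 := T.sgpos e1
  have n2 := T.sgpos e2
  have d2 := T.deq Y.e2
  rw [h22, h32, hD.dgmk, hD.dgmk] at d2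
  have dm := T.deq em
  have bm := T.below em
  rw [hD.dgmk, hD.dgmk] at dm
  rw [hD.dgmk] at bm
  have d3 := T.deq e1
  have d4 := T.deq e2
  simp only [dg_mk, wt_sg] at d3 d4
  push_cast at d2 dm bm
  have hend' : ∀ l m w, T.E l (g2, m) w → (2 * (i + 1) ≤ m x) ∨ (2 * (h + 1) ≤ m t) ∨
      (i + 1 ≤ m x ∧ h + 1 ≤ m t) ∨ A.b1 ≤ m y ∨ A.b2 ≤ m z := by
    rintro (l | l) m w e
    · rcases hend l m w e with rfl | rfl | rfl <;> simp only [hD.mkx, hD.mkt] <;> omega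
    · rcases A.end2 hg e with ⟨rfl, -⟩ | ⟨rfl, -⟩ <;> simp only [sg_same] <;> omega
  have dA : dg T.s T.d (g2, vp v) = dg T.s T.d (g2, vn v) := by
    rw [hp, hn, hD.dgmk, hD.dgmk]
    push_cast
    linarith
  have nA : ((g2, vp v) : Vtx) ≠ (g2, vn v) := by
    intro hh
    have := congrFun (congrArg Prod.snd hh) x
    simp only [hp, hn, hD.mkx] at this
    omega
  have c1 : A.b1 ≤ j + 1 := by
    obtain ⟨l, m, w, e, hm⟩ := T.noniso dA nA
    rw [hp] at hm
    have := hD.le hm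
    have := hend' l m w e
    omega
  have c2 : A.b2 ≤ k + 1 := by
    obtain ⟨l, m, w, e, hm⟩ := T.noniso dA.symm nA.symm
    rw [hn] at hm
    have := hD.le hm
    have := hend' l m w e
    omega
  have sx := T.spos x
  have sy := T.spos y
  have sz := T.spos z
  have st := T.spos t
  obtain ⟨κ, hκ⟩ := Y.H.same g3 (sg A.w1 A.n1 + sg z A.b2) (sg A.w2 A.n2 + sg y A.b1)
    (by simp only [dg_mk, wt_add, wt_sg]; linarith)
    (by
      simp only [dg_mk, wt_add, wt_sg]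
      have f1 : (A.b1 : ℤ) * T.s y ≤ (j + 1) * T.s y :=
        mul_le_mul_of_nonneg_right (by exact_mod_cast c1) (by positivity)
      have f2 : (A.b2 : ℤ) * T.s z ≤ (k + 1) * T.s z :=
        mul_le_mul_of_nonneg_right (by exact_mod_cast c2) (by positivity)
      have f3 : (0 : ℤ) ≤ (i + 1) * T.s x := by positivity
      have f4 : (0 : ℤ) ≤ (h + 1) * T.s t := by positivity
      linarith)
  have w1y : A.w1 ≠ y := by
    intro hh
    have := T.disj e1 y
    rw [hh] at this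
    simp only [sg_same] at this
    omega
  have ky := hκ y
  have kx := hκ x
  have kt := hκ t
  have kz := hκ z
  simp only [Pi.add_apply, sg_same, sg_ne w1y.symm, sg_ne hD.yz, sg_ne hD.yz.symm, sg_ne hD.xz,
    sg_ne hD.xy, sg_ne hD.zt.symm, sg_ne hD.yt.symm, vx, vy, vz, vt] at ky kx kt kz
  push_cast at ky kx kt kz
  have κ0 : κ < 0 := by
    by_contra hc
    have : 0 ≤ κ * ((j : ℤ) + 1) := mul_nonneg (by omega) (by positivity)
    omega
  have w2x : A.w2 = x := by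
    by_contra hc
    rw [sg_ne (Ne.symm hc)] at kx
    have : κ * ((i : ℤ) + 1) < 0 := mul_neg_of_neg_of_pos κ0 (by positivity)
    omega
  have w1t : A.w1 = t := by
    by_contra hc
    rw [sg_ne (Ne.symm hc)] at kt
    have : κ * ((h : ℤ) + 1) < 0 := mul_neg_of_neg_of_pos κ0 (by positivity)
    have : κ * -((h : ℤ) + 1) = -(κ * ((h : ℤ) + 1)) := by ring
    omega
  rw [w2x, w1t] at kx kt kz
  rw [w2x] at ky d4
  rw [w1t] at d3
  simp only [sg_same, sg_ne hD.xt, sg_ne hD.xt.symm, sg_ne hD.xy.symm, sg_ne hD.xz.symm,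
    sg_ne hD.zt] at ky kx kt kz
  have κ1 : κ = -1 := by
    by_contra hc
    have : κ * ((j : ℤ) + 1) ≤ -2 * (j + 1) := mul_le_mul_of_nonneg_right (by omega) (by positivity)
    omega
  subst κ1
  have q1 : (A.n1 : ℤ) = h + 1 := by omega
  have q2 : (A.n2 : ℤ) = i + 1 := by omega
  have q3 : (A.b1 : ℤ) = j + 1 := by omega
  have q4 : (A.b2 : ℤ) = k + 1 := by omega
  rw [q1, q3] at d3
  rw [q2, q4] at d4
  refine T.socleIso y (g2, mon x y z i 0 k (2 * h + 1)) ?_ (hD.mky _ _ _ _) ?_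
  · intro l m w e hm
    have := hD.le hm
    have := hend' l m w e
    omega
  · intro j'
    rcases hD.all j' with rfl | rfl | rfl | rfl
    · refine ⟨(g3, mon j' y z 0 (j + 1) (2 * k + 1) h), ?_, by simp [hD.mky]⟩
      simp only [hD.dgmk]
      push_cast
      linarith
    · refine ⟨(g2, mon x j' z i 1 k (2 * h + 1)), ?_, by simp [hD.mky]⟩
      simp only [hD.dgmk]
      push_cast
      linarith
    · refine ⟨(g2, mon x y j' (2 * i + 1) (j + 1) 0 h), ?_, by simp [hD.mky]⟩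
      simp only [hD.dgmk]
      push_cast
      linarith
    · refine ⟨(g3, mon x y z i (2 * (j + 1)) k 0), ?_, by simp [hD.mky]⟩
      simp only [hD.dgmk]
      push_cast
      linarith

end YS

end Pool.Agent.P.MP_1f474f_ag
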