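import Pool.Agent.P.MP_1f474f_ag.Comb5

set_option linter.unusedSimpArgs false

namespace Pool.Agent.P.MP_1f474f_ag

open Sum

namespace YS

variable {T : Sys} {g2 g3 : Fin 3} {v u : Fin 4 → ℤ} (Y : YS T g2 g3 v u)

theorem core22 {x y z t : Fin 4} (hD : D4 x y z t) (A : Ab T g2 g3 y z x t)
    (hd : T.d g3 < T.d g2)
    {i j k h N : ℕ} (vx : v x = (i + 1 : ℕ)) (vy : v y = (j + 1 : ℕ)) (vz : v z = -(k + 1 : ℕ))
    (vt : v t = -(h + 1 : ℕ)) (hN : Y.κ Y.l2 - Y.κ Y.l1 = N)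
    (h21 : Y.c2 Y.l1 = mon x y z (N * (i + 1)) 0 0 0)
    (h31 : Y.c3 Y.l1 = mon x y z 0 0 (N * (k + 1)) 0)
    (h22 : Y.c2 Y.l2 = mon x y z 0 0 0 (N * (h + 1)))
    (h32 : Y.c3 Y.l2 = mon x y z 0 (N * (j + 1)) 0 0) : False := by
  have hg := Y.H.hg
  have hlt := Y.lt
  have hp : vp v = mon x y z (i + 1) (j + 1) 0 0 :=
    hD.ext (by simp only [vp]; omega) (by simp only [vp]; omega) (by simp only [vp]; omega)
      (by simp only [vp]; omega)
  have hn : vn v = mon x y z 0 0 (k + 1) (h + 1) :=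
    hD.ext (by simp only [vn]; omega) (by simp only [vn]; omega) (by simp only [vn]; omega)
      (by simp only [vn]; omega)
  have hmid : ∀ l, T.E (inl l) (g2, Y.c2 l) (g3, Y.c3 l) → l = Y.l1 ∨ l = Y.l2 ∨
      ∃ e f : ℕ, 0 < e ∧ 0 < f ∧ e + f = N ∧ Y.c2 l = mon x y z (f * (i + 1)) 0 0 (e * (h + 1)) ∧
        Y.c3 l = mon x y z 0 (e * (j + 1)) (f * (k + 1)) 0 := by
    intro l e
    rcases Y.mid l e with a | a | ⟨a1, a2⟩
    · exact Or.inl a
    · exact Or.inr (Or.inl a)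
    · right
      right
      obtain ⟨e0, he0⟩ : ∃ e0 : ℕ, Y.κ l - Y.κ Y.l1 = e0 := ⟨(Y.κ l - Y.κ Y.l1).toNat, by omega⟩
      obtain ⟨f0, hf0⟩ : ∃ f0 : ℕ, N = e0 + f0 := ⟨N - e0, by omega⟩
      subst hf0
      have f := Y.diff Y.e1 e
      rw [he0, h21, h31] at f
      have fx := f x
      have fy := f y
      have fz := f z
      have ft := f t
      have gx := T.disj e x
      have gy := T.disj e y
      have gz := T.disj e z
      have gt := T.disj e t
      simp only [hD.mkx, hD.mky, hD.mkz, hD.mkt, vx, vy, vz, vt, add_mul, mul_neg] at fx fy fz ft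
      simp only at gx gy gz gt
      simp only [Nat.cast_add (e0 * _), ← Nat.cast_mul] at fx fy fz ft
      refine ⟨e0, f0, by omega, by omega, rfl, hD.ext ?_ ?_ ?_ ?_, hD.ext ?_ ?_ ?_ ?_⟩ <;> omega
  have d1 := T.deq Y.e1
  have d2 := T.deq Y.e2
  have c1 := T.below (T.symm Y.e1)
  have c2 := T.below (T.symm Y.e2)
  rw [h21, h31, hD.dgmk, hD.dgmk] at d1
  rw [h22, h32, hD.dgmk, hD.dgmk] at d2
  rw [h31, hD.dgmk] at c1
  rw [h32, hD.dgmk] at c2
  push_cast at d1 d2 c1 c2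
  have N0 : (0 : ℤ) < N := by omega
  have sx : (0 : ℤ) < (i + 1) * T.s x := by have := T.spos x; positivity
  have sy : (0 : ℤ) < (j + 1) * T.s y := by have := T.spos y; positivity
  have sz : (0 : ℤ) < (k + 1) * T.s z := by have := T.spos z; positivity
  have st : (0 : ℤ) < (h + 1) * T.s t := by have := T.spos t; positivity
  have dv : ((i : ℤ) + 1) * T.s x + (j + 1) * T.s y = (k + 1) * T.s z + (h + 1) * T.s t := by
    refine mul_left_cancel₀ N0.ne' ?_
    linarith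
  by_cases hN1 : N = 1
  · subst hN1
    obtain ⟨⟨lA, eA⟩, -⟩ := Y.exAB fun l e => by
      rcases hmid l e with a | a | ⟨e0, f0, a1, a2, a3, -⟩
      · exact Or.inl a
      · exact Or.inr a
      · omega
    obtain ⟨J, j1, j2, j3, -⟩ := T.min eA
    have a1 : dg T.s T.d (g2, vp v) = dg T.s T.d (g3, mon x y z 0 (j + 1) (k + 1) 0) := by
      rw [hp, hD.dgmk, hD.dgmk]
      push_cast at d1 ⊢
      linarith
    have a2 := j3 _ _ y a1 (by simp [hp, hD.mky]) (by simp [hD.mky]) j1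
    exact j2 (j3 _ _ z (a1.symm.trans (T.deq eA)) (by simp [hD.mkz]) (by simp [hn, hD.mkz]) a2)
  obtain ⟨M, rfl⟩ : ∃ M, N = M + 2 := ⟨N - 2, by omega⟩
  have M0 : (0 : ℤ) ≤ M := by positivity
  have mz := mul_nonneg M0 sz.le
  have my := mul_nonneg M0 sy.le
  have hik : ((i : ℤ) + 1) * T.s x < (k + 1) * T.s z := by
    refine lt_of_mul_lt_mul_left ?_ N0.le
    linarith
  have end3 : ∀ l m w, T.E (inl l) (g3, m) w →
      (T.E (inl l) (g3, vp v) (g3, vn v) ∧ (m = vp v ∨ m = vn v)) ∨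
      (M + 2) * (k + 1) ≤ m z ∨ (M + 2) * (j + 1) ≤ m y ∨
      ∃ e f : ℕ, 0 < e ∧ 0 < f ∧ e + f = M + 2 ∧
        T.E (inl l) (g2, mon x y z (f * (i + 1)) 0 0 (e * (h + 1)))
          (g3, mon x y z 0 (e * (j + 1)) (f * (k + 1)) 0) ∧
        m = mon x y z 0 (e * (j + 1)) (f * (k + 1)) 0 := by
    intro l m w e
    rcases Y.swap.end2 e with ⟨a, ⟨b, -⟩ | ⟨b, -⟩⟩ | ⟨a, b, -⟩
    · exact Or.inl ⟨a, Or.inl b⟩
    · exact Or.inl ⟨a, Or.inr b⟩
    · have a' : T.E (inl l) (g2, Y.c2 l) (g3, Y.c3 l) := T.symm a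
      have b' : m = Y.c3 l := b
      right
      rcases hmid l a' with rfl | rfl | ⟨e0, f0, a1, a2, a3, a4, a5⟩
      · left
        rw [b', h31, hD.mkz]
      · right
        left
        rw [b', h32, hD.mky]
      · right
        right
        exact ⟨e0, f0, a1, a2, a3, a4 ▸ a5 ▸ a', b'.trans a5⟩
  push_cast at d1 d2 c1 c2 N0
  obtain ⟨lB, eB⟩ : ∃ l, T.E (inl l) (g3, vp v) (g3, vn v) := by
    obtain ⟨l, m, w, e, hm⟩ := T.nonisoB (ξ := (g3, vp v)) (q := (g3, vn v))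
      (by rw [hp, hn, hD.dgmk, hD.dgmk]; push_cast; linarith)
      (by
        intro hh
        have := congrFun (congrArg Prod.snd hh) x
        simp only [hp, hn, hD.mkx] at this
        omega)
      (by rw [hp, hD.dgmk]; push_cast; linarith)
    rw [hp] at hm
    obtain ⟨m1, m2, m3, m4⟩ := hD.le hm
    rcases end3 l m w e with ⟨a, -⟩ | a | a | ⟨e0, f0, a1, a2, a3, -, rfl⟩
    · exact ⟨l, a⟩
    · have : 0 < (M + 2) * (k + 1) := by positivity
      omega
    · have : 2 * (j + 1) ≤ (M + 2) * (j + 1) := Nat.mul_le_mul_right _ (by omega)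
      omega
    · rw [hD.mkz] at m3
      have : 0 < f0 * (k + 1) := by positivity
      omega
  have hm : ∀ e f : ℕ, 0 < e → 0 < f → e + f = M + 2 → ∃ l,
      T.E (inl l) (g2, mon x y z (f * (i + 1)) 0 0 (e * (h + 1)))
        (g3, mon x y z 0 (e * (j + 1)) (f * (k + 1)) 0) := by
    intro e f he hf hef
    have hef' : (M : ℤ) + 2 = e + f := by omega
    rw [hef'] at d1 d2 c1 c2 N0
    obtain ⟨l, m, w, e', hm⟩ := T.nonisoB (ξ := (g3, mon x y z 0 (e * (j + 1)) (f * (k + 1)) 0))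
      (q := (g2, mon x y z (f * (i + 1)) 0 0 (e * (h + 1))))
      (by
        rw [hD.dgmk, hD.dgmk]
        push_cast
        linear_combination -d1 + (e : ℤ) * dv)
      (fun hh => hg.c (congrArg Prod.fst hh).symm)
      (by
        rw [hD.dgmk]
        push_cast
        have e0 : (0 : ℤ) ≤ e := by positivity
        have f0 : (0 : ℤ) ≤ f := by positivity
        rcases le_total (((j : ℤ) + 1) * T.s y) ((k + 1) * T.s z) with hh | hh
        · have := mul_le_mul_of_nonneg_left hh e0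
          linarith
        · have := mul_le_mul_of_nonneg_left hh f0
          linarith)
    obtain ⟨m1, m2, m3, m4⟩ := hD.le hm
    rcases end3 l m w e' with ⟨-, rfl | rfl⟩ | a | a | ⟨e0, f0, a1, a2, a3, a4, rfl⟩
    · rw [hp, hD.mkx] at m1
      omega
    · rw [hn, hD.mkt] at m4
      omega
    · rw [← hef, add_mul] at a
      have : 0 < e * (k + 1) := by positivity
      omega
    · rw [← hef, add_mul] at a
      have : 0 < f * (j + 1) := by positivity
      omega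
    · rw [hD.mky] at m2
      rw [hD.mkz] at m3
      have b1 : e0 ≤ e := Nat.le_of_mul_le_mul_right m2 (by omega)
      have b2 : f0 ≤ f := Nat.le_of_mul_le_mul_right m3 (by omega)
      obtain rfl : e0 = e := by omega
      obtain rfl : f0 = f := by omega
      exact ⟨l, a4⟩
  obtain ⟨lm, em⟩ := hm 1 (M + 1) (by omega) (by omega) (by omega)
  obtain ⟨lm', em'⟩ := hm (M + 1) 1 (by omega) (by omega) (by omega)
  have ne3 : ∀ {l l' m m' w w'}, T.E (inl l) w (g3, m) → T.E (inl l') w' (g3, m') → w.1 = g2 →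
      m ≠ m' → l ≠ l' := by
    intro l l' m m' w w' e e' hw hmm
    rintro rfl
    rcases T.uniq e e' with ⟨-, a⟩ | ⟨-, a⟩
    · exact hmm (congrArg Prod.snd a).symm
    · exact hg.c (by rw [← hw, ← a])
  have neB : ∀ {l m w}, T.E (inl l) (g2, m) w → l ≠ lB := by
    intro l m w e
    rintro rfl
    rcases T.uniq eB e with ⟨a, -⟩ | ⟨a, -⟩ <;> exact hg.c (congrArg Prod.fst a)
  have ney : ∀ {m m' : Mon}, m y ≠ m' y → m ≠ m' := fun h h' => h (by rw [h'])
  have nez : ∀ {m m' : Mon}, m z ≠ m' z → m ≠ m' := fun h h' => h (by rw [h'])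
  have hL : D4 Y.l1 Y.l2 lm lB := by
    refine ⟨fun hh => ?_, ne3 Y.e1 em rfl (ney ?_), neB Y.e1, ne3 Y.e2 em rfl (nez ?_),
      neB Y.e2, neB em⟩
    · rw [hh] at hlt
      omega
    · rw [h31, hD.mky, hD.mky]
      omega
    · rw [h32, hD.mkz, hD.mkz]
      positivity
  obtain rfl : M = 0 := by
    by_contra hM
    rcases hL.all lm' with a | a | a | a
    · refine ne3 Y.e1 em' rfl (ney ?_) a.symm
      rw [h31, hD.mky, hD.mky]
      positivity
    · refine ne3 Y.e2 em' rfl (nez ?_) a.symm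
      rw [h32, hD.mkz, hD.mkz]
      omega
    · refine ne3 em em' rfl (ney ?_) a.symm
      rw [hD.mky, hD.mky]
      intro hh
      have := Nat.eq_of_mul_eq_mul_right (by omega) hh
      omega
    · exact neB em' a
  simp only [zero_add, one_mul] at em h21 h22 h32
  refine Y.fin22 hD A vx vy vz vt hp hn em h22 h32 ?_
  intro l m w e
  have := Y.e1
  have := Y.e2
  rcases hL.all l with rfl | rfl | rfl | rfl
  · rcases T.uniq Y.e1 e with ⟨a, -⟩ | ⟨a, -⟩
    · exact Or.inl ((congrArg Prod.snd a).trans h21)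
    · exact absurd (congrArg Prod.fst a) hg.c
  · rcases T.uniq Y.e2 e with ⟨a, -⟩ | ⟨a, -⟩
    · exact Or.inr (Or.inl ((congrArg Prod.snd a).trans h22))
    · exact absurd (congrArg Prod.fst a) hg.c
  · rcases T.uniq em e with ⟨a, -⟩ | ⟨a, -⟩
    · exact Or.inr (Or.inr (congrArg Prod.snd a))
    · exact absurd (congrArg Prod.fst a) hg.c
  · exact absurd rfl (neB e)

theorem pre22 {x y z t : Fin 4} (hD : D4 x y z t) {x' y' z' t' : Fin 4} (hD' : D4 x' y' z' t')
    (A : Ab T g2 g3 y z y' z') (hd : T.d g3 < T.d g2)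
    (vx : 0 < v x) (vy : 0 < v y) (vz : v z < 0) (vt : v t < 0) (vx' : 0 < v x') (vt' : v t' < 0)
    (a1 : ∀ j, j ≠ x → Y.c2 Y.l1 j = 0) (a2 : ∀ j, j ≠ t → Y.c2 Y.l2 j = 0)
    (a3 : ∀ j, j ≠ x' → Y.c3 Y.l2 j = 0) (a4 : ∀ j, j ≠ t' → Y.c3 Y.l1 j = 0) : False := by
  have hlt := Y.lt
  obtain ⟨N, hN⟩ : ∃ N : ℕ, Y.κ Y.l2 - Y.κ Y.l1 = N := ⟨(Y.κ Y.l2 - Y.κ Y.l1).toNat, by omega⟩
  obtain ⟨i, hi⟩ : ∃ i : ℕ, v x = (i + 1 : ℕ) := ⟨(v x - 1).toNat, by omega⟩
  obtain ⟨j, hj⟩ : ∃ j : ℕ, v y = (j + 1 : ℕ) := ⟨(v y - 1).toNat, by omega⟩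
  obtain ⟨k, hk⟩ : ∃ k : ℕ, v z = -(k + 1 : ℕ) := ⟨(-v z - 1).toNat, by omega⟩
  obtain ⟨h, hh⟩ : ∃ h : ℕ, v t = -(h + 1 : ℕ) := ⟨(-v t - 1).toNat, by omega⟩
  have f := Y.diff Y.e1 Y.e2
  rw [hN] at f
  have fx := f x
  have fy := f y
  have fz := f z
  have ft := f t
  simp only [hi, hj, hk, hh, mul_neg, ← Nat.cast_mul] at fx fy fz ft
  have N0 : 0 < N := by omega
  have p1 : 0 < N * (j + 1) := by positivity
  have p2 : 0 < N * (k + 1) := by positivity
  have b1 := a1 y hD.xy.symm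
  have b2 := a1 z hD.xz.symm
  have b3 := a1 t hD.xt.symm
  have b4 := a2 x hD.xt
  have b5 := a2 y hD.yt
  have b6 := a2 z hD.zt
  obtain rfl : y = x' := by
    by_contra hc
    have := a3 y hc
    omega
  obtain rfl : z = t' := by
    by_contra hc
    have := a4 z hc
    omega
  have b7 := a3 x hD.xy
  have b8 := a3 z hD.yz.symm
  have b9 := a3 t hD.yt.symm
  have b10 := a4 x hD.xz
  have b11 := a4 y hD.yz
  have b12 := a4 t hD.zt.symm
  have main : Ab T g2 g3 y z x t → False := fun A =>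
    Y.core22 hD A hd hi hj hk hh hN (hD.ext (by omega) b1 b2 b3) (hD.ext b10 b11 (by omega) b12)
      (hD.ext b4 b5 b6 (by omega)) (hD.ext b7 (by omega) b8 b9)
  rcases hD'.all x with c | c | c | c
  · exact hD.xy c
  · rcases hD'.all t with c' | c' | c' | c'
    · exact hD.yt c'.symm
    · exact hD.xt (c.trans c'.symm)
    · subst c c'
      exact main A
    · exact hD.zt c'.symm
  · rcases hD'.all t with c' | c' | c' | c'
    · exact hD.yt c'.symm
    · subst c c'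
      exact main A.sw3
    · exact hD.xt (c.trans c'.symm)
    · exact hD.zt c'.symm
  · exact hD.xz c

include Y in
theorem caseY22 (hd : T.d g3 < T.d g2) (h1 : ∀ x, ∃ j, j ≠ x ∧ 0 < v j)
    (h2 : ∀ x, ∃ j, j ≠ x ∧ v j < 0) : False := by
  obtain ⟨x, y, z, t, x', y', z', t', hD, px, pt, hD', px', pt', ⟨A⟩⟩ := Y.above
  have k1 : ∀ x, ¬ ∀ j, j ≠ x → v j ≤ 0 := fun x h => by
    obtain ⟨j, a, b⟩ := h1 x
    have := h j a
    omega
  have k2 : ∀ x, ¬ ∀ j, j ≠ x → 0 ≤ v j := fun x h => by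
    obtain ⟨j, a, b⟩ := h2 x
    have := h j a
    omega
  have a1 := px.2.resolve_right (k1 _)
  have a2 := pt.2.resolve_right (k2 _)
  have a3 := px'.2.resolve_right (k1 _)
  have a4 := pt'.2.resolve_right (k2 _)
  have vx := px.1
  have vt := pt.1
  obtain ⟨j, j1, j2⟩ := h1 x
  obtain ⟨k, k1, k2⟩ := h2 t
  rcases hD.all j with rfl | rfl | rfl | rfl
  · exact j1 rfl
  · rcases hD.all k with rfl | rfl | rfl | rfl
    · omega
    · omega
    · exact Y.pre22 hD hD' A hd vx j2 k2 vt px'.1 pt'.1 a1 a2 a3 a4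
    · exact k1 rfl
  · rcases hD.all k with rfl | rfl | rfl | rfl
    · omega
    · exact Y.pre22 ⟨hD.xz, hD.xy, hD.xt, hD.yz.symm, hD.zt, hD.yt⟩ hD' A.sw2 hd vx j2 k2 vt
        px'.1 pt'.1 a1 a2 a3 a4
    · omega
    · exact k1 rfl
  · omega

end YS

theorem YH.false' {T g2 g3 v u} (h : YH T g2 g3 v u) (hd : T.d g3 < T.d g2) : False := by
  by_cases h1 : ∀ x, ∃ j, j ≠ x ∧ 0 < v j
  · by_cases h2 : ∀ x, ∃ j, j ≠ x ∧ v j < 0
    · obtain ⟨Y⟩ := h.struct
      exact Y.caseY22 hd h1 h2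
    · push Not at h2
      obtain ⟨x, hx⟩ := h2
      obtain ⟨Y⟩ := h.neg.struct
      exact Y.caseY1 (x0 := x) fun j hj => by have := hx j hj; simp only [Pi.neg_apply]; omega
  · push Not at h1
    obtain ⟨x, hx⟩ := h1
    obtain ⟨Y⟩ := h.struct
    exact Y.caseY1 hx

theorem YH.false {T g2 g3 v u} (h : YH T g2 g3 v u) : False := by
  rcases lt_trichotomy (T.d g3) (T.d g2) with hd | hd | hd
  · exact h.false' hd
  · have : dg T.s T.d (g2, 0) = dg T.s T.d (g3, 0) := by simp [dg_mk, hd]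
    exact T.nz this (fun hh => h.hg.c (congrArg Prod.fst hh)) rfl
  · exact h.swap.false' hd

end Pool.Agent.P.MP_1f474f_ag
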