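import Mathlib

set_option linter.unusedSimpArgs false
set_option linter.unusedSectionVars false

namespace Pool.Agent.P.MP_1f474f_ag

open AddMonoidAlgebra Submodule

abbrev Lau (k : Type*) [Field k] (n : ℕ) := AddMonoidAlgebra k (Fin n → ℤ)

def emb (n : ℕ) : (Fin n →₀ ℕ) →+ (Fin n → ℤ) where
  toFun m := fun j => m j
  map_zero' := by funext j; simp
  map_add' a b := by funext j; simp

theorem emb_apply {n : ℕ} (m : Fin n →₀ ℕ) (j : Fin n) : emb n m j = m j := rfl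

theorem emb_inj (n : ℕ) : Function.Injective (emb n) := by
  intro a b h
  ext j
  have := congrFun h j
  simp only [emb_apply] at this
  omega

theorem emb_range {n : ℕ} {α : Fin n → ℤ} (h : ∀ j, 0 ≤ α j) : ∃ m, emb n m = α :=
  ⟨Finsupp.equivFunOnFinite.symm fun j => (α j).toNat, funext fun j => by
    have := h j
    simp only [emb_apply, Finsupp.coe_equivFunOnFinite_symm]
    omega⟩

def wz {n : ℕ} (s : Fin n → ℕ) : (Fin n → ℤ) →+ ℤ where
  toFun α := ∑ j, α j * s j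
  map_zero' := by simp
  map_add' a b := by simp [add_mul, Finset.sum_add_distrib]

theorem wz_single {n : ℕ} (s : Fin n → ℕ) (j : Fin n) (a : ℤ) :
    wz s (Pi.single j a) = a * s j := by
  change ∑ i, (Pi.single j a : Fin n → ℤ) i * (s i : ℤ) = _
  rw [Finset.sum_eq_single j]
  · simp
  · intro i _ hi
    simp [hi]
  · simp

noncomputable def io (k : Type*) [Field k] (n : ℕ) : MvPolynomial (Fin n) k →+* Lau k n :=
  mapDomainRingHom k (emb n)

noncomputable def evL (k : Type*) [Field k] {n : ℕ} (s : Fin n → ℕ) :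
    Lau k n →+* AddMonoidAlgebra k ℤ :=
  mapDomainRingHom k (wz s)

def SZ {n : ℕ} (s : Fin n → ℕ) (D : ℤ) : Prop := ∃ α : Fin n → ℤ, (∀ j, 0 ≤ α j) ∧ wz s α = D

variable {k : Type*} [Field k] {n : ℕ} {J : Type*} [Fintype J] [DecidableEq J]

theorem io_inj : Function.Injective (io k n) := mapDomain_injective (emb_inj n)

theorem io_coeff {p : MvPolynomial (Fin n) k} {β : Fin n → ℤ} (h : (io k n p).coeff β ≠ 0) :
    ∃ m, MvPolynomial.coeff m p ≠ 0 ∧ emb n m = β := by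
  classical
  have h1 : β ∈ (Finsupp.mapDomain (emb n) (AddMonoidAlgebra.coeff p)).support :=
    Finsupp.mem_support_iff.2 h
  obtain ⟨m, hm, rfl⟩ := Finset.mem_image.1 (Finsupp.mapDomain_support h1)
  exact ⟨m, Finsupp.mem_support_iff.1 hm, rfl⟩

theorem io_monomial (m : Fin n →₀ ℕ) (a : k) :
    io k n (MvPolynomial.monomial m a) = single (emb n m) a := mapDomain_single

theorem io_surj {x : Lau k n} (h : ∀ α, x.coeff α ≠ 0 → ∀ j, 0 ≤ α j) : ∃ p, io k n p = x :=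
  ⟨comapDomain (emb n) (emb_inj n) x, mapDomain_comapDomain
    (fun α hα => emb_range (h α (Finsupp.mem_support_iff.1 hα))) _⟩

theorem evL_single (s : Fin n → ℕ) (α : Fin n → ℤ) (a : k) :
    evL k s (single α a) = single (wz s α) a := mapDomain_single

theorem evL_hom (s : Fin n → ℕ) {x : Lau k n} {D : ℤ} (h : ∀ α, x.coeff α ≠ 0 → wz s α = D) :
    ∃ c, evL k s x = single D c := by
  classical
  refine ⟨(evL k s x).coeff D, coeff_injective ?_⟩
  rw [coeff_single]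
  refine Finsupp.support_subset_singleton.1 fun E hE => ?_
  obtain ⟨m, hm, rfl⟩ := Finset.mem_image.1 (Finsupp.mapDomain_support hE)
  simpa using h m (Finsupp.mem_support_iff.1 hm)

theorem mul_coeff {x y : Lau k n} {γ : Fin n → ℤ} (h : (x * y).coeff γ ≠ 0) :
    ∃ α β, x.coeff α ≠ 0 ∧ y.coeff β ≠ 0 ∧ α + β = γ := by
  classical
  obtain ⟨α, hα, β, hβ, rfl⟩ :=
    Finset.mem_add.1 (support_coeff_mul_subset x y (Finsupp.mem_support_iff.2 h))
  exact ⟨α, β, Finsupp.mem_support_iff.1 hα, Finsupp.mem_support_iff.1 hβ, rfl⟩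

/-- vectors whose monomials all satisfy X -/
noncomputable def AA (k : Type*) [Field k] {n : ℕ} {J : Type*} (X : J → (Fin n → ℤ) → Prop) :
    Submodule k (J → Lau k n) where
  carrier := {x | ∀ j α, (x j).coeff α ≠ 0 → X j α}
  add_mem' := fun {a b} ha hb j α h => by
    by_cases h1 : (a j).coeff α = 0
    · refine hb j α fun h2 => h ?_
      simp [coeff_add, h1, h2]
    · exact ha j α h1
  zero_mem' := fun j α h => by simp at h
  smul_mem' := fun c x hx j α h => hx j α fun h2 => h (by simp [coeff_smul, h2])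

theorem AA_mono {X Y : J → (Fin n → ℤ) → Prop} (h : ∀ j α, X j α → Y j α) {x}
    (hx : x ∈ AA k X) : x ∈ AA k Y := fun j α h' => h j α (hx j α h')

theorem AA_and {X Y Z : J → (Fin n → ℤ) → Prop} (h : ∀ j α, X j α → Y j α → Z j α) {x}
    (hx : x ∈ AA k X) (hy : x ∈ AA k Y) : x ∈ AA k Z := fun j α h' => h j α (hx j α h') (hy j α h')

theorem AA_zero {X : J → (Fin n → ℤ) → Prop} (h : ∀ j α, ¬ X j α) {x} (hx : x ∈ AA k X) :
    x = 0 := by
  funext j
  refine coeff_injective (Finsupp.ext fun α => ?_)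
  by_contra hc
  exact h j α (hx j α (by simpa using hc))

theorem AA_split {X : J → (Fin n → ℤ) → Prop} (Y : J → (Fin n → ℤ) → Prop) {x}
    (hx : x ∈ AA k X) : ∃ a b, a ∈ AA k (fun j α => X j α ∧ Y j α) ∧
      b ∈ AA k (fun j α => X j α ∧ ¬ Y j α) ∧ a + b = x := by
  classical
  refine ⟨fun j => ofCoeff ((x j).coeff.filter (Y j)),
    fun j => ofCoeff ((x j).coeff.filter fun α => ¬ Y j α), ?_, ?_, ?_⟩
  · intro j α h
    simp only [Finsupp.filter_apply, ne_eq, ite_eq_right_iff, Classical.not_imp] at h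
    exact ⟨hx j α h.2, h.1⟩
  · intro j α h
    simp only [Finsupp.filter_apply, ne_eq, ite_eq_right_iff, Classical.not_imp] at h
    exact ⟨hx j α h.2, h.1⟩
  · funext j
    refine coeff_injective ?_
    simp only [Pi.add_apply, coeff_add]
    exact Finsupp.filter_add_filter_not _ _

theorem AA_sh {X Y : J → (Fin n → ℤ) → Prop} (β : Fin n → ℤ) (h : ∀ j α, X j α → Y j (β + α)) {x}
    (hx : x ∈ AA k X) : (single β (1 : k) : Lau k n) • x ∈ AA k Y := by
  intro j γ hγ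
  obtain ⟨α, α', h1, h2, rfl⟩ := mul_coeff hγ
  rw [coeff_single, Finsupp.single_apply_ne_zero] at h1
  rw [h1.1]
  exact h j _ (hx j _ h2)

theorem AA_single {X : J → (Fin n → ℤ) → Prop} {j : J} {α : Fin n → ℤ} (h : X j α) (a : k) :
    (Pi.single j (single α a) : J → Lau k n) ∈ AA k X := by
  intro i β hβ
  by_cases hi : i = j
  · subst hi
    rw [Pi.single_eq_same, coeff_single, Finsupp.single_apply_ne_zero] at hβ
    rw [hβ.1]
    exact h
  · simp [hi] at hβ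

theorem AA_bound (j0 : Fin n) (x : J → Lau k n) :
    ∃ N : ℕ, ∀ j α, (x j).coeff α ≠ 0 → 0 ≤ α j0 + N := by
  refine ⟨Finset.univ.sup fun j => (x j).coeff.support.sup fun α => (-α j0).toNat, ?_⟩
  intro j α h
  have h1 : (-α j0).toNat ≤ (x j).coeff.support.sup fun α => (-α j0).toNat :=
    Finset.le_sup (f := fun α : Fin n → ℤ => (-α j0).toNat) (Finsupp.mem_support_iff.2 h)
  have h2 := Finset.le_sup (f := fun j => (x j).coeff.support.sup fun α => (-α j0).toNat)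
    (Finset.mem_univ j)
  omega

theorem sh_sh' (β γ : Fin n → ℤ) (x : J → Lau k n) :
    (single β (1 : k) : Lau k n) • (single γ (1 : k) : Lau k n) • x =
      (single (β + γ) (1 : k) : Lau k n) • x := by
  rw [smul_smul, single_mul_single, one_mul]

theorem sh_zero' (x : J → Lau k n) : (single 0 (1 : k) : Lau k n) • x = x := one_smul _ x

structure Cx (k : Type*) [Field k] (n : ℕ) (J : Type*) [Fintype J] [DecidableEq J] where
  s : Fin n → ℕ
  d : Matrix J J (MvPolynomial (Fin n) k)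
  h : J → ℤ
  g : J → ℤ
  j0 : J
  hom : ∀ i j m, MvPolynomial.coeff m (d i j) ≠ 0 → h j = h i + 1 ∧ g j = g i + wz s (emb n m)
  dd : d * d = 0
  h0 : h j0 = 0
  g0 : g j0 = 0
  hj : ∀ j, h j = 0 → j = j0
  hnn : ∀ j, 0 ≤ h j
  aug : ∀ j, evL k s (io k n (d j0 j)) = 0
  ex : ∀ y, d.mulVec y = 0 → evL k s (io k n (y j0)) = 0 → ∃ q, d.mulVec q = y
  big : ∀ (D : ℤ) j, ∃ M : ℕ, SZ s (D + M * s j)
  npos : 0 < n
  min : ∀ i j, MvPolynomial.coeff 0 (d i j) = 0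

namespace Cx

variable (C : Cx k n J)

noncomputable def D : (J → Lau k n) →ₗ[k] (J → Lau k n) :=
  (Matrix.mulVecLin (C.d.map (io k n))).restrictScalars k

theorem D_apply (x : J → Lau k n) : C.D x = (C.d.map (io k n)).mulVec x := rfl

theorem D_sh (a : Lau k n) (x : J → Lau k n) : C.D (a • x) = a • C.D x := by
  rw [D_apply, D_apply, Matrix.mulVec_smul]

theorem D_D (x : J → Lau k n) : C.D (C.D x) = 0 := by
  rw [D_apply, D_apply, Matrix.mulVec_mulVec, ← Matrix.map_mul, C.dd]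
  simp

theorem D_io (y : J → MvPolynomial (Fin n) k) :
    C.D (fun j => io k n (y j)) = fun j => io k n (C.d.mulVec y j) := by
  funext i
  rw [D_apply, RingHom.map_mulVec]
  rfl

theorem D_aug (x : J → Lau k n) : evL k C.s (C.D x C.j0) = 0 := by
  simp [D_apply, Matrix.mulVec, dotProduct, map_sum, C.aug]

theorem D_map {X Y : J → (Fin n → ℤ) → Prop}
    (h : ∀ i j m α, MvPolynomial.coeff m (C.d i j) ≠ 0 → X j α → Y i (emb n m + α)) {x}
    (hx : x ∈ AA k X) : C.D x ∈ AA k Y := by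
  intro i γ hγ
  rw [D_apply, Matrix.mulVec, dotProduct, coeff_sum, Finsupp.finsetSum_apply] at hγ
  obtain ⟨j, -, hj⟩ := Finset.exists_ne_zero_of_sum_ne_zero hγ
  obtain ⟨β, α, h1, h2, rfl⟩ := mul_coeff hj
  obtain ⟨m, hm, rfl⟩ := io_coeff h1
  exact h i j m α hm (hx j α h2)

/-- graded pieces -/
noncomputable def A (W : (Fin n → ℤ) → Prop) (i E : ℤ) : Submodule k (J → Lau k n) :=
  AA k fun j α => W α ∧ C.h j = i ∧ C.g j + wz C.s α = E

def Up (W : (Fin n → ℤ) → Prop) : Prop := ∀ α β : Fin n → ℤ, (∀ j, 0 ≤ β j) → W α → W (β + α)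

theorem D_A {W} (hW : Up W) {i i' E : ℤ} {x} (hx : x ∈ C.A W i E) (hi : i = i' + 1) :
    C.D x ∈ C.A W i' E := by
  refine C.D_map ?_ hx
  rintro a b m α hm ⟨h1, h2, h3⟩
  obtain ⟨h4, h5⟩ := C.hom a b m hm
  refine ⟨hW _ _ (fun j => by simp [emb_apply]) h1, by omega, ?_⟩
  rw [map_add]
  omega

theorem A_sh {W W' : (Fin n → ℤ) → Prop} (β : Fin n → ℤ) (h : ∀ α, W α → W' (β + α))
    {i E E' : ℤ} {x} (hx : x ∈ C.A W i E) (hE : E' = E + wz C.s β) :
    (single β (1 : k) : Lau k n) • x ∈ C.A W' i E' := by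
  refine AA_sh β ?_ hx
  rintro j α ⟨h1, h2, h3⟩
  refine ⟨h α h1, h2, ?_⟩
  rw [map_add]
  omega

theorem A_mono {W W' : (Fin n → ℤ) → Prop} (h : ∀ α, W α → W' α) {i E : ℤ} {x}
    (hx : x ∈ C.A W i E) : x ∈ C.A W' i E :=
  AA_mono (fun _ α h' => ⟨h α h'.1, h'.2⟩) hx

theorem A_and {W W' W'' : (Fin n → ℤ) → Prop} (h : ∀ α, W α → W' α → W'' α) {i E : ℤ} {x}
    (hx : x ∈ C.A W i E) (hx' : x ∈ C.A W' i E) : x ∈ C.A W'' i E :=
  AA_and (fun _ α h1 h2 => ⟨h α h1.1 h2.1, h1.2⟩) hx hx'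

noncomputable def Bd (W W' : (Fin n → ℤ) → Prop) (i E : ℤ) : Submodule k (J → Lau k n) :=
  (C.A W (i + 1) E).map C.D ⊔ C.A W' i E

theorem mem_Bd {W W' : (Fin n → ℤ) → Prop} {i E : ℤ} {x} :
    x ∈ C.Bd W W' i E ↔ ∃ b ∈ C.A W (i + 1) E, x - C.D b ∈ C.A W' i E := by
  constructor
  · intro h
    obtain ⟨_, ⟨b, hb, rfl⟩, v, hv, rfl⟩ := mem_sup.1 h
    exact ⟨b, hb, by simpa using hv⟩
  · rintro ⟨b, hb, hv⟩
    exact mem_sup.2 ⟨_, ⟨b, hb, rfl⟩, _, hv, by simp⟩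

theorem Bd_sh {W1 W2 W1' W2' : (Fin n → ℤ) → Prop} (β : Fin n → ℤ)
    (h1 : ∀ α, W1 α → W1' (β + α)) (h2 : ∀ α, W2 α → W2' (β + α)) {i E E' : ℤ} {x}
    (hx : x ∈ C.Bd W1 W2 i E) (hE : E' = E + wz C.s β) :
    (single β (1 : k) : Lau k n) • x ∈ C.Bd W1' W2' i E' := by
  obtain ⟨b, hb, hv⟩ := C.mem_Bd.1 hx
  refine C.mem_Bd.2 ⟨_, C.A_sh β h1 hb hE, ?_⟩
  rw [D_sh, ← smul_sub]
  exact C.A_sh β h2 hv hE

end Cx

def UU (n m : ℕ) (α : Fin n → ℤ) : Prop := ∀ j : Fin n, m ≤ j.val → 0 ≤ α j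
def VV (n m : ℕ) (α : Fin n → ℤ) : Prop := UU n m α ∧ ∃ j : Fin n, j.val < m ∧ 0 ≤ α j
def VW (n m : ℕ) (α : Fin n → ℤ) : Prop := UU n (m + 1) α ∧ ∃ j : Fin n, j.val < m ∧ 0 ≤ α j

theorem UU_up (n m : ℕ) : Cx.Up (UU n m) := fun α β h1 h2 j hj => by
  have := h1 j
  have := h2 j hj
  simp only [Pi.add_apply]
  omega

theorem VV_up (n m : ℕ) : Cx.Up (VV n m) := fun α β h1 h2 => by
  refine ⟨UU_up n m α β h1 h2.1, ?_⟩
  obtain ⟨j, a, b⟩ := h2.2
  have := h1 j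
  exact ⟨j, a, by simp only [Pi.add_apply]; omega⟩

theorem VW_up (n m : ℕ) : Cx.Up (VW n m) := fun α β h1 h2 => by
  refine ⟨UU_up n _ α β h1 h2.1, ?_⟩
  obtain ⟨j, a, b⟩ := h2.2
  have := h1 j
  exact ⟨j, a, by simp only [Pi.add_apply]; omega⟩

theorem single_nonneg' (j : Fin n) (N : ℕ) (i : Fin n) :
    0 ≤ (Pi.single j (N : ℤ) : Fin n → ℤ) i := by
  by_cases h : i = j
  · subst h
    simp
  · simp [h]

structure Zig (C : Cx k n J) (m : ℕ) where
  κ : ℤ → J → Lau k n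
  mem : ∀ E, κ E ∈ C.A (UU n m) (m - 1) E
  cyc : ∀ E, C.D (κ E) ∈ C.A (VV n m) (m - 2) E
  all : ∀ i E x, x ∈ C.A (UU n m) i E → C.D x ∈ C.A (VV n m) (i - 1) E →
    ∃ c : k, x - c • κ E ∈ C.Bd (UU n m) (VV n m) i E ∧ (i ≠ m - 1 → c = 0)
  zero : ∀ E, κ E ∈ C.Bd (UU n m) (VV n m) (m - 1) E ↔ SZ C.s E
  mul : ∀ E j, (single (Pi.single j 1) (1 : k) : Lau k n) • κ E - κ (E + C.s j) ∈
    C.Bd (UU n m) (VV n m) (m - 1) (E + C.s j)

namespace Zig

variable {C : Cx k n J} {m : ℕ} (Z : Zig C m)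

theorem mulN (j : Fin n) (E : ℤ) (N : ℕ) :
    (single (Pi.single j (N : ℤ)) (1 : k) : Lau k n) • Z.κ E - Z.κ (E + N * C.s j) ∈
      C.Bd (UU n m) (VV n m) (m - 1) (E + N * C.s j) := by
  induction N with
  | zero =>
    simp only [Nat.cast_zero, Pi.single_zero, sh_zero', zero_mul, add_zero, sub_self]
    exact zero_mem _
  | succ N ih =>
    have h1 := C.Bd_sh (Pi.single j ((1 : ℕ) : ℤ))
      (fun α h => UU_up n m α _ (single_nonneg' j 1) h)
      (fun α h => VV_up n m α _ (single_nonneg' j 1) h) ih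
      (E' := E + N * C.s j + C.s j) (by rw [wz_single]; simp)
    have h2 := Z.mul (E + N * C.s j) j
    have h3 := add_mem h1 h2
    have e1 : E + ((N + 1 : ℕ) : ℤ) * C.s j = E + N * C.s j + C.s j := by push_cast; ring
    rw [e1]
    convert h3 using 1
    rw [smul_sub, sh_sh', ← Pi.single_add]
    simp [add_comm]

include Z in
theorem loc (hm : m < n) {i E : ℤ} {x} (hx : x ∈ C.A (UU n (m + 1)) i E)
    (hd : C.D x ∈ C.A (VW n m) (i - 1) E) : x ∈ C.Bd (UU n (m + 1)) (VW n m) i E := by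
  obtain ⟨N, hN⟩ := AA_bound ⟨m, hm⟩ x
  have h1 : (single (Pi.single ⟨m, hm⟩ (N : ℤ)) (1 : k) : Lau k n) • x ∈
      C.A (UU n m) i (E + N * C.s ⟨m, hm⟩) := by
    have : x ∈ C.A (fun α => UU n (m + 1) α ∧ 0 ≤ α ⟨m, hm⟩ + N) i E :=
      fun j α h => ⟨⟨(hx j α h).1, hN j α h⟩, (hx j α h).2⟩
    refine C.A_sh _ ?_ this (by rw [wz_single])
    rintro α ⟨a1, a2⟩ j hj
    by_cases h : j = ⟨m, hm⟩
    · subst h
      simp only [Pi.add_apply, Pi.single_eq_same]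
      omega
    · have : m + 1 ≤ j.val := by
        have : j.val ≠ m := fun hh => h (Fin.ext hh)
        omega
      simp [h, a1 j this]
  have h2 := C.D_A (UU_up n m) h1 (i' := i - 1) (by ring)
  have h3 := C.A_sh (Pi.single ⟨m, hm⟩ (N : ℤ))
    (fun α h => VW_up n m α _ (single_nonneg' _ N) h) hd (E' := E + N * C.s ⟨m, hm⟩)
    (by rw [wz_single])
  rw [← C.D_sh] at h3
  obtain ⟨c, c1, c2⟩ := Z.all i _ _ h1 (C.A_and (fun α a b => ⟨a, b.2⟩) h2 h3)
  obtain ⟨M, hM⟩ := C.big (E + N * C.s ⟨m, hm⟩) ⟨m, hm⟩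
  have h4 := C.Bd_sh (Pi.single ⟨m, hm⟩ (M : ℤ))
    (fun α h => UU_up n m α _ (single_nonneg' _ M) h)
    (fun α h => VV_up n m α _ (single_nonneg' _ M) h) c1
    (E' := E + N * C.s ⟨m, hm⟩ + M * C.s ⟨m, hm⟩) (by rw [wz_single])
  rw [smul_sub, smul_comm _ c, sh_sh'] at h4
  have h5 : c • (single (Pi.single ⟨m, hm⟩ (M : ℤ)) (1 : k) : Lau k n) •
      Z.κ (E + N * C.s ⟨m, hm⟩) ∈
      C.Bd (UU n m) (VV n m) i (E + N * C.s ⟨m, hm⟩ + M * C.s ⟨m, hm⟩) := by
    by_cases hi : i = m - 1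
    · subst hi
      refine smul_mem _ _ ?_
      have := add_mem (Z.mulN ⟨m, hm⟩ _ M) ((Z.zero _).2 hM)
      simpa using this
    · rw [c2 hi, zero_smul]
      exact zero_mem _
  have h6 := add_mem h4 h5
  rw [sub_add_cancel] at h6
  have h7 := C.Bd_sh (W1' := UU n (m + 1)) (W2' := VW n m)
    (-(Pi.single ⟨m, hm⟩ (M : ℤ) + Pi.single ⟨m, hm⟩ (N : ℤ))) ?_ ?_ h6 (E' := E)
    (by rw [map_neg, map_add, wz_single, wz_single]; ring)
  · rwa [sh_sh', neg_add_cancel, sh_zero'] at h7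
  · intro α a j hj
    have : j ≠ ⟨m, hm⟩ := by
      rintro rfl
      simp at hj
    simp [this, a j (by omega)]
  · rintro α ⟨a, j', b1, b2⟩
    refine ⟨fun j hj => ?_, j', b1, ?_⟩
    · have : j ≠ ⟨m, hm⟩ := by
        rintro rfl
        simp at hj
      simp [this, a j (by omega)]
    · have : j' ≠ ⟨m, hm⟩ := by
        rintro rfl
        simp at b1
      simp [this, b2]

theorem step (Z : Zig C m) (hm : m < n) : Nonempty (Zig C (m + 1)) := by
  have u1 : ∀ α, UU n m α → UU n (m + 1) α := fun α h j hj => h j (by omega)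
  have u2 : ∀ α, VV n m α → VW n m α := fun α h => ⟨u1 α h.1, h.2⟩
  have u3 : ∀ α, UU n m α → VV n (m + 1) α := fun α h =>
    ⟨u1 α h, ⟨m, hm⟩, by simp, h _ (by simp)⟩
  have u4 : ∀ α, VW n m α → VV n (m + 1) α := fun α ⟨h, j, a, b⟩ => ⟨h, j, by omega, b⟩
  have u5 : ∀ α, VV n (m + 1) α → ¬ UU n m α → VW n m α := by
    rintro α ⟨a, j, b, c⟩ h
    refine ⟨a, j, ?_, c⟩
    by_contra hc
    refine h fun j' hj' => ?_
    by_cases h' : j' = j
    · exact h' ▸ c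
    · have : j'.val ≠ j.val := fun hh => h' (Fin.ext hh)
      exact a j' (by omega)
  have hκ : ∀ E, ∃ b ∈ C.A (UU n (m + 1)) (m - 1 + 1) E, Z.κ E - C.D b ∈ C.A (VW n m) (m - 1) E :=
    fun E => C.mem_Bd.1 (Z.loc hm (C.A_mono u1 (Z.mem E))
      (by simpa [sub_sub, one_add_one_eq_two] using C.A_mono u2 (Z.cyc E)))
  choose κ' k1 k2 using hκ
  have e1 : ((m + 1 : ℕ) : ℤ) - 1 = m - 1 + 1 := by push_cast; ring
  have e2 : ((m + 1 : ℕ) : ℤ) - 2 = m - 1 := by push_cast; ring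
  have fin : ∀ {i E x b}, x ∈ C.A (UU n (m + 1)) i E → b ∈ C.A (UU n m) i E →
      C.D (x - b) ∈ C.A (VW n m) (i - 1) E → x ∈ C.Bd (UU n (m + 1)) (VV n (m + 1)) i E := by
    intro i E x b hx hb hd
    obtain ⟨y, hy, hv⟩ := C.mem_Bd.1 (Z.loc hm (sub_mem hx (C.A_mono u1 hb)) hd)
    refine C.mem_Bd.2 ⟨y, hy, ?_⟩
    have := add_mem (C.A_mono u4 hv) (C.A_mono u3 hb)
    convert this using 1
    abel
  refine ⟨⟨κ', fun E => e1 ▸ k1 E, fun E => ?_, ?_, fun E => ⟨?_, ?_⟩, ?_⟩⟩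
  · rw [e2]
    have := sub_mem (C.A_mono u3 (Z.mem E)) (C.A_mono u4 (k2 E))
    simpa using this
  · intro i E x hx hd
    obtain ⟨a, v, ha, hv, hav⟩ := AA_split (fun _ α => UU n m α) hd
    have ha' : a ∈ C.A (UU n m) (i - 1) E := AA_mono (fun _ _ h => ⟨h.2, h.1.2⟩) ha
    have hv' : v ∈ C.A (VW n m) (i - 1) E :=
      AA_mono (fun _ α h => ⟨u5 α h.1.1 h.2, h.1.2⟩) hv
    have h1 : C.D a = - C.D v := by
      rw [eq_neg_iff_add_eq_zero, ← map_add, hav, C.D_D]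
    have h2 : C.D a ∈ C.A (VW n m) (i - 1 - 1) E := by
      rw [h1]
      exact neg_mem (C.D_A (VW_up n m) hv' (by ring))
    obtain ⟨c, c1, c2⟩ := Z.all (i - 1) E a ha' (C.A_and (fun α a b => ⟨a, b.2⟩)
      (C.D_A (UU_up n m) ha' (by ring)) h2)
    obtain ⟨b, hb, hw⟩ := C.mem_Bd.1 c1
    rw [sub_add_cancel] at hb
    refine ⟨c, ?_, fun hi => c2 (by push_cast at hi; omega)⟩
    by_cases hi : i = m
    · subst hi
      have k1' := k1 E
      rw [sub_add_cancel] at k1'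
      refine fin (sub_mem hx (smul_mem _ c k1')) hb ?_
      have := add_mem (add_mem (C.A_mono u2 hw) hv') (smul_mem _ c (k2 E))
      convert this using 1
      rw [map_sub, map_sub, map_smul, ← hav, smul_sub]
      abel
    · have hc := c2 (by omega)
      subst hc
      rw [zero_smul, sub_zero] at hw ⊢
      refine fin hx hb ?_
      have := add_mem (C.A_mono u2 hw) hv'
      convert this using 1
      rw [map_sub, ← hav]
      abel
  · intro h
    rw [e1] at h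
    obtain ⟨y, hy, hw⟩ := C.mem_Bd.1 h
    obtain ⟨a, v, ha, hv, hav⟩ := AA_split (fun _ α => UU n m α) hw
    have ha' : a ∈ C.A (UU n m) (m - 1 + 1) E := AA_mono (fun _ _ h => ⟨h.2, h.1.2⟩) ha
    have hv' : v ∈ C.A (VW n m) (m - 1 + 1) E :=
      AA_mono (fun _ α h => ⟨u5 α h.1.1 h.2, h.1.2⟩) hv
    refine (Z.zero E).1 (C.mem_Bd.2 ⟨a, ha', C.A_and (W' := VW n m) (fun α a b => ⟨a, b.2⟩)
      (sub_mem (Z.mem E) (C.D_A (UU_up n m) ha' rfl)) ?_⟩)
    have h1 := congrArg C.D hav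
    rw [map_add, map_sub, C.D_D, sub_zero] at h1
    have := add_mem (k2 E) (C.D_A (VW_up n m) hv' rfl)
    convert this using 1
    rw [← h1]
    abel
  · intro h
    obtain ⟨b, hb, hw⟩ := C.mem_Bd.1 ((Z.zero E).2 h)
    rw [e1]
    refine fin (k1 E) hb ?_
    rw [add_sub_cancel_right]
    have := sub_mem (C.A_mono u2 hw) (k2 E)
    convert this using 1
    rw [map_sub]
    abel
  · intro E j
    obtain ⟨b, hb, hw⟩ := C.mem_Bd.1 (Z.mul E j)
    rw [e1]
    have s1 : ∀ i, 0 ≤ (Pi.single j (1 : ℤ) : Fin n → ℤ) i := single_nonneg' j 1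
    refine fin (sub_mem (C.A_sh _ (fun α h => UU_up n _ α _ s1 h) (k1 E)
      (by rw [wz_single, one_mul])) (k1 _)) hb ?_
    rw [add_sub_cancel_right]
    have := add_mem (sub_mem (C.A_mono u2 hw) (C.A_sh _ (fun α h => VW_up n _ α _ s1 h) (k2 E)
      (by rw [wz_single, one_mul]))) (k2 (E + C.s j))
    convert this using 1
    rw [map_sub, map_sub, C.D_sh, smul_sub]
    abel

end Zig

end Pool.Agent.P.MP_1f474f_ag
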