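import Pool.Agent.P.MP_1f474f_ag.Dual1

set_option linter.unusedSimpArgs false
set_option linter.unusedSectionVars false

namespace Pool.Agent.P.MP_1f474f_ag

open AddMonoidAlgebra Submodule

variable {k : Type*} [Field k] {n : ℕ} {J : Type*} [Fintype J] [DecidableEq J]

def NN (n : ℕ) (α : Fin n → ℤ) : Prop := ∀ j, 0 ≤ α j

theorem NN_up (n : ℕ) : Cx.Up (NN n) := fun α β h1 h2 j => by
  have := h1 j
  have := h2 j
  simp only [Pi.add_apply]
  omega

theorem VV_one (hn : 0 < n) (α : Fin n → ℤ) : VV n 1 α ↔ NN n α := by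
  constructor
  · rintro ⟨a, j, b, c⟩ i
    by_cases h : i = j
    · exact h ▸ c
    · have : i.val ≠ j.val := fun hh => h (Fin.ext hh)
      exact a i (by omega)
  · intro h
    exact ⟨fun j _ => h j, ⟨0, hn⟩, by simp, h _⟩

namespace Cx

variable (C : Cx k n J)

theorem exP {i E : ℤ} {p} (hp : p ∈ C.A (NN n) i E) (h1 : C.D p = 0)
    (h2 : evL k C.s (p C.j0) = 0) : ∃ q ∈ C.A (NN n) (i + 1) E, C.D q = p := by
  choose y hy using fun j => io_surj (x := p j) fun α h => (hp j α h).1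
  have hp' : p = fun j => io k n (y j) := funext fun j => (hy j).symm
  obtain ⟨q, hq⟩ := C.ex y (by
    funext j
    apply io_inj
    have := congrFun (C.D_io y) j
    rw [← hp', h1] at this
    rw [← this]
    simp) (by rw [hy, h2])
  have h3 : (fun j => io k n (q j)) ∈ AA k (fun (_ : J) α => NN n α) := by
    intro j α h
    obtain ⟨m, -, rfl⟩ := io_coeff h
    exact fun i => by simp [emb_apply]
  obtain ⟨a, b, ha, hb, hab⟩ :=
    AA_split (fun j α => C.h j = i + 1 ∧ C.g j + wz C.s α = E) h3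
  have h4 : C.D a + C.D b = p := by rw [← map_add, hab, C.D_io, hq, ← hp']
  have h5 : C.D a ∈ C.A (NN n) i E := C.D_A (NN_up n) ha rfl
  have h6 : C.D b ∈ AA k (fun j α => ¬ (C.h j = i ∧ C.g j + wz C.s α = E)) := by
    refine C.D_map ?_ hb
    rintro a b m α hm ⟨-, h1⟩ ⟨h2, h3⟩
    obtain ⟨h4, h5⟩ := C.hom a b m hm
    rw [map_add] at h3
    exact h1 ⟨by omega, by omega⟩
  have h7 : C.D b ∈ C.A (NN n) i E := by
    rw [eq_sub_of_add_eq' h4]
    exact sub_mem hp h5
  have h8 : C.D b = 0 :=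
    AA_zero (X := fun _ _ => False) (fun _ _ => id) (AA_and (fun j α a b => a b.2) h6 h7)
  exact ⟨a, ha, by rw [← h4, h8, add_zero]⟩

theorem exU {i E : ℤ} {x} (hx : x ∈ C.A (UU n 1) i E) (h1 : C.D x = 0)
    (h2 : evL k C.s (x C.j0) = 0) : ∃ q ∈ C.A (UU n 1) (i + 1) E, C.D q = x := by
  obtain ⟨N, hN⟩ := AA_bound ⟨0, C.npos⟩ x
  have h3 : (single (Pi.single ⟨0, C.npos⟩ (N : ℤ)) (1 : k) : Lau k n) • x ∈
      C.A (NN n) i (E + N * C.s ⟨0, C.npos⟩) := by
    have : x ∈ C.A (fun α => UU n 1 α ∧ 0 ≤ α ⟨0, C.npos⟩ + N) i E :=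
      fun j α h => ⟨⟨(hx j α h).1, hN j α h⟩, (hx j α h).2⟩
    refine C.A_sh _ ?_ this (by rw [wz_single])
    rintro α ⟨a1, a2⟩ j
    by_cases h : j = ⟨0, C.npos⟩
    · subst h
      simp only [Pi.add_apply, Pi.single_eq_same]
      omega
    · have : 1 ≤ j.val := by
        have : j.val ≠ 0 := fun hh => h (Fin.ext hh)
        omega
      simp [h, a1 j this]
  obtain ⟨q, hq, hq'⟩ := C.exP h3 (by rw [C.D_sh, h1, smul_zero])
    (by rw [Pi.smul_apply, smul_eq_mul, map_mul, h2, mul_zero])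
  refine ⟨_, C.A_sh (-Pi.single ⟨0, C.npos⟩ (N : ℤ)) ?_ hq (by rw [map_neg, wz_single]; ring), ?_⟩
  · intro α a j hj
    have : j ≠ ⟨0, C.npos⟩ := by
      rintro rfl
      simp at hj
    simp [this, a j]
  · rw [C.D_sh, hq', sh_sh', neg_add_cancel, sh_zero']

theorem A_neg {W} {E : ℤ} {x} (hx : x ∈ C.A W (-1) E) : x = 0 :=
  AA_zero (fun j α h => by have := C.hnn j; omega) hx

theorem ex0 {E : ℤ} {x} (hx : x ∈ C.A (UU n 1) 0 E) (h2 : evL k C.s (x C.j0) = 0) :
    x ∈ C.Bd (UU n 1) (VV n 1) 0 E := by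
  obtain ⟨q, hq, hq'⟩ := C.exU hx (C.A_neg (C.D_A (UU_up n 1) hx (by ring))) h2
  exact C.mem_Bd.2 ⟨q, hq, by rw [hq', sub_self]; exact zero_mem _⟩

theorem base : Nonempty (Zig C 1) := by
  have h1 : ∀ E : ℤ, ∃ α, UU n 1 α ∧ wz C.s α = E := by
    intro E
    obtain ⟨M, α, a1, a2⟩ := C.big E ⟨0, C.npos⟩
    refine ⟨α - Pi.single ⟨0, C.npos⟩ (M : ℤ), fun j hj => ?_, by rw [map_sub, wz_single]; omega⟩
    have : j ≠ ⟨0, C.npos⟩ := by
      rintro rfl
      simp at hj
    simp [this, a1 j]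
  choose α a1 a2 using h1
  have hs : ∀ β, UU n 1 β → (Pi.single C.j0 (single β (1 : k)) : J → Lau k n) ∈
      C.A (UU n 1) 0 (wz C.s β) := fun β h => AA_single ⟨h, C.h0, by rw [C.g0, zero_add]⟩ _
  have hm : ∀ E, (Pi.single C.j0 (single (α E) (1 : k)) : J → Lau k n) ∈ C.A (UU n 1) 0 E :=
    fun E => by simpa only [a2] using hs _ (a1 E)
  have e0 : ((1 : ℕ) : ℤ) - 1 = 0 := by simp
  refine ⟨⟨fun E => Pi.single C.j0 (single (α E) 1), fun E => e0 ▸ hm E, fun E => ?_, ?_,
    fun E => ⟨?_, ?_⟩, ?_⟩⟩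
  · rw [C.A_neg (C.D_A (UU_up n 1) (hm E) (by ring))]
    exact zero_mem _
  · intro i E x hx hd
    by_cases hi : i = 0
    · subst hi
      obtain ⟨c, hc⟩ := evL_hom C.s (x := x C.j0) (D := E) fun β h => by
        have := (hx _ β h).2.2
        rwa [C.g0, zero_add] at this
      refine ⟨c, C.ex0 (sub_mem hx (smul_mem _ _ (hm E))) ?_, fun h => absurd e0.symm h⟩
      rw [Pi.sub_apply, Pi.smul_apply, Pi.single_eq_same, smul_single, map_sub, hc, evL_single, a2]
      simp
    · refine ⟨0, ?_, fun _ => rfl⟩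
      rw [zero_smul, sub_zero]
      obtain ⟨q, hq, hq'⟩ := C.exP (C.A_mono (fun β h => (VV_one C.npos β).1 h) hd) (C.D_D x)
        (C.D_aug x)
      rw [sub_add_cancel] at hq
      have hq2 := C.A_mono (W' := UU n 1) (fun β h j _ => h j) hq
      obtain ⟨y, hy, hy'⟩ := C.exU (sub_mem hx hq2) (by rw [map_sub, hq', sub_self]) (by
        have : (x - q) C.j0 = 0 := by
          refine coeff_injective (Finsupp.ext fun β => ?_)
          by_contra hc
          exact hi (((sub_mem hx hq2) _ β (by simpa using hc)).2.1.symm.trans C.h0)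
        rw [this, map_zero])
      refine C.mem_Bd.2 ⟨y, hy, ?_⟩
      rw [hy', sub_sub_cancel]
      exact C.A_mono (fun β h => (VV_one C.npos β).2 h) hq
  · intro h
    obtain ⟨y, -, hw⟩ := C.mem_Bd.1 h
    by_contra hc
    have h2 : (Pi.single C.j0 (single (α E) (1 : k)) : J → Lau k n) - C.D y = 0 :=
      AA_zero (fun j β h => hc ⟨β, (VV_one C.npos β).1 h.1, by
        have := h.2.2
        rwa [C.hj j (h.2.1.trans e0), C.g0, zero_add] at this⟩) hw
    have h3 := congrArg (fun x => evL k C.s (x C.j0)) h2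
    simp only [Pi.sub_apply, Pi.single_eq_same, map_sub, C.D_aug, evL_single, Pi.zero_apply,
      map_zero, sub_zero, single_eq_zero] at h3
    exact one_ne_zero h3
  · rintro ⟨β, b1, rfl⟩
    rw [e0]
    have h2 := C.ex0 (sub_mem (hm (wz C.s β)) (hs β fun j _ => b1 j)) (by
      simp only [Pi.sub_apply, Pi.single_eq_same, map_sub, evL_single, a2, sub_self])
    have h3 : (Pi.single C.j0 (single β (1 : k)) : J → Lau k n) ∈
        C.Bd (UU n 1) (VV n 1) 0 (wz C.s β) :=
      mem_sup_right (AA_single ⟨(VV_one C.npos β).2 b1, C.h0, by rw [C.g0, zero_add]⟩ _)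
    simpa using add_mem h2 h3
  · intro E j
    rw [e0]
    refine C.ex0 (sub_mem (C.A_sh _ (fun α h => UU_up n _ α _ (single_nonneg' j 1) h) (hm E)
      (by rw [wz_single]; simp)) (hm _)) ?_
    simp only [Pi.sub_apply, Pi.smul_apply, Pi.single_eq_same, smul_eq_mul, single_mul_single,
      map_sub, evL_single, map_add, a2, wz_single, one_mul, add_comm, sub_self]

theorem zig : Nonempty (Zig C n) := by
  have : ∀ m, m + 1 ≤ n → Nonempty (Zig C (m + 1)) := by
    intro m
    induction m with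
    | zero => exact fun _ => C.base
    | succ m ih =>
      intro h
      obtain ⟨Z⟩ := ih (by omega)
      exact Z.step (by omega)
  have h := this (n - 1) (by have := C.npos; omega)
  rwa [Nat.sub_add_cancel C.npos] at h

end Cx

theorem pair_coeff (e : J → Lau k n) (α : Fin n → ℤ) (y : J → MvPolynomial (Fin n) k)
    (Λ : (J → MvPolynomial (Fin n) k) →ₗ[k] k)
    (h : ∀ j m, MvPolynomial.coeff m (y j) ≠ 0 →
      Λ (Pi.single j (MvPolynomial.monomial m 1)) = (e j).coeff (-emb n m + α)) :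
    ((fun j => io k n (y j)) ⬝ᵥ e).coeff α = Λ y := by
  conv_rhs => rw [← Finset.univ_sum_single y, map_sum]
  rw [dotProduct, coeff_sum, Finsupp.finsetSum_apply]
  refine Finset.sum_congr rfl fun j _ => ?_
  conv_lhs => rw [(y j).as_sum, map_sum, Finset.sum_mul, coeff_sum, Finsupp.finsetSum_apply]
  conv_rhs => rw [(y j).as_sum, ← LinearMap.single_apply k, map_sum, map_sum]
  refine Finset.sum_congr rfl fun m hm => ?_
  rw [io_monomial, coeff_single_mul_apply, ← h j m (MvPolynomial.mem_support_iff.1 hm),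
    ← smul_eq_mul, ← map_smul, LinearMap.single_apply, ← Pi.single_smul, MvPolynomial.smul_monomial,
    smul_eq_mul, mul_one]

theorem wz_nonneg (s : Fin n → ℕ) {α : Fin n → ℤ} (h : ∀ j, 0 ≤ α j) : 0 ≤ wz s α := by
  change 0 ≤ ∑ j, α j * (s j : ℤ)
  exact Finset.sum_nonneg fun j _ => mul_nonneg (h j) (by positivity)

theorem wz_finite (s : Fin n → ℕ) (hs : ∀ j, 0 < s j) (c : ℤ) :
    {m : Fin n →₀ ℕ | wz s (emb n m) = c}.Finite := by
  refine (Set.finite_Iic (Finsupp.equivFunOnFinite.symm fun _ => c.toNat)).subset ?_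
  intro m hm j
  have h1 : (m j : ℤ) * s j ≤ wz s (emb n m) :=
    Finset.single_le_sum (f := fun j => emb n m j * (s j : ℤ))
      (fun i _ => by simp only [emb_apply]; positivity) (Finset.mem_univ j)
  have h2 : wz s (emb n m) = c := hm
  have h3 : (m j : ℤ) * 1 ≤ m j * s j :=
    mul_le_mul_of_nonneg_left (by have := hs j; omega) (by positivity)
  simp only [Finsupp.coe_equivFunOnFinite_symm]
  omega

theorem VV_top (α : Fin n → ℤ) : VV n n α ↔ ∃ j, 0 ≤ α j :=
  ⟨fun ⟨_, j, _, h⟩ => ⟨j, h⟩, fun ⟨j, h⟩ => ⟨fun i hi => by omega, j, j.2, h⟩⟩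

theorem UU_top (α : Fin n → ℤ) : UU n n α := fun i hi => by omega

theorem neg_notVV (m : Fin n →₀ ℕ) : ¬ VV n n (-emb n m + -1) := by
  rw [VV_top]
  rintro ⟨j, hj⟩
  simp only [Pi.add_apply, Pi.neg_apply, emb_apply, Pi.one_apply] at hj
  omega

theorem notVV_neg {α : Fin n → ℤ} (h : ¬ VV n n α) : ∃ m, α = -emb n m + -1 := by
  rw [VV_top] at h
  push Not at h
  obtain ⟨m, hm⟩ := emb_range (α := -α + -1) fun j => by
    have := h j
    simp only [Pi.add_apply, Pi.neg_apply, Pi.one_apply]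
    omega
  exact ⟨m, by rw [hm]; abel⟩

namespace Cx

variable (C : Cx k n J)

theorem soc (j : J) : (Pi.single j (single (-1) (1 : k)) : J → Lau k n) ∈
    C.A (UU n n) (C.h j) (C.g j + wz C.s (-1)) ∧
    C.D (Pi.single j (single (-1) (1 : k))) ∈ C.A (VV n n) (C.h j - 1) (C.g j + wz C.s (-1)) := by
  have h1 : (Pi.single j (single (-1) (1 : k)) : J → Lau k n) ∈
      C.A (fun α => α = -1) (C.h j) (C.g j + wz C.s (-1)) := AA_single ⟨rfl, rfl, rfl⟩ _
  refine ⟨C.A_mono (fun α _ => UU_top α) h1, C.D_map ?_ h1⟩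
  rintro a b m α hm ⟨rfl, h2, h3⟩
  obtain ⟨h4, h5⟩ := C.hom a b m hm
  refine ⟨?_, by omega, by rw [map_add]; omega⟩
  rw [VV_top]
  by_contra hc
  push Not at hc
  have : m = 0 := by
    ext i
    have := hc i
    simp only [Pi.add_apply, Pi.neg_apply, emb_apply, Pi.one_apply] at this
    simp only [Finsupp.coe_zero, Pi.zero_apply]
    omega
  rw [this, C.min] at hm
  exact hm rfl

theorem Bd_top {i E : ℤ} (h : ∀ j, C.h j ≠ i + 1) {x} (hx : x ∈ C.Bd (UU n n) (VV n n) i E)
    (j : J) (m : Fin n →₀ ℕ) : (x j).coeff (-emb n m + -1) = 0 := by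
  obtain ⟨b, hb, hv⟩ := C.mem_Bd.1 hx
  rw [AA_zero (fun j α h' => h j h'.2.1) hb, map_zero, sub_zero] at hv
  by_contra hc
  exact neg_notVV m (hv j _ hc).1

theorem exists_top : ∃ j, C.h j = n - 1 := by
  obtain ⟨Z⟩ := C.zig
  by_contra hc
  push Not at hc
  have h1 : Z.κ (-1) = 0 := AA_zero (fun j α h => hc j h.2.1) (Z.mem (-1))
  obtain ⟨α, a1, a2⟩ := (Z.zero (-1)).1 (by rw [h1]; exact zero_mem _)
  have : 0 ≤ wz C.s α := wz_nonneg C.s a1
  omega

theorem top_eq (j : J) (h : ∀ j', C.h j' ≠ C.h j + 1) : C.h j = n - 1 := by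
  obtain ⟨Z⟩ := C.zig
  by_contra hc
  obtain ⟨c, c1, c2⟩ := Z.all _ _ _ (C.soc j).1 (C.soc j).2
  rw [c2 hc, zero_smul, sub_zero] at c1
  have := C.Bd_top h c1 j 0
  simp at this

theorem minimal (y : J → MvPolynomial (Fin n) k) (hy : Matrix.vecMul y C.d = 0) (j : J)
    (hj : C.h j ≠ n - 1) : MvPolynomial.coeff 0 (y j) = 0 := by
  obtain ⟨Z⟩ := C.zig
  obtain ⟨c, c1, c2⟩ := Z.all _ _ _ (C.soc j).1 (C.soc j).2
  rw [c2 hj, zero_smul, sub_zero] at c1
  obtain ⟨b, -, hv⟩ := C.mem_Bd.1 c1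
  have h1 := pair_coeff (Pi.single j (single (-1) (1 : k)) - C.D b) (-1) y 0 fun i m _ => by
    by_contra hc
    exact neg_notVV m (hv i _ (Ne.symm hc)).1
  have h2 : (fun j => io k n (y j)) ⬝ᵥ C.D b = 0 := by
    rw [D_apply, Matrix.dotProduct_mulVec]
    have : Matrix.vecMul (fun j => io k n (y j)) (C.d.map (io k n)) = 0 := by
      funext i
      have := RingHom.map_vecMul (io k n) C.d y i
      rw [hy] at this
      exact this.symm.trans (map_zero _)
    rw [this, zero_dotProduct]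
  rw [dotProduct_sub, h2, sub_zero] at h1
  rw [pair_coeff _ _ y (MvPolynomial.lcoeff k 0 ∘ₗ LinearMap.proj j)] at h1
  · exact h1
  · intro i m _
    by_cases hi : i = j
    · subst hi
      simp only [LinearMap.comp_apply, LinearMap.proj_apply, Pi.single_eq_same,
        MvPolynomial.lcoeff_apply, MvPolynomial.coeff_monomial, coeff_single, Finsupp.single_apply]
      refine if_congr ?_ rfl rfl
      rw [eq_comm (a := (-1 : Fin n → ℤ)), add_eq_right, neg_eq_zero,
        map_eq_zero_iff _ (emb_inj n)]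
    · simp [hi, Ne.symm hi]

theorem canon (spos : ∀ j, 0 < C.s j) (htop : ∀ j, C.h j ≠ n - 1 + 1) :
    ∃ cc : J → k, (∀ j, C.h j = n - 1 → cc j ≠ 0) ∧
      (∀ E, ¬ SZ C.s E ↔
        ∃ j m, C.h j = n - 1 ∧ E + wz C.s (emb n m) = C.g j + wz C.s (-1)) ∧
      (∀ E l (Λ : (J → MvPolynomial (Fin n) k) →ₗ[k] k),
        (∀ j m, Λ (Pi.single j (MvPolynomial.monomial m 1)) =
          if C.h j = n - 1 ∧ E + wz C.s (emb n m) = C.g j + wz C.s (-1) then cc j else 0) →
        Λ (C.d l) = 0) ∧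
      ∀ Λ : (J → MvPolynomial (Fin n) k) →ₗ[k] k,
        (∀ l m, Λ ((MvPolynomial.monomial m (1 : k) : MvPolynomial (Fin n) k) • C.d l) = 0) →
        ∀ E, ∃ c, ∀ j m, C.h j = n - 1 → E + wz C.s (emb n m) = C.g j + wz C.s (-1) →
          Λ (Pi.single j (MvPolynomial.monomial m 1)) = c * cc j := by
  classical
  obtain ⟨Z⟩ := C.zig
  have f1 : ∀ (j) (m : Fin n →₀ ℕ) E m', (Z.κ E j).coeff (-emb n (m + m') + -1) =
      (Z.κ (E + wz C.s (emb n m)) j).coeff (-emb n m' + -1) := by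
    intro j m
    induction m using Finsupp.induction_linear with
    | zero => intro E m'; simp
    | add a b ha hb =>
      intro E m'
      rw [add_assoc, ha, hb, (emb n).map_add a b, (wz C.s).map_add, add_assoc]
    | single i N =>
      intro E m'
      have h1 := C.Bd_top htop (Z.mulN i E N) j m'
      have h2 : emb n (Finsupp.single i N) = Pi.single i (N : ℤ) := by
        funext a
        by_cases h : a = i
        · subst h
          simp [emb_apply]
        · simp [emb_apply, h]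
      rw [Pi.sub_apply, Pi.smul_apply, smul_eq_mul, coeff_sub, Finsupp.sub_apply,
        coeff_single_mul_apply, one_mul, sub_eq_zero] at h1
      rw [(emb n).map_add, h2, wz_single, ← h1]
      congr 1
      abel
  have f2 : ∀ j m E, (Z.κ E j).coeff (-emb n m + -1) =
      if C.h j = n - 1 ∧ E + wz C.s (emb n m) = C.g j + wz C.s (-1) then
        (Z.κ (C.g j + wz C.s (-1)) j).coeff (-1) else 0 := by
    intro j m E
    have h1 := f1 j m E 0
    rw [add_zero, map_zero, neg_zero, zero_add] at h1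
    rw [h1]
    split_ifs with h
    · rw [h.2]
    · by_contra hc
      have := Z.mem _ j _ hc
      exact h ⟨this.2.1, this.2.2.symm⟩
  have f3 : ∀ j, C.h j = n - 1 → (Z.κ (C.g j + wz C.s (-1)) j).coeff (-1) ≠ 0 := by
    intro j hj hc
    obtain ⟨c, c1, -⟩ := Z.all _ _ _ (C.soc j).1 (C.soc j).2
    rw [hj] at c1
    have := C.Bd_top htop c1 j 0
    rw [(emb n).map_zero, neg_zero, zero_add, Pi.sub_apply, Pi.smul_apply, coeff_sub,
      Finsupp.sub_apply, coeff_smul_apply, hc] at this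
    simp at this
  refine ⟨fun j => (Z.κ (C.g j + wz C.s (-1)) j).coeff (-1), f3, fun E => ⟨?_, ?_⟩, ?_, ?_⟩
  · intro h
    by_contra hc
    refine h ((Z.zero E).1 (mem_sup_right fun j α hα => ⟨?_, (Z.mem E j α hα).2⟩))
    by_contra hV
    obtain ⟨m, rfl⟩ := notVV_neg hV
    rw [f2, if_neg fun h => hc ⟨j, m, h⟩] at hα
    exact hα rfl
  · rintro ⟨j, m, h⟩ hS
    have := C.Bd_top htop ((Z.zero E).2 hS) j m
    rw [f2, if_pos h] at this
    exact f3 j h.1 this
  · intro E l Λ hΛ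
    rw [← pair_coeff (Z.κ E) (-1) (C.d l) Λ fun j m _ => by rw [hΛ, f2]]
    by_contra hc
    have := (Z.cyc E l _ hc).1
    rw [VV_top] at this
    obtain ⟨j, hj⟩ := this
    simp at hj
  · intro Λ hΛ E
    have hfin : ∀ j, (Function.support fun m : Fin n →₀ ℕ =>
        if C.h j = n - 1 ∧ E + wz C.s (emb n m) = C.g j + wz C.s (-1) then
          Λ (Pi.single j (MvPolynomial.monomial m 1)) else 0).Finite := by
      intro j
      refine (wz_finite C.s spos (C.g j + wz C.s (-1) - E)).subset fun m hm => ?_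
      have : E + wz C.s (emb n m) = C.g j + wz C.s (-1) := by
        by_contra hc
        exact hm (if_neg fun h => hc h.2)
      change wz C.s (emb n m) = _
      omega
    have hinj : Function.Injective fun m : Fin n →₀ ℕ => -emb n m + -1 := by
      intro a b h
      exact emb_inj n (neg_injective (add_right_cancel h))
    let e : J → Lau k n := fun j =>
      ofCoeff (Finsupp.mapDomain (fun m => -emb n m + -1) (Finsupp.ofSupportFinite _ (hfin j)))
    have e1 : ∀ j m, (e j).coeff (-emb n m + -1) =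
        if C.h j = n - 1 ∧ E + wz C.s (emb n m) = C.g j + wz C.s (-1) then
          Λ (Pi.single j (MvPolynomial.monomial m 1)) else 0 := fun j m =>
      Finsupp.mapDomain_apply hinj _ m
    have e2 : e ∈ C.A (UU n n) (n - 1) E := by
      intro j α hα
      obtain ⟨m, -, rfl⟩ :=
        Finset.mem_image.1 (Finsupp.mapDomain_support (Finsupp.mem_support_iff.2 hα))
      rw [e1] at hα
      have : C.h j = n - 1 ∧ E + wz C.s (emb n m) = C.g j + wz C.s (-1) := by
        by_contra hc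
        exact hα (if_neg hc)
      refine ⟨UU_top _, this.1, ?_⟩
      rw [map_add, map_neg]
      omega
    have e3 : C.D e ∈ C.A (VV n n) (n - 1 - 1) E := by
      intro l α hα
      have h1 := (C.D_A (UU_up n n) e2 (i' := n - 1 - 1) (by ring) l α hα).2
      refine ⟨?_, h1⟩
      by_contra hV
      obtain ⟨m', rfl⟩ := notVV_neg hV
      refine hα ((pair_coeff e _ (C.d l) (Λ ∘ₗ (LinearMap.lsmul (MvPolynomial (Fin n) k) _
        (MvPolynomial.monomial m' (1 : k))).restrictScalars k) ?_).trans (hΛ l m'))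
      intro j m hm
      obtain ⟨h2, h3⟩ := C.hom l j m hm
      have h4 : -emb n m + (-emb n m' + -1) = -emb n (m' + m) + -1 := by
        rw [map_add]
        abel
      rw [map_add, map_neg] at h1
      rw [h4, e1, if_pos ⟨by omega, by rw [map_add, map_add]; omega⟩]
      simp only [LinearMap.comp_apply, LinearMap.restrictScalars_apply, LinearMap.lsmul_apply,
        ← Pi.single_smul, smul_eq_mul, MvPolynomial.monomial_mul, one_mul]
    obtain ⟨c, c1, -⟩ := Z.all _ _ _ e2 e3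
    refine ⟨c, fun j m a1 a2 => ?_⟩
    have := C.Bd_top htop c1 j m
    rw [Pi.sub_apply, Pi.smul_apply, coeff_sub, Finsupp.sub_apply, coeff_smul_apply, e1, f2,
      if_pos ⟨a1, a2⟩, if_pos ⟨a1, a2⟩, sub_eq_zero] at this
    exact this

end Cx

end Pool.Agent.P.MP_1f474f_ag
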