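import Pool.Agent.P.MP_1f474f_ag.Res3

set_option linter.unusedSimpArgs false

namespace Pool.Agent.P.MP_1f474f_ag

open Sum MvPolynomial Submodule Module

theorem rank_torsion {A : Type*} [CommRing A] [IsDomain A] [IsNoetherianRing A]
    (f : (Fin 1 → A) →ₗ[A] (Fin 4 → A)) (g : (Fin 4 → A) →ₗ[A] (Fin 4 → A))
    (h : (Fin 4 → A) →ₗ[A] (Fin 1 → A)) (hf : Function.Injective f)
    (hfg : LinearMap.ker g = LinearMap.range f) (hgh : LinearMap.range g ≤ LinearMap.ker h)
    (h0 : ∃ x, h x ≠ 0) (y : Fin 4 → A) (hy : h y = 0) :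
    ∃ δ : A, δ ≠ 0 ∧ δ • y ∈ LinearMap.range g := by
  have a1 := (LinearMap.ker g).finrank_quotient_add_finrank
  have a2 := (LinearMap.ker h).finrank_quotient_add_finrank
  rw [g.quotKerEquivRange.finrank_eq, hfg, LinearMap.finrank_range_of_inj hf] at a1
  rw [h.quotKerEquivRange.finrank_eq] at a2
  have a3 : finrank A (LinearMap.range h) ≠ 0 := by
    intro hc
    obtain ⟨x, hx⟩ := h0
    obtain ⟨a, ha, hax⟩ := finrank_eq_zero_iff.1 hc ⟨h x, x, rfl⟩
    exact hx ((smul_eq_zero.1 (congrArg Subtype.val hax)).resolve_left ha)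
  have a4 := ((LinearMap.range g).comap (LinearMap.ker h).subtype).finrank_quotient_add_finrank
  rw [(comapSubtypeEquivOfLe hgh).finrank_eq] at a4
  simp only [finrank_fintype_fun_eq_card, Fintype.card_fin] at a1 a2
  obtain ⟨δ, h1, h2⟩ := (finrank_eq_zero_iff (R := A)
    (M := LinearMap.ker h ⧸ (LinearMap.range g).comap (LinearMap.ker h).subtype)).1 (by omega)
    (Submodule.Quotient.mk ⟨y, hy⟩)
  rw [← Quotient.mk_smul, Quotient.mk_eq_zero] at h2
  exact ⟨δ, h1, h2⟩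

theorem ufd_cancel {A : Type*} [CommRing A] [IsDomain A] [UniqueFactorizationMonoid A]
    (α β q : Fin 4 → A) (h : ∀ π, Prime π → ∃ l l', ¬ π ∣ α l * β l' - β l * α l') (δ : A) :
    δ ≠ 0 → ∀ s1 s2, (∀ l, δ * q l = α l * s1 + β l * s2) →
      ∃ s1 s2, ∀ l, q l = α l * s1 + β l * s2 := by
  induction δ using UniqueFactorizationMonoid.induction_on_prime with
  | h₁ => exact fun h => absurd rfl h
  | h₂ x hx =>
    intro _ s1 s2 hs
    obtain ⟨y, hy⟩ := hx.exists_left_inv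
    exact ⟨y * s1, y * s2, fun l => by linear_combination y * hs l - q l * hy⟩
  | h₃ a p ha hp ih =>
    intro _ s1 s2 hs
    obtain ⟨l, l', hl⟩ := h p hp
    obtain ⟨t1, rfl⟩ : p ∣ s1 := (hp.dvd_or_dvd (a := α l * β l' - β l * α l')
      ⟨a * (q l * β l' - q l' * β l), by linear_combination β l * hs l' - β l' * hs l⟩).resolve_left
      hl
    obtain ⟨t2, rfl⟩ : p ∣ s2 := (hp.dvd_or_dvd (a := α l * β l' - β l * α l')
      ⟨a * (q l' * α l - q l * α l'), by linear_combination α l' * hs l - α l * hs l'⟩).resolve_left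
      hl
    exact ih ha t1 t2 fun l => mul_left_cancel₀ hp.ne_zero (by linear_combination hs l)

variable {k : Type*} [Field k]

def lo6 (l : Fin 4) : Fin 6 := ⟨l.val, by omega⟩
def lo3 (l : Fin 1) : Fin 3 := ⟨l.val, by omega⟩

noncomputable def pad8 (y : Fin 4 → P4 k) : Fin 8 → P4 k := ![y 0, y 1, y 2, y 3, 0, 0, 0, 0]
noncomputable def pad6 (y : Fin 4 → P4 k) : Fin 6 → P4 k := ![y 0, y 1, y 2, y 3, 0, 0]

theorem pad8_lo (y : Fin 4 → P4 k) (l : Fin 4) : pad8 y (lo l) = y l := by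
  fin_cases l <;> rfl
theorem pad8_hi (y : Fin 4 → P4 k) (l : Fin 4) : pad8 y (hi l) = 0 := by
  fin_cases l <;> rfl
theorem pad6_lo (y : Fin 4 → P4 k) (l : Fin 4) : pad6 y (lo6 l) = y l := by
  fin_cases l <;> rfl

theorem pad6_inj {y y' : Fin 4 → P4 k} (h : pad6 y = pad6 y') : y = y' :=
  funext fun l => by rw [← pad6_lo y, h, pad6_lo]

theorem eq_pad8 {q : Fin 8 → P4 k} (h : ∀ l, q (hi l) = 0) : q = pad8 fun l => q (lo l) := by
  funext l
  rcases lo_or_hi l with ⟨a, rfl⟩ | ⟨a, rfl⟩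
  · rw [pad8_lo]
  · rw [pad8_hi, h]

namespace Res

variable (R : Res k 4)

theorem small (hs : ∀ j, R.s 0 ≤ R.s j) {i j} (h : R.b j - R.a i < R.s 0) : R.φ2 i j = 0 := by
  ext m
  by_contra hc
  have hc' : coeff m (R.φ2 i j) ≠ 0 := by simpa using hc
  have h1 := R.hom2 i j m hc'
  have h2 : (m : Mon) ≠ 0 := by
    intro h0
    rw [show m = 0 from DFunLike.coe_injective h0, R.min2] at hc'
    exact hc' rfl
  obtain ⟨a, ha⟩ := exists_pos h2
  have h3 := wt_mono R.s (m := sg a 1) (m' := m) fun b => by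
    by_cases hb : b = a
    · subst hb
      rw [sg_same]
      omega
    · simp [sg_ne hb]
  rw [wt_sg] at h3
  rw [wz_emb] at h1
  have := hs a
  omega

theorem main (hs : ∀ j, R.s 0 ≤ R.s j) (h1 : ∀ l, R.c 0 - R.b (hi l) < 0)
    (h2 : ∀ (i : Fin 6) (j : Fin 8), 4 ≤ i.val → j.val < 3 → R.b j - R.a i < R.s 0) :
    Function.Exact (R.φ2.submatrix lo6 lo).mulVec (R.φ1.submatrix id lo6).mulVec ∧
    Function.Exact (R.φ3.submatrix lo lo3).mulVec (R.φ2.submatrix lo6 lo).mulVec ∧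
    Function.Injective (R.φ3.submatrix lo lo3).mulVec := by
  have c0 := R.col0 h1
  have mv3 : ∀ c : Fin 1 → P4 k,
      R.φ3.mulVec ![c 0, 0, 0] = pad8 ((R.φ3.submatrix lo lo3).mulVec c) := by
    intro c
    funext l
    rcases lo_or_hi l with ⟨a, rfl⟩ | ⟨a, rfl⟩
    · rw [pad8_lo]
      simp [Matrix.mulVec, dotProduct, Fin.sum_univ_three, lo3]
    · rw [pad8_hi]
      simp [Matrix.mulVec, dotProduct, Fin.sum_univ_three, c0]
  have mv2' : ∀ (y : Fin 4 → P4 k) i, R.φ2.mulVec (pad8 y) i = ∑ l, R.φ2 i (lo l) * y l := by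
    intro y i
    simp [Matrix.mulVec, dotProduct, Fin.sum_univ_eight, Fin.sum_univ_four, pad8, lo]
  have z2 : ∀ i : Fin 6, 4 ≤ i.val → ∀ l, R.φ2 i (lo l) = 0 := by
    intro i hi
    have a0 : R.φ2 i (lo 0) = 0 := R.small hs (h2 i _ hi (by decide))
    have a1 : R.φ2 i (lo 1) = 0 := R.small hs (h2 i _ hi (by decide))
    have a2 : R.φ2 i (lo 2) = 0 := R.small hs (h2 i _ hi (by decide))
    have a3 : R.φ2 i (lo 3) = 0 := by
      have := congrFun (R.ex2.apply_apply_eq_zero ![1, 0, 0]) i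
      rw [mv3 fun _ => 1, mv2', Fin.sum_univ_four, a0, a1, a2] at this
      simp only [zero_mul, zero_add, Pi.zero_apply, mul_eq_zero] at this
      refine this.resolve_right ?_
      simpa [Matrix.mulVec, dotProduct, lo3] using R.w_ne h1 3
    intro l
    fin_cases l
    exacts [a0, a1, a2, a3]
  have mv2 : ∀ y : Fin 4 → P4 k,
      R.φ2.mulVec (pad8 y) = pad6 ((R.φ2.submatrix lo6 lo).mulVec y) := by
    intro y
    funext i
    rw [mv2']
    fin_cases i
    iterate 4 rfl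
    · simp [z2 4 (by decide), pad6]
    · simp [z2 5 (by decide), pad6]
  have mv1 : ∀ y : Fin 4 → P4 k, R.φ1.mulVec (pad6 y) = (R.φ1.submatrix id lo6).mulVec y := by
    intro y
    funext i
    simp [Matrix.mulVec, dotProduct, Fin.sum_univ_six, Fin.sum_univ_four, pad6, lo6]
  have mvh : ∀ (s : Fin 3 → P4 k) l,
      R.φ3.mulVec s (hi l) = R.φ3 (hi l) 1 * s 1 + R.φ3 (hi l) 2 * s 2 := by
    intro s l
    simp [Matrix.mulVec, dotProduct, Fin.sum_univ_three, c0]
  have p0 : pad6 (0 : Fin 4 → P4 k) = 0 := by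
    funext i
    fin_cases i <;> rfl
  have C3 : Function.Injective (R.φ3.submatrix lo lo3).mulVec := by
    intro c c' h
    have := R.ex3 ((mv3 c).trans ((congrArg pad8 h).trans (mv3 c').symm))
    funext i
    rw [Subsingleton.elim i 0]
    exact congrFun this 0
  have C2 : Function.Exact (R.φ3.submatrix lo lo3).mulVec (R.φ2.submatrix lo6 lo).mulVec := by
    intro y
    constructor
    · intro hy
      obtain ⟨s, hs⟩ := (R.ex2 (pad8 y)).1 (by rw [mv2, hy, p0])
      obtain ⟨l, l', hl⟩ := R.noprime h1 (X_prime (i := (0 : Fin 4)))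
      have hΔ : R.φ3 (hi l) 1 * R.φ3 (hi l') 2 - R.φ3 (hi l) 2 * R.φ3 (hi l') 1 ≠ 0 :=
        fun h => hl (h ▸ dvd_zero _)
      have a1 := mvh s l
      have a2 := mvh s l'
      rw [hs, pad8_hi] at a1 a2
      have s1 : s 1 = 0 := mul_left_cancel₀ hΔ
        (by linear_combination R.φ3 (hi l) 2 * a2 - R.φ3 (hi l') 2 * a1)
      have s2 : s 2 = 0 := mul_left_cancel₀ hΔ
        (by linear_combination R.φ3 (hi l') 1 * a1 - R.φ3 (hi l) 1 * a2)
      refine ⟨fun _ => s 0, funext fun a => ?_⟩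
      rw [← pad8_lo y, ← hs, ← pad8_lo ((R.φ3.submatrix lo lo3).mulVec _), ← mv3]
      congr 1
      funext i
      fin_cases i
      exacts [rfl, s1.symm, s2.symm]
    · rintro ⟨c, rfl⟩
      apply pad6_inj
      rw [← mv2, ← mv3, p0]
      exact R.ex2.apply_apply_eq_zero _
  have C1' : ∀ q, (R.φ1.submatrix id lo6).mulVec ((R.φ2.submatrix lo6 lo).mulVec q) = 0 := by
    intro q
    rw [← mv1, ← mv2]
    exact R.ex1.apply_apply_eq_zero _
  refine ⟨fun y => ⟨fun hy => ?_, ?_⟩, C2, C3⟩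
  · obtain ⟨δ, hδ, q', hq'⟩ := rank_torsion (R.φ3.submatrix lo lo3).mulVecLin
      (R.φ2.submatrix lo6 lo).mulVecLin (R.φ1.submatrix id lo6).mulVecLin C3
      (Submodule.ext fun x => C2 x) (by rintro _ ⟨q, rfl⟩; exact C1' q) (by
        refine ⟨Pi.single 0 1, fun h => ?_⟩
        obtain ⟨q, hq⟩ := (R.ex1 (pad6 (Pi.single 0 1))).1 ((mv1 _).trans h)
        have := congrArg constantCoeff (congrFun hq 0)
        have e : ∀ j, constantCoeff (R.φ2 0 j) = 0 := fun j => R.min2 0 j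
        simp [Matrix.mulVec, dotProduct, e, pad6] at this) y hy
    obtain ⟨q, hq⟩ := (R.ex1 (pad6 y)).1 ((mv1 y).trans hy)
    obtain ⟨s, hs⟩ := (R.ex2 (δ • q - pad8 q')).1 (by
      have e : (R.φ2.submatrix lo6 lo).mulVec q' = δ • y := hq'
      rw [Matrix.mulVec_sub, Matrix.mulVec_smul, hq, mv2, e, sub_eq_zero]
      funext i
      fin_cases i <;> simp [pad6])
    obtain ⟨s1, s2, hs'⟩ := ufd_cancel (fun l => R.φ3 (hi l) 1) (fun l => R.φ3 (hi l) 2)
      (fun l => q (hi l)) (fun π hπ => R.noprime h1 hπ) δ hδ (s 1) (s 2) fun l => by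
        rw [← mvh, hs]
        simp [pad8_hi]
    have e := eq_pad8 (q := q - R.φ3.mulVec ![0, s1, s2]) fun l => by
      rw [Pi.sub_apply, mvh, hs']
      simp
    refine ⟨fun l => (q - R.φ3.mulVec ![0, s1, s2]) (lo l), pad6_inj ?_⟩
    rw [← mv2, ← e, Matrix.mulVec_sub, hq, R.ex2.apply_apply_eq_zero, sub_zero]
  · rintro ⟨q, rfl⟩
    exact C1' q

end Res

theorem evL_io {n : ℕ} (s : Fin n → ℕ) (f : MvPolynomial (Fin n) k) :
    evL k s (io k n f) = 0 ↔ aeval (fun l => (Polynomial.X : Polynomial k) ^ s l) f = 0 := by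
  have : (evL k s).comp (io k n) = Polynomial.toLaurent.comp
      (aeval (fun l => (Polynomial.X : Polynomial k) ^ s l)).toRingHom := by
    refine ringHom_ext (fun a => ?_) fun j => ?_
    · rw [RingHom.comp_apply, RingHom.comp_apply, C_apply, io_monomial, evL_single, map_zero,
        map_zero, ← C_apply]
      simp [LaurentPolynomial.single_eq_C]
    · have e : wz s (emb n (Finsupp.single j 1)) = s j := by
        have : emb n (Finsupp.single j 1) = Pi.single j 1 := by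
          funext a
          by_cases h : a = j
          · subst h
            simp [emb_apply]
          · simp [emb_apply, h]
        rw [this, wz_single, one_mul]
      rw [RingHom.comp_apply, RingHom.comp_apply, X, io_monomial, evL_single, e, ← X]
      simp
  have h := DFunLike.congr_fun this f
  rw [RingHom.comp_apply] at h
  rw [h, RingHom.comp_apply, map_eq_zero_iff _ Polynomial.toLaurent_injective]
  rfl

theorem wz_weight {n : ℕ} (s : Fin n → ℕ) (m : Fin n →₀ ℕ) :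
    wz s (emb n m) = Finsupp.weight (fun l => (s l : ℤ)) m := by
  rw [Finsupp.weight_apply, Finsupp.sum_fintype _ _ (by simp)]
  simp only [nsmul_eq_mul]
  rfl

theorem SZ_of_mem {n : ℕ} (S : AddSubmonoid ℕ) (s : Fin n → ℕ)
    (hgen : Set.range s = {x | x ∈ S ∧ x ≠ 0 ∧ ∀ y ∈ S, ∀ z ∈ S, y + z = x → y = 0 ∨ z = 0})
    (x : ℕ) : x ∈ S → SZ s x := by
  induction x using Nat.strong_induction_on with
  | h x ih =>
    intro hx
    by_cases h0 : x = 0
    · exact ⟨0, fun _ => le_rfl, by simp [h0]⟩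
    by_cases h1 : x ∈ Set.range s
    · obtain ⟨j, rfl⟩ := h1
      exact ⟨Pi.single j 1, single_nonneg' j 1, by rw [wz_single, one_mul]⟩
    · rw [hgen] at h1
      simp only [Set.mem_ofPred_eq, not_and, not_forall, not_or] at h1
      obtain ⟨y, hy, z, hz, rfl, a1, a2⟩ := h1 hx h0
      obtain ⟨α, b1, b2⟩ := ih y (by omega) hy
      obtain ⟨β, c1, c2⟩ := ih z (by omega) hz
      exact ⟨α + β, fun j => add_nonneg (b1 j) (c1 j), by rw [map_add, b2, c2, Nat.cast_add]⟩

theorem final (S : AddSubmonoid ℕ) (hS : (S : Set ℕ)ᶜ.Finite)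
    (u : ℕ) (s : Fin (u + 1) → ℕ) (hmono : StrictMono s)
    (hgen : Set.range s = {x | x ∈ S ∧ x ≠ 0 ∧ ∀ y ∈ S, ∀ z ∈ S, y + z = x → y = 0 ∨ z = 0})
    (a : Fin 6 → ℤ) (b : Fin 8 → ℤ) (c : Fin 3 → ℤ)
    (φ₁ : Matrix (Fin 1) (Fin 6) (MvPolynomial (Fin (u + 1)) k))
    (φ₂ : Matrix (Fin 6) (Fin 8) (MvPolynomial (Fin (u + 1)) k))
    (φ₃ : Matrix (Fin 8) (Fin 3) (MvPolynomial (Fin (u + 1)) k))
    (hom₁ : ∀ i j, (φ₁ i j).IsWeightedHomogeneous (fun l => (s l : ℤ)) (a j))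
    (hom₂ : ∀ i j, (φ₂ i j).IsWeightedHomogeneous (fun l => (s l : ℤ)) (b j - a i))
    (hom₃ : ∀ i j, (φ₃ i j).IsWeightedHomogeneous (fun l => (s l : ℤ)) (c j - b i))
    (min₁ : ∀ i j, constantCoeff (φ₁ i j) = 0) (min₂ : ∀ i j, constantCoeff (φ₂ i j) = 0)
    (min₃ : ∀ i j, constantCoeff (φ₃ i j) = 0)
    (ex₀ : Ideal.span (Set.range (φ₁ 0)) =
      RingHom.ker (aeval (R := k) fun l => (Polynomial.X : Polynomial k) ^ s l))
    (ex₁ : Function.Exact φ₂.mulVec φ₁.mulVec) (ex₂ : Function.Exact φ₃.mulVec φ₂.mulVec)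
    (ex₃ : Function.Injective φ₃.mulVec)
    (h₁ : ∀ i : Fin 8, 4 ≤ i.val → c 0 - b i < 0)
    (h₂ : ∀ (i : Fin 6) (j : Fin 8), 4 ≤ i.val → j.val < 3 → b j - a i < s 0) :
    Function.Exact (φ₂.submatrix lo6 lo).mulVec (φ₁.submatrix id lo6).mulVec ∧
    Function.Exact (φ₃.submatrix lo lo3).mulVec (φ₂.submatrix lo6 lo).mulVec ∧
    Function.Injective (φ₃.submatrix lo lo3).mulVec := by
  have spos : ∀ j, 0 < s j := fun j => by
    have : s j ∈ Set.range s := ⟨j, rfl⟩
    rw [hgen] at this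
    exact Nat.pos_of_ne_zero this.2.1
  let R : Res k (u + 1) :=
    { s := s, a := a, b := b, c := c, φ1 := φ₁, φ2 := φ₂, φ3 := φ₃
      npos := Nat.succ_pos u
      spos := spos
      big := fun D j => by
        obtain ⟨B, hB⟩ := hS.bddAbove
        refine ⟨(B + 1 - D).toNat, ?_⟩
        have h1 : (((B + 1 - D).toNat : ℕ) : ℤ) * 1 ≤ ((B + 1 - D).toNat : ℕ) * (s j : ℤ) :=
          mul_le_mul_of_nonneg_left (by have := spos j; omega) (by positivity)
        obtain ⟨x, hx⟩ : ∃ x : ℕ, D + ((B + 1 - D).toNat : ℕ) * (s j : ℤ) = x :=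
          ⟨_, (Int.toNat_of_nonneg (by omega)).symm⟩
        rw [hx]
        refine SZ_of_mem S s hgen x ?_
        by_contra hc
        have : x ≤ B := hB hc
        omega
      hom1 := fun i j m h => (wz_weight s m).trans (hom₁ i j h)
      hom2 := fun i j m h => (wz_weight s m).trans (hom₂ i j h)
      hom3 := fun i j m h => (wz_weight s m).trans (hom₃ i j h)
      min1 := min₁
      min2 := min₂
      min3 := min₃
      aug := fun j => (evL_io s _).2 (by
        rw [← RingHom.mem_ker, ← ex₀]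
        exact Ideal.subset_span ⟨j, rfl⟩)
      ex0 := fun f hf => by
        rw [evL_io, ← RingHom.mem_ker, ← ex₀, Ideal.mem_span_range_iff_exists_fun] at hf
        obtain ⟨y, hy⟩ := hf
        exact ⟨y, by rw [← hy]; simp [Matrix.mulVec, dotProduct, mul_comm]⟩
      ex1 := ex₁
      ex2 := ex₂
      ex3 := ex₃ }
  obtain rfl : u = 3 := by have := R.four; omega
  exact Res.main R (fun j => hmono.monotone (Fin.zero_le j))
    (fun l => h₁ _ (by simp only [hi]; omega)) h₂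

end Pool.Agent.P.MP_1f474f_ag
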