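import Pool.Agent.P.MP_1f474f_ag.Basis

set_option linter.unusedSimpArgs false

namespace Pool.Agent.P.MP_1f474f_ag

open Sum

variable {K : Type*} [Field K]

def ev (ξ : Fin 4 → K) (m : Mon) : K := ∏ j, ξ j ^ m j
def zv (ξ : Fin 4 → K) (w : Fin 4 → ℤ) : K := ∏ j, ξ j ^ w j

theorem ev_add (ξ : Fin 4 → K) (m m' : Mon) : ev ξ (m + m') = ev ξ m * ev ξ m' := by
  simp [ev, pow_add, Finset.prod_mul_distrib]

theorem zv_add {ξ : Fin 4 → K} (h : ∀ j, ξ j ≠ 0) (w w' : Fin 4 → ℤ) :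
    zv ξ (w + w') = zv ξ w * zv ξ w' := by
  simp [zv, zpow_add₀ (h _), Finset.prod_mul_distrib]

theorem zv_ne {ξ : Fin 4 → K} (h : ∀ j, ξ j ≠ 0) (w : Fin 4 → ℤ) : zv ξ w ≠ 0 :=
  Finset.prod_ne_zero_iff.2 fun j _ => zpow_ne_zero _ (h j)

theorem ev_ne {ξ : Fin 4 → K} (h : ∀ j, ξ j ≠ 0) (m : Mon) : ev ξ m ≠ 0 :=
  Finset.prod_ne_zero_iff.2 fun j _ => pow_ne_zero _ (h j)

theorem zv_nat (ξ : Fin 4 → K) (m : Mon) : zv ξ (fun j => (m j : ℤ)) = ev ξ m := by
  simp [zv, ev]

theorem zv_sub {ξ : Fin 4 → K} (h : ∀ j, ξ j ≠ 0) (m m' : Mon) :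
    zv ξ (fun j => (m j : ℤ) - m' j) * ev ξ m' = ev ξ m := by
  rw [← zv_nat, ← zv_add h, ← zv_nat]
  congr 1
  funext j
  simp

theorem cyc {ξ : Fin 4 → K} (h : ∀ j, ξ j ≠ 0) (j0 : Fin 4)
    (h2 : ∀ m m' : Mon, m j0 = 0 → m' j0 = 0 → ev ξ m = ev ξ m' → m = m') :
    ∃ v : Fin 4 → ℤ, ∀ w, zv ξ w = 1 → ∃ κ : ℤ, ∀ j, w j = κ * v j := by
  let G : AddSubgroup (Fin 4 → ℤ) :=
    { carrier := {w | zv ξ w = 1}
      add_mem' := fun {a b} ha hb => by
        simp only [Set.mem_ofPred_eq] at *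
        rw [zv_add h, ha, hb, one_mul]
      zero_mem' := by simp [zv]
      neg_mem' := fun {a} ha => by
        simp only [Set.mem_ofPred_eq] at *
        have := zv_add h a (-a)
        rw [add_neg_cancel, ha, one_mul] at this
        rw [← this]
        simp [zv] }
  obtain ⟨a, ha⟩ := Int.subgroup_cyclic (G.map (Pi.evalAddMonoidHom (fun _ => ℤ) j0))
  have h3 : a ∈ G.map (Pi.evalAddMonoidHom (fun _ => ℤ) j0) := by
    rw [ha]
    exact AddSubgroup.subset_closure rfl
  obtain ⟨v, hv, hva⟩ := h3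
  refine ⟨v, fun w hw => ?_⟩
  have h4 : w j0 ∈ G.map (Pi.evalAddMonoidHom (fun _ => ℤ) j0) := ⟨w, hw, rfl⟩
  rw [ha, AddSubgroup.mem_closure_singleton] at h4
  obtain ⟨n, hn⟩ := h4
  refine ⟨n, ?_⟩
  have h5 : w - n • v ∈ G := G.sub_mem hw (G.zsmul_mem hv n)
  have h6 : (w - n • v) j0 = 0 := by
    have : v j0 = a := hva
    simp only [Pi.sub_apply, Pi.smul_apply, this, hn, sub_self]
  have h7 := zv_sub h (vp (w - n • v)) (vn (w - n • v))
  have h8 : (fun j => (vp (w - n • v) j : ℤ) - vn (w - n • v) j) = w - n • v := by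
    funext j
    simp only [vp, vn]
    omega
  have h9 : zv ξ (w - n • v) = 1 := h5
  rw [h8, h9, one_mul] at h7
  have h10 := h2 _ _ (by simp only [vn, h6]; rfl) (by simp only [vp, h6]; rfl) h7
  intro j
  have := congrFun h10 j
  simp only [vp, vn, Pi.sub_apply, Pi.smul_apply, smul_eq_mul] at this
  omega

theorem prime_aux (ξ : Fin 4 → K) (μ : Fin 3 → K) (s : Fin 4 → ℕ) (d : Fin 3 → ℤ)
    (hsys : ∀ v, ∃ T : Sys, T.s = s ∧ T.d = d ∧ NF T v)
    (hrel : ∀ p q : Vtx, dg s d p = dg s d q → dg s d p < d 0 →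
      μ p.1 * ev ξ p.2 = μ q.1 * ev ξ q.2)
    (j0 : Fin 4) (h1 : ∀ j, j ≠ j0 → ξ j ≠ 0)
    (h2 : ∀ m m' : Mon, m j0 = 0 → m' j0 = 0 → ev ξ m = ev ξ m' → m = m')
    {g2 g3 : Fin 3} (hg : G3 g2 g3) (hμ : μ g2 ≠ 0) : False := by
  by_cases h0 : ξ j0 = 0
  · obtain ⟨T, rfl, rfl, -⟩ := hsys 0
    have hz : ∀ m : Mon, ev ξ m = 0 ↔ 0 < m j0 := by
      intro m
      rw [ev, Finset.prod_eq_zero_iff]
      constructor
      · rintro ⟨j, -, hj⟩
        rw [pow_eq_zero_iff'] at hj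
        by_cases hjj : j = j0
        · subst hjj
          omega
        · exact absurd hj.1 (h1 j hjj)
      · intro hm
        exact ⟨j0, Finset.mem_univ _, by rw [h0, zero_pow hm.ne']⟩
    have hsame : ∀ l i m m', μ i ≠ 0 → ¬ T.E (inl l) (i, m) (i, m') := by
      intro l i m m' hi e
      have a1 := mul_left_cancel₀ hi (hrel _ _ (T.deq e) (T.below e))
      have a2 := T.disj e j0
      have a3 := hz m
      have a4 := hz m'
      simp only at a1 a2
      rw [a1, a4] at a3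
      have := h2 m m' (by omega) (by omega) a1
      exact T.ne e (by rw [this])
    by_cases hμ3 : μ g3 = 0
    · refine T.caseX hg j0 ?_
      rintro l ⟨i, m⟩ ⟨i', m'⟩ e hp
      simp only at hp
      subst hp
      rcases hg.all i' with rfl | rfl | rfl
      · exact absurd rfl (T.bne0 (T.symm e))
      · exact absurd e (hsame _ _ _ _ hμ)
      · have a1 := hrel _ _ (T.deq e) (T.below e)
        simp only [hμ3, zero_mul] at a1
        exact (hz m).1 ((mul_eq_zero.1 a1).resolve_left hμ)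
    · have hfree : ∀ l m m', T.E (inl l) (g2, m) (g3, m') → m j0 = 0 ∧ m' j0 = 0 := by
        intro l m m' e
        have a1 := hrel _ _ (T.deq e) (T.below e)
        have a2 := T.disj e j0
        have a3 := hz m
        have a4 := hz m'
        simp only at a1 a2
        have a5 : ev ξ m = 0 ↔ ev ξ m' = 0 := by
          rw [← mul_eq_zero_iff_left hμ, a1, mul_eq_zero_iff_left hμ3]
        rw [a3, a4] at a5
        omega
      obtain ⟨u, hu⟩ : ∃ u : Fin 4 → ℤ, ∀ l m m', T.E (inl l) (g2, m) (g3, m') →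
          ∀ j, (m' j : ℤ) - m j = u j := by
        by_cases hC : ∃ l m m', T.E (inl l) (g2, m) (g3, m')
        · obtain ⟨l0, n, n', e0⟩ := hC
          refine ⟨fun j => (n' j : ℤ) - n j, fun l m m' e j => ?_⟩
          have a1 := hrel _ _ (T.deq e) (T.below e)
          have a2 := hrel _ _ (T.deq e0) (T.below e0)
          have a3 := hfree _ _ _ e
          have a4 := hfree _ _ _ e0
          simp only at a1 a2
          have a5 : ev ξ (m + n') = ev ξ (n + m') := by
            rw [ev_add, ev_add]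
            apply mul_left_cancel₀ hμ
            linear_combination ev ξ n' * a1 - ev ξ m' * a2
          have a6 := congrFun (h2 _ _ (by simp [a3, a4]) (by simp [a3, a4]) a5) j
          simp only [Pi.add_apply] at a6 ⊢
          omega
        · exact ⟨0, fun l m m' e => absurd ⟨l, m, m', e⟩ hC⟩
      refine T.caseW hg u ?_ hu
      rintro l ⟨i, m⟩ ⟨i', m'⟩ e hp
      simp only at hp
      subst hp
      rcases hg.all i with rfl | rfl | rfl
      · exact T.bne0 e rfl
      · exact hsame _ _ _ _ hμ e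
      · exact hsame _ _ _ _ hμ3 e
  · have hξ : ∀ j, ξ j ≠ 0 := fun j => by
      by_cases hj : j = j0
      · exact hj ▸ h0
      · exact h1 j hj
    obtain ⟨v, hv⟩ := cyc hξ j0 h2
    obtain ⟨T, rfl, rfl, nf⟩ := hsys v
    have hsame : ∀ i m m', μ i ≠ 0 → dg T.s T.d (i, m) = dg T.s T.d (i, m') →
        dg T.s T.d (i, m) < T.d 0 → ∃ κ : ℤ, ∀ j, (m j : ℤ) - m' j = κ * v j := by
      intro i m m' hi a1 a2
      have a3 := mul_left_cancel₀ hi (hrel _ _ a1 a2)
      simp only at a3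
      refine hv _ (mul_right_cancel₀ (ev_ne hξ m') ?_)
      rw [zv_sub hξ, a3, one_mul]
    by_cases hμ3 : μ g3 = 0
    · refine T.caseZ hg v ?_ fun l m m' e => hsame _ _ _ hμ (T.deq e) (T.below e)
      have hC : ∀ l m m', ¬ T.E (inl l) (g2, m) (g3, m') := by
        intro l m m' e
        have a1 := hrel _ _ (T.deq e) (T.below e)
        simp only [hμ3, zero_mul] at a1
        exact mul_ne_zero hμ (ev_ne hξ m) a1
      rintro l ⟨i, m⟩ ⟨i', m'⟩ e
      rcases hg.all i with rfl | rfl | rfl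
      · exact absurd rfl (T.bne0 e)
      · rcases hg.all i' with rfl | rfl | rfl
        · exact absurd rfl (T.bne0 (T.symm e))
        · rfl
        · exact absurd e (hC _ _ _)
      · rcases hg.all i' with rfl | rfl | rfl
        · exact absurd rfl (T.bne0 (T.symm e))
        · exact absurd (T.symm e) (hC _ _ _)
        · rfl
    · obtain ⟨u, hu⟩ : ∃ u : Fin 4 → ℤ, ∀ l m m', T.E (inl l) (g2, m) (g3, m') →
          ∃ κ : ℤ, ∀ j, (m' j : ℤ) - m j = u j + κ * v j := by
        by_cases hC : ∃ l m m', T.E (inl l) (g2, m) (g3, m')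
        · obtain ⟨l0, n, n', e0⟩ := hC
          refine ⟨fun j => (n' j : ℤ) - n j, fun l m m' e => ?_⟩
          have a1 := hrel _ _ (T.deq e) (T.below e)
          have a2 := hrel _ _ (T.deq e0) (T.below e0)
          simp only at a1 a2
          have a5 : ev ξ (n + m') = ev ξ (m + n') := by
            rw [ev_add, ev_add]
            apply mul_left_cancel₀ hμ
            linear_combination ev ξ m' * a2 - ev ξ n' * a1
          obtain ⟨κ, hκ⟩ := hv (fun j => ((n + m') j : ℤ) - (m + n') j)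
            (mul_right_cancel₀ (ev_ne hξ (m + n')) (by rw [zv_sub hξ, a5, one_mul]))
          refine ⟨κ, fun j => ?_⟩
          have := hκ j
          simp only [Pi.add_apply] at this
          push_cast at this
          linarith
        · exact ⟨0, fun l m m' e => absurd ⟨l, m, m', e⟩ hC⟩
      refine YH.false (T := T) (u := u) ⟨hg, fun i m m' a1 a2 => hsame i m m' ?_ a1 a2, hu, nf⟩
      rcases hg.all i with rfl | rfl | rfl
      · exact absurd rfl (T.ne0 a2)
      · exact hμ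
      · exact hμ3

theorem prime_false (ξ : Fin 4 → K) (μ : Fin 3 → K) (s : Fin 4 → ℕ) (d : Fin 3 → ℤ)
    (hsys : ∀ v, ∃ T : Sys, T.s = s ∧ T.d = d ∧ NF T v)
    (hrel : ∀ p q : Vtx, dg s d p = dg s d q → dg s d p < d 0 →
      μ p.1 * ev ξ p.2 = μ q.1 * ev ξ q.2)
    (j0 : Fin 4) (h1 : ∀ j, j ≠ j0 → ξ j ≠ 0)
    (h2 : ∀ m m' : Mon, m j0 = 0 → m' j0 = 0 → ev ξ m = ev ξ m' → m = m')
    (hμ : μ 1 ≠ 0 ∨ μ 2 ≠ 0) : False := by
  rcases hμ with h | h
  · exact prime_aux ξ μ s d hsys hrel j0 h1 h2 (g2 := 1) (g3 := 2)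
      ⟨by decide, by decide, by decide⟩ h
  · exact prime_aux ξ μ s d hsys hrel j0 h1 h2 (g2 := 2) (g3 := 1)
      ⟨by decide, by decide, by decide⟩ h

end Pool.Agent.P.MP_1f474f_ag
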