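import Pool.Agent.P.MP_1f474f_ag.Dual2

set_option linter.unusedSimpArgs false

namespace Pool.Agent.P.MP_1f474f_ag

open Sum MvPolynomial

structure Res (k : Type*) [Field k] (n : ℕ) where
  s : Fin n → ℕ
  a : Fin 6 → ℤ
  b : Fin 8 → ℤ
  c : Fin 3 → ℤ
  φ1 : Matrix (Fin 1) (Fin 6) (MvPolynomial (Fin n) k)
  φ2 : Matrix (Fin 6) (Fin 8) (MvPolynomial (Fin n) k)
  φ3 : Matrix (Fin 8) (Fin 3) (MvPolynomial (Fin n) k)
  npos : 0 < n
  spos : ∀ j, 0 < s j
  big : ∀ (D : ℤ) j, ∃ M : ℕ, SZ s (D + M * s j)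
  hom1 : ∀ i j m, coeff m (φ1 i j) ≠ 0 → wz s (emb n m) = a j
  hom2 : ∀ i j m, coeff m (φ2 i j) ≠ 0 → wz s (emb n m) = b j - a i
  hom3 : ∀ i j m, coeff m (φ3 i j) ≠ 0 → wz s (emb n m) = c j - b i
  min1 : ∀ i j, coeff 0 (φ1 i j) = 0
  min2 : ∀ i j, coeff 0 (φ2 i j) = 0
  min3 : ∀ i j, coeff 0 (φ3 i j) = 0
  aug : ∀ j, evL k s (io k n (φ1 0 j)) = 0
  ex0 : ∀ f, evL k s (io k n f) = 0 → ∃ y, φ1.mulVec y 0 = f
  ex1 : Function.Exact φ2.mulVec φ1.mulVec
  ex2 : Function.Exact φ3.mulVec φ2.mulVec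
  ex3 : Function.Injective φ3.mulVec

abbrev JJ := Fin 1 ⊕ Fin 6 ⊕ Fin 8 ⊕ Fin 3

variable {k : Type*} [Field k] {n : ℕ}

namespace Res

variable (R : Res k n)

noncomputable def dM : Matrix JJ JJ (MvPolynomial (Fin n) k)
  | inl i, inr (inl j) => R.φ1 i j
  | inr (inl i), inr (inr (inl j)) => R.φ2 i j
  | inr (inr (inl i)), inr (inr (inr j)) => R.φ3 i j
  | _, _ => 0

def hh : JJ → ℤ
  | inl _ => 0
  | inr (inl _) => 1
  | inr (inr (inl _)) => 2
  | inr (inr (inr _)) => 3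

def gg : JJ → ℤ
  | inl _ => 0
  | inr (inl j) => R.a j
  | inr (inr (inl j)) => R.b j
  | inr (inr (inr j)) => R.c j

theorem mv0 (y : JJ → MvPolynomial (Fin n) k) (i) :
    R.dM.mulVec y (inl i) = R.φ1.mulVec (fun j => y (inr (inl j))) i := by
  simp [Matrix.mulVec, dotProduct, Fintype.sum_sum_type, dM]

theorem mv1 (y : JJ → MvPolynomial (Fin n) k) (i) :
    R.dM.mulVec y (inr (inl i)) = R.φ2.mulVec (fun j => y (inr (inr (inl j)))) i := by
  simp [Matrix.mulVec, dotProduct, Fintype.sum_sum_type, dM]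

theorem mv2 (y : JJ → MvPolynomial (Fin n) k) (i) :
    R.dM.mulVec y (inr (inr (inl i))) = R.φ3.mulVec (fun j => y (inr (inr (inr j)))) i := by
  simp [Matrix.mulVec, dotProduct, Fintype.sum_sum_type, dM]

theorem mv3 (y : JJ → MvPolynomial (Fin n) k) (i) :
    R.dM.mulVec y (inr (inr (inr i))) = 0 := by
  simp [Matrix.mulVec, dotProduct, Fintype.sum_sum_type, dM]

theorem dMdM : R.dM * R.dM = 0 := by
  have : ∀ y, (R.dM * R.dM).mulVec y = 0 := by
    intro y
    rw [← Matrix.mulVec_mulVec]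
    funext i
    rcases i with i | i | i | i
    · rw [mv0]
      simp only [mv1]
      exact congrFun (R.ex1.apply_apply_eq_zero _) i
    · rw [mv1]
      simp only [mv2]
      exact congrFun (R.ex2.apply_apply_eq_zero _) i
    · rw [mv2]
      simp only [mv3]
      exact congrFun (Matrix.mulVec_zero _) i
    · rw [mv3]
      rfl
  ext i j : 1
  have h := congrFun (this (Pi.single j 1)) i
  rw [Matrix.mulVec_single_one] at h
  exact h

noncomputable def cx : Cx k n JJ where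
  s := R.s
  d := R.dM
  h := hh
  g := R.gg
  j0 := inl 0
  hom := by
    rintro (i | i | i | i) (j | j | j | j) m hm <;>
      simp only [dM, coeff_zero, ne_eq, not_true_eq_false] at hm
    · exact ⟨rfl, by simp only [gg, R.hom1 _ _ _ hm, zero_add]⟩
    · exact ⟨rfl, by simp only [gg, R.hom2 _ _ _ hm, add_sub_cancel]⟩
    · exact ⟨rfl, by simp only [gg, R.hom3 _ _ _ hm, add_sub_cancel]⟩
  dd := R.dMdM
  h0 := rfl
  g0 := rfl
  hj := by
    rintro (j | j | j | j) h <;> simp only [hh] at h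
    · rw [Subsingleton.elim j 0]
    all_goals omega
  hnn := by rintro (j | j | j | j) <;> simp [hh]
  aug := by
    rintro (j | j | j | j) <;> simp only [dM, map_zero]
    exact R.aug j
  ex := by
    intro y h1 h2
    obtain ⟨q1, hq1⟩ := R.ex0 _ h2
    obtain ⟨q2, hq2⟩ := (R.ex1 fun j => y (inr (inl j))).1
      (funext fun i => by rw [← mv0, h1]; rfl)
    obtain ⟨q3, hq3⟩ := (R.ex2 fun j => y (inr (inr (inl j)))).1
      (funext fun i => by rw [← mv1, h1]; rfl)
    have hq4 : (fun j => y (inr (inr (inr j)))) = 0 := R.ex3 (by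
      rw [Matrix.mulVec_zero]
      exact funext fun i => by rw [← mv2, h1]; rfl)
    refine ⟨Sum.elim 0 (Sum.elim q1 (Sum.elim q2 q3)), funext ?_⟩
    rintro (i | i | i | i)
    · rw [mv0, Subsingleton.elim i 0]
      exact hq1
    · rw [mv1]
      exact congrFun hq2 i
    · rw [mv2]
      exact congrFun hq3 i
    · rw [mv3]
      exact (congrFun hq4 i).symm
  big := R.big
  npos := R.npos
  min := by
    rintro (i | i | i | i) (j | j | j | j) <;> simp only [dM, coeff_zero]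
    exacts [R.min1 _ _, R.min2 _ _, R.min3 _ _]

include R in
theorem four : n = 4 := by
  have := R.cx.top_eq (inr (inr (inr 0))) (by
    rintro (j | j | j | j) <;> simp [cx, hh])
  simp only [cx, hh] at this
  omega

theorem minimal (y : Fin 8 → MvPolynomial (Fin n) k) (hy : Matrix.vecMul y R.φ3 = 0) (l : Fin 8) :
    coeff 0 (y l) = 0 := by
  have h4 := R.four
  refine R.cx.minimal (Sum.elim 0 (Sum.elim 0 (Sum.elim y 0))) ?_ (inr (inr (inl l))) ?_
  · funext i
    rcases i with i | i | i | i <;>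
      simp only [cx, Matrix.vecMul, dotProduct, Fintype.sum_sum_type, dM, Sum.elim_inl, Sum.elim_inr,
        Pi.zero_apply, zero_mul, mul_zero, Finset.sum_const_zero, zero_add, add_zero]
    exact congrFun hy i
  · simp only [cx, hh]
    omega

theorem canon : ∃ cc : Fin 3 → k, (∀ i, cc i ≠ 0) ∧
    (∀ E, ¬ SZ R.s E ↔ ∃ i m, E + wz R.s (emb n m) = R.c i + wz R.s (-1)) ∧
    (∀ E l (Λ : (Fin 3 → MvPolynomial (Fin n) k) →ₗ[k] k),
      (∀ i m, Λ (Pi.single i (monomial m 1)) =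
        if E + wz R.s (emb n m) = R.c i + wz R.s (-1) then cc i else 0) → Λ (R.φ3 l) = 0) ∧
    ∀ Λ : (Fin 3 → MvPolynomial (Fin n) k) →ₗ[k] k,
      (∀ l m, Λ ((monomial m (1 : k) : MvPolynomial (Fin n) k) • R.φ3 l) = 0) →
      ∀ E, ∃ c, ∀ i m, E + wz R.s (emb n m) = R.c i + wz R.s (-1) →
        Λ (Pi.single i (monomial m 1)) = c * cc i := by
  have h4 := R.four
  obtain ⟨cc, c1, c2, c3, c4⟩ := R.cx.canon R.spos (by
    rintro (j | j | j | j) <;> simp only [cx, hh] <;> omega)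
  have h3 : ∀ i, R.cx.h (inr (inr (inr i))) = n - 1 := fun i => by simp only [cx, hh]; omega
  have h3' : ∀ j, R.cx.h j = n - 1 → ∃ i, j = inr (inr (inr i)) := by
    rintro (j | j | j | j) h <;> simp only [cx, hh] at h
    · omega
    · omega
    · omega
    · exact ⟨j, rfl⟩
  let r : (JJ → MvPolynomial (Fin n) k) →ₗ[k] (Fin 3 → MvPolynomial (Fin n) k) :=
    LinearMap.funLeft k _ fun i => inr (inr (inr i))
  have r1 : ∀ i p, r (Pi.single (inr (inr (inr i))) p) = Pi.single i p := by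
    intro i p
    funext i'
    simp [r, LinearMap.funLeft_apply, Pi.single_apply]
  have r2 : ∀ j p, R.cx.h j ≠ n - 1 → r (Pi.single j p) = 0 := by
    intro j p hj
    funext i'
    have : inr (inr (inr i')) ≠ j := by
      rintro rfl
      exact hj (h3 _)
    simp [r, LinearMap.funLeft_apply, this]
  refine ⟨fun i => cc (inr (inr (inr i))), fun i => c1 _ (h3 i), fun E => (c2 E).trans ⟨?_, ?_⟩,
    ?_, ?_⟩
  · rintro ⟨j, m, a1, a2⟩
    obtain ⟨i, rfl⟩ := h3' j a1
    exact ⟨i, m, a2⟩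
  · rintro ⟨i, m, a2⟩
    exact ⟨_, m, h3 i, a2⟩
  · intro E l Λ hΛ
    refine c3 E (inr (inr (inl l))) (Λ ∘ₗ r) fun j m => ?_
    by_cases hj : R.cx.h j = n - 1
    · obtain ⟨i, rfl⟩ := h3' j hj
      rw [LinearMap.comp_apply, r1, hΛ]
      exact if_congr (by rw [and_iff_right hj]; rfl) rfl rfl
    · rw [LinearMap.comp_apply, r2 j _ hj, map_zero, if_neg fun h => hj h.1]
  · intro Λ hΛ E
    obtain ⟨c, hc⟩ := c4 (Λ ∘ₗ r) (by
      rintro (l | l | l | l) m
      · exact (congrArg Λ (funext fun i => mul_zero _)).trans (map_zero Λ)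
      · exact (congrArg Λ (funext fun i => mul_zero _)).trans (map_zero Λ)
      · exact hΛ l m
      · exact (congrArg Λ (funext fun i => mul_zero _)).trans (map_zero Λ)) E
    refine ⟨c, fun i m h => ?_⟩
    have := hc _ m (h3 i) h
    rwa [LinearMap.comp_apply, r1] at this

end Res

end Pool.Agent.P.MP_1f474f_ag
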