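import Pool.Agent.P.MP_1f474f_ag.Res1
import Pool.Agent.P.MP_1f474f_ag.Prime

set_option linter.unusedSimpArgs false

namespace Pool.Agent.P.MP_1f474f_ag

open Sum MvPolynomial Submodule

variable {k : Type*} [Field k]

abbrev P4 (k : Type*) [Field k] := MvPolynomial (Fin 4) k

noncomputable def tm (m : Mon) : Fin 4 →₀ ℕ := Finsupp.equivFunOnFinite.symm m

@[simp] theorem tm_coe (m : Fin 4 →₀ ℕ) : tm m = m := Finsupp.equivFunOnFinite_symm_coe m
@[simp] theorem coe_tm (m : Mon) : (tm m : Fin 4 → ℕ) = m := rfl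

theorem tm_inj {a b : Mon} (h : tm a = tm b) : a = b := by
  rw [← coe_tm a, h, coe_tm]

theorem wz_emb (s : Fin 4 → ℕ) (m : Fin 4 →₀ ℕ) : wz s (emb 4 m) = wt s m := rfl

theorem SZ_iff (s : Fin 4 → ℕ) (E : ℤ) : SZ s E ↔ ∃ m : Mon, wt s m = E := by
  constructor
  · rintro ⟨α, h1, h2⟩
    obtain ⟨m, rfl⟩ := emb_range h1
    exact ⟨m, h2⟩
  · rintro ⟨m, h⟩
    exact ⟨emb 4 (tm m), fun j => by simp [emb_apply], h⟩

noncomputable def Th (cc : Fin 3 → k) : (Fin 3 → P4 k) →ₗ[k] (Vtx →₀ k) where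
  toFun g := Finsupp.onFinset
    (Finset.univ.biUnion fun i => (g i).support.image fun m : Fin 4 →₀ ℕ => ((i, ⇑m) : Vtx))
    (fun w => cc w.1 * coeff (tm w.2) (g w.1)) (by
      intro w hw
      simp only [Finset.mem_biUnion, Finset.mem_univ, true_and, Finset.mem_image]
      exact ⟨w.1, tm w.2, mem_support_iff.2 (right_ne_zero_of_mul hw), rfl⟩)
  map_add' a b := by
    ext w
    simp [mul_add]
  map_smul' c a := by
    ext w
    simp [mul_left_comm]

theorem Th_apply (cc : Fin 3 → k) (g : Fin 3 → P4 k) (w : Vtx) :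
    Th cc g w = cc w.1 * coeff (tm w.2) (g w.1) := rfl

theorem Th_single (cc : Fin 3 → k) (i : Fin 3) (m : Fin 4 →₀ ℕ) (a : k) :
    Th cc (Pi.single i (monomial m a)) = Finsupp.single (i, (m : Mon)) (cc i * a) := by
  ext ⟨i', m'⟩
  rw [Th_apply, Finsupp.single_apply]
  by_cases hi : i' = i
  · subst hi
    simp only [Pi.single_eq_same, coeff_monomial, Prod.mk.injEq, true_and, mul_ite, mul_zero]
    refine if_congr ⟨fun h => by rw [h, coe_tm], fun h => by rw [← h, tm_coe]⟩ rfl rfl
  · simp [hi, Ne.symm hi]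

theorem Th_inj {cc : Fin 3 → k} (hc : ∀ i, cc i ≠ 0) : Function.Injective (Th cc) := by
  intro a b h
  funext i
  ext m
  have := DFunLike.congr_fun h (i, (m : Mon))
  simp only [Th_apply, tm_coe] at this
  exact mul_left_cancel₀ (hc i) this

theorem lin_ext {M : Type*} [AddCommMonoid M] [Module k M] {f g : (Fin 3 → P4 k) →ₗ[k] M}
    (h : ∀ i m, f (Pi.single i (monomial m 1)) = g (Pi.single i (monomial m 1))) : f = g := by
  refine LinearMap.pi_ext' fun i => MvPolynomial.linearMap_ext fun m => LinearMap.ext_ring ?_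
  exact h i m

theorem Th_shift (cc : Fin 3 → k) (m : Fin 4 →₀ ℕ) (g : Fin 3 → P4 k) :
    Th cc ((monomial m (1 : k) : P4 k) • g) = Finsupp.mapDomain (fun w => sh w m) (Th cc g) := by
  have : Th cc ∘ₗ (LinearMap.lsmul (P4 k) _ (monomial m (1 : k))).restrictScalars k =
      Finsupp.lmapDomain k k (fun w => sh w m) ∘ₗ Th cc := by
    refine lin_ext fun i m' => ?_
    simp only [LinearMap.comp_apply, LinearMap.restrictScalars_apply, LinearMap.lsmul_apply,
      ← Pi.single_smul, smul_eq_mul, monomial_mul, Th_single, Finsupp.lmapDomain_apply,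
      Finsupp.mapDomain_single, mul_one, sh, Finsupp.coe_add, add_comm]
  exact DFunLike.congr_fun this g

theorem mem_RS (s : Fin 4 → ℕ) (d : Fin 3 → ℤ) {f : Vtx →₀ k}
    (h : Finsupp.mapDomain (dg s d) f = 0) : f ∈ RS k s d := by
  classical
  let σ : ℤ → Vtx := Function.invFun (dg s d)
  have h1 : ∀ f : Vtx →₀ k, f - Finsupp.mapDomain (σ ∘ dg s d) f ∈ RS k s d := by
    intro f
    induction f using Finsupp.induction_linear with
    | zero => simp
    | add a b ha hb =>
      rw [Finsupp.mapDomain_add]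
      convert add_mem ha hb using 1
      abel
    | single w a =>
      have : bin k (w, σ (dg s d w)) ∈ RS k s d :=
        subset_span ⟨_, (Function.invFun_eq ⟨w, rfl⟩).symm, rfl⟩
      convert smul_mem _ a this using 1
      simp [bin, smul_sub, Finsupp.mapDomain_single]
  have := h1 f
  rwa [Finsupp.mapDomain_comp, h, Finsupp.mapDomain_zero, sub_zero] at this

theorem shift_bin (z : Vtx × Vtx) (m : Mon) :
    Finsupp.mapDomain (fun w => sh w m) (bin k z) = bin k (sh z.1 m, sh z.2 m) := by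
  rw [← Finsupp.lmapDomain_apply k k, bin, map_sub]
  simp [bin, Finsupp.mapDomain_single]

theorem shift_RS (s : Fin 4 → ℕ) (d : Fin 3 → ℤ) {m : Mon} (hm : m ≠ 0) {f : Vtx →₀ k}
    (h : f ∈ RS k s d) : Finsupp.mapDomain (fun w => sh w m) f ∈ NS k s d := by
  have : RS k s d ≤ (NS k s d).comap (Finsupp.lmapDomain k k fun w => sh w m) := by
    refine span_le.2 ?_
    rintro _ ⟨z, hz, rfl⟩
    obtain ⟨j, hj⟩ := exists_pos hm
    simp only [SetLike.mem_coe, mem_comap, Finsupp.lmapDomain_apply, shift_bin]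
    refine subset_span ⟨_, ⟨?_, j, ?_, ?_⟩, rfl⟩
    · simp only [dg_sh]
      rw [hz]
    · simp only [sh, Pi.add_apply]
      omega
    · simp only [sh, Pi.add_apply]
      omega
  exact this h

noncomputable def bi (cc : Fin 3 → k) (z : Vtx × Vtx) : Fin 3 → P4 k :=
  Pi.single z.1.1 (monomial (tm z.1.2) (cc z.1.1)⁻¹) -
    Pi.single z.2.1 (monomial (tm z.2.2) (cc z.2.1)⁻¹)

theorem Th_bi {cc : Fin 3 → k} (hc : ∀ i, cc i ≠ 0) (z : Vtx × Vtx) :
    Th cc (bi cc z) = bin k z := by
  simp only [bi, map_sub, Th_single, mul_inv_cancel₀ (hc _), bin, coe_tm]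

theorem krull (F : Finset (P4 k)) (hF : F.card ≤ 3) (h0 : ∀ f ∈ F, coeff 0 f = 0)
    (h : ∀ j, ∃ N, X j ^ N ∈ Ideal.span (F : Set (P4 k))) : False := by
  let Q : ℕ → Ideal (P4 k) := fun r =>
    RingHom.ker (aeval (R := k) fun j : Fin 4 => if j.val < r then (0 : P4 k) else X j)
  have hQ : ∀ r, (Q r).IsPrime := fun r => RingHom.ker_isPrime _
  have hlt : ∀ r, r < 4 → Q r < Q (r + 1) := by
    intro r hr
    refine lt_of_le_of_ne ?_ fun hh => ?_
    · intro p hp
      have e : (aeval (R := k) fun j : Fin 4 => if j.val < r + 1 then (0 : P4 k) else X j).comp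
          (aeval (R := k) fun j : Fin 4 => if j.val < r then (0 : P4 k) else X j) =
          aeval (R := k) fun j : Fin 4 => if j.val < r + 1 then (0 : P4 k) else X j := by
        refine algHom_ext fun j => ?_
        by_cases hj : j.val < r
        · simp [hj, hj.le]
        · simp [hj]
      have := DFunLike.congr_fun e p
      rw [AlgHom.comp_apply, (RingHom.mem_ker).1 hp, map_zero] at this
      exact this.symm
    · have h1 : X ⟨r, hr⟩ ∈ Q (r + 1) := by simp [Q, RingHom.mem_ker]
      rw [← hh] at h1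
      simp [Q, RingHom.mem_ker] at h1
  let M : Ideal (P4 k) := RingHom.ker constantCoeff
  have hM : M.IsPrime := RingHom.ker_isPrime _
  have h4 : Q 4 ≤ M := by
    intro p hp
    have e : (constantCoeff : P4 k →+* k).comp
        (aeval (R := k) fun j : Fin 4 => if j.val < 4 then (0 : P4 k) else X j).toRingHom =
        constantCoeff := by
      refine ringHom_ext (fun a => by simp) fun j => by simp
    have := DFunLike.congr_fun e p
    rw [RingHom.comp_apply] at this
    change constantCoeff p = 0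
    rw [← this]
    exact (congrArg constantCoeff ((RingHom.mem_ker).1 hp)).trans (map_zero _)
  have hmin : M ∈ (Ideal.span (F : Set (P4 k))).minimalPrimes := by
    refine ⟨⟨hM, Ideal.span_le.2 fun f hf => h0 f hf⟩, ?_⟩
    rintro q ⟨hq, hq'⟩ - p hp
    have : p ∈ Ideal.span (X '' Set.univ : Set (P4 k)) := by
      rw [mem_ideal_span_X_image]
      intro m hm
      by_contra hc
      push Not at hc
      have : m = 0 := Finsupp.ext fun i => hc i trivial
      exact mem_support_iff.1 (this ▸ hm) hp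
    refine Ideal.span_le.2 ?_ this
    rintro _ ⟨j, -, rfl⟩
    obtain ⟨N, hN⟩ := h j
    exact hq.mem_of_pow_mem N (hq' hN)
  have a0 := Ideal.height_add_one_le_of_lt_of_isPrime (hlt 0 (by omega))
  have a1 := Ideal.height_add_one_le_of_lt_of_isPrime (hlt 1 (by omega))
  have a2 := Ideal.height_add_one_le_of_lt_of_isPrime (hlt 2 (by omega))
  have a3 := Ideal.height_add_one_le_of_lt_of_isPrime (hlt 3 (by omega))
  have a4 := Ideal.height_mono h4
  have a5 := Ideal.height_le_card_of_mem_minimalPrimes_span_finset hmin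
  have a6 : (F.card : ℕ∞) ≤ 3 := by exact_mod_cast hF
  have b1 : (1 : ℕ∞) ≤ (Q 1).height := le_trans le_add_self a0
  have b2 : (1 + 1 : ℕ∞) ≤ (Q 2).height := le_trans (add_le_add_left b1 1) a1
  have b3 : (1 + 1 + 1 : ℕ∞) ≤ (Q 3).height := le_trans (add_le_add_left b2 1) a2
  have b4 : (1 + 1 + 1 + 1 : ℕ∞) ≤ (Q 4).height := le_trans (add_le_add_left b3 1) a3
  have := b4.trans (a4.trans (a5.trans a6))
  norm_num at this

theorem prime_var {π : P4 k} (hπ : Prime π) : ∃ j, ∀ g : P4 k, g.degreeOf j = 0 → π ∣ g → g = 0 := by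
  have : ∃ j, π.degreeOf j ≠ 0 := by
    by_contra hc
    push Not at hc
    have h1 : π = C (coeff 0 π) := by
      ext m
      rw [coeff_C]
      split_ifs with h
      · rw [h]
      · by_contra hm
        refine h (Finsupp.ext fun j => ?_)
        have := monomial_le_degreeOf j (mem_support_iff.2 hm)
        rw [hc j] at this
        simp only [Finsupp.coe_zero, Pi.zero_apply]
        omega
    refine hπ.not_isUnit ?_
    rw [h1]
    refine (IsUnit.mk0 _ fun h => hπ.ne_zero ?_).map C
    rw [h1, h, map_zero]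
  obtain ⟨j, hj⟩ := this
  refine ⟨j, ?_⟩
  rintro _ hg ⟨q, rfl⟩
  by_contra hc
  rw [degreeOf_mul_eq hπ.ne_zero (right_ne_zero_of_mul hc)] at hg
  omega

end Pool.Agent.P.MP_1f474f_ag
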