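import Pool.Agent.P.MP_1f474f_ag.Res2

set_option linter.unusedSimpArgs false

namespace Pool.Agent.P.MP_1f474f_ag

open Sum MvPolynomial Submodule

variable {k : Type*} [Field k]

def lo (l : Fin 4) : Fin 8 := ⟨l.val, by omega⟩
def hi (l : Fin 4) : Fin 8 := ⟨l.val + 4, by omega⟩

theorem lo_or_hi (l : Fin 8) : (∃ a, l = lo a) ∨ ∃ a, l = hi a := by
  by_cases h : l.val < 4
  · exact Or.inl ⟨⟨l.val, h⟩, rfl⟩
  · exact Or.inr ⟨⟨l.val - 4, by omega⟩, Fin.ext (by simp only [hi]; omega)⟩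

theorem lo_inj : Function.Injective lo := fun a b h => Fin.ext (by
  have := congrArg Fin.val h
  simpa only [lo] using this)
theorem hi_inj : Function.Injective hi := fun a b h => Fin.ext (by
  have := congrArg Fin.val h
  simp only [hi] at this
  omega)

theorem hom_neg {n : ℕ} (s : Fin n → ℕ) {p : MvPolynomial (Fin n) k} {D : ℤ}
    (h : ∀ m, coeff m p ≠ 0 → wz s (emb n m) = D) (hD : D < 0) : p = 0 := by
  ext m
  by_contra hc
  have h1 := h m (by simpa using hc)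
  have := wz_nonneg s (α := emb n m) fun j => by simp [emb_apply]
  omega

namespace Res

variable (R : Res k 4)

def dd : Fin 3 → ℤ := fun i => -(R.c i + wz R.s (-1))

noncomputable def Rk : Submodule k (Fin 3 → P4 k) :=
  span k {g | ∃ l m, g = (monomial m (1 : k) : P4 k) • R.φ3 l}

noncomputable def Rm : Submodule k (Fin 3 → P4 k) :=
  span k {g | ∃ l m, m ≠ 0 ∧ g = (monomial m (1 : k) : P4 k) • R.φ3 l}

theorem cond (E : ℤ) (i : Fin 3) (m : Fin 4 →₀ ℕ) :
    E + wz R.s (emb 4 m) = R.c i + wz R.s (-1) ↔ dg R.s R.dd (i, m) = -E := by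
  rw [dg_mk, wz_emb, dd]
  omega

theorem canon' : ∃ cc : Fin 3 → k, (∀ i, cc i ≠ 0) ∧
    (∀ D, (∃ w, dg R.s R.dd w = D) ↔ ¬ ∃ m : Mon, wt R.s m = -D) ∧
    (∀ l, Th cc (R.φ3 l) ∈ RS k R.s R.dd) ∧
    ∀ z : Vtx × Vtx, dg R.s R.dd z.1 = dg R.s R.dd z.2 → bi cc z ∈ R.Rk := by
  classical
  obtain ⟨cc, c1, c2, c3, c4⟩ := R.canon
  refine ⟨cc, c1, fun D => ?_, fun l => ?_, ?_⟩
  · rw [← SZ_iff, c2]
    constructor
    · rintro ⟨⟨i, m⟩, h⟩
      exact ⟨i, tm m, (R.cond _ _ _).2 (by rw [neg_neg]; exact h)⟩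
    · rintro ⟨i, m, h⟩
      exact ⟨_, ((R.cond _ _ _).1 h).trans (neg_neg D)⟩
  · refine mem_RS _ _ (Finsupp.ext fun E => ?_)
    refine c3 (-E) l (Finsupp.lapply E ∘ₗ Finsupp.lmapDomain k k (dg R.s R.dd) ∘ₗ Th cc)
      fun i m => ?_
    simp only [LinearMap.comp_apply, Th_single, Finsupp.lmapDomain_apply, Finsupp.mapDomain_single,
      Finsupp.lapply_apply, mul_one, Finsupp.single_apply, R.cond, neg_neg]
  · rintro ⟨⟨i, m⟩, ⟨i', m'⟩⟩ hz
    by_contra hc
    obtain ⟨f, hf1, hf2⟩ := exists_dual_map_eq_bot_of_notMem hc inferInstance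
    obtain ⟨c, hc⟩ := c4 f (fun l m => by
      have : f _ ∈ R.Rk.map f := mem_map_of_mem (subset_span ⟨l, m, rfl⟩)
      rw [hf2] at this
      exact this) (-dg R.s R.dd (i, m))
    have a1 := hc i (tm m) ((R.cond _ _ _).2 (by rw [neg_neg]; rfl))
    have a2 := hc i' (tm m') ((R.cond _ _ _).2 (by rw [neg_neg]; exact hz.symm))
    have e : ∀ i m a, f (Pi.single i (monomial m a)) = a * f (Pi.single i (monomial m 1)) := by
      intro i m a
      rw [← smul_eq_mul, ← map_smul, ← Pi.single_smul, smul_monomial, smul_eq_mul, mul_one]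
    apply hf1
    simp only [bi, map_sub]
    rw [e, e i', a1, a2]
    have := c1 i
    have := c1 i'
    field_simp
    ring

theorem Rk_const {g} (hg : g ∈ R.Rk) (i : Fin 3) : coeff 0 (g i) = 0 := by
  refine span_induction (p := fun g _ => coeff 0 (g i) = 0) ?_ ?_ ?_ ?_ hg
  · rintro _ ⟨l, m, rfl⟩
    rw [Pi.smul_apply, smul_eq_mul, ← constantCoeff_eq, map_mul, constantCoeff_eq, R.min3, mul_zero]
  · simp
  · intro x y _ _ hx hy
    simp [hx, hy]
  · intro a x _ hx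
    simp [hx]

theorem Rk_zero {g} (hg : g ∈ R.Rk) : g 0 ∈ Ideal.span (Set.range fun l => R.φ3 l 0) := by
  refine span_induction (p := fun g _ => g 0 ∈ Ideal.span (Set.range fun l => R.φ3 l 0))
    ?_ ?_ ?_ ?_ hg
  · rintro _ ⟨l, m, rfl⟩
    exact Ideal.mul_mem_left _ _ (Ideal.subset_span ⟨l, rfl⟩)
  · exact zero_mem _
  · intro x y _ _ hx hy
    exact add_mem hx hy
  · intro a x _ hx
    exact Submodule.smul_of_tower_mem _ a hx

theorem Rk_mul {g} (hg : g ∈ R.Rk) {m : Fin 4 →₀ ℕ} (hm : m ≠ 0) :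
    (monomial m (1 : k) : P4 k) • g ∈ R.Rm := by
  refine span_induction (p := fun g _ => (monomial m (1 : k) : P4 k) • g ∈ R.Rm) ?_ ?_ ?_ ?_ hg
  · rintro _ ⟨l, m', rfl⟩
    refine subset_span ⟨l, m + m', by simp [hm], ?_⟩
    rw [smul_smul, monomial_mul, one_mul]
  · simp
  · intro x y _ _ hx hy
    rw [smul_add]
    exact add_mem hx hy
  · intro a x _ hx
    rw [smul_comm]
    exact smul_mem _ _ hx

theorem Rm_vec {g} (hg : g ∈ R.Rm) :
    ∃ y : Fin 8 → P4 k, (∀ l, coeff 0 (y l) = 0) ∧ Matrix.vecMul y R.φ3 = g := by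
  refine span_induction (p := fun g _ =>
    ∃ y : Fin 8 → P4 k, (∀ l, coeff 0 (y l) = 0) ∧ Matrix.vecMul y R.φ3 = g) ?_ ?_ ?_ ?_ hg
  · rintro _ ⟨l, m, hm, rfl⟩
    refine ⟨Pi.single l (monomial m 1), fun l' => ?_, Matrix.single_vecMul _ _ _⟩
    by_cases h : l' = l
    · subst h
      simp [coeff_monomial, hm]
    · simp [h]
  · exact ⟨0, by simp, by simp⟩
  · rintro _ _ _ _ ⟨y, a, rfl⟩ ⟨y', a', rfl⟩
    exact ⟨y + y', fun l => by simp [a, a'], Matrix.add_vecMul _ _ _⟩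
  · rintro c _ _ ⟨y, a, rfl⟩
    exact ⟨c • y, fun l => by simp [a], Matrix.smul_vecMul _ _ _⟩

theorem indep {cc : Fin 3 → k} (c1 : ∀ i, cc i ≠ 0)
    (c4 : ∀ z : Vtx × Vtx, dg R.s R.dd z.1 = dg R.s R.dd z.2 → bi cc z ∈ R.Rk)
    (ι : Fin 4 → Fin 8) (hι : Function.Injective ι) (c : Fin 4 → k)
    (h : ∑ l, c l • Th cc (R.φ3 (ι l)) ∈ NS k R.s R.dd) (l : Fin 4) : c l = 0 := by
  have h1 : NS k R.s R.dd ≤ R.Rm.map (Th cc) := by
    refine span_le.2 ?_
    rintro _ ⟨⟨p, q⟩, ⟨a1, j, a2, a3⟩, rfl⟩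
    simp only at a1 a2 a3
    have hd : ∀ w : Vtx, 0 < w.2 j → w = sh (w.1, w.2 - sg j 1) (tm (sg j 1)) := by
      intro w hw
      refine Prod.ext rfl (funext fun i => ?_)
      simp only [sh, Pi.add_apply, Pi.sub_apply, coe_tm]
      by_cases hi : i = j
      · subst hi
        rw [sg_same]
        omega
      · simp [sg_ne hi]
    have b1 := congrArg (dg R.s R.dd) (hd p a2)
    have b2 := congrArg (dg R.s R.dd) (hd q a3)
    rw [dg_sh] at b1 b2
    refine ⟨_, R.Rk_mul (c4 ((p.1, p.2 - sg j 1), (q.1, q.2 - sg j 1)) (by simp only; omega))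
      (m := tm (sg j 1)) ?_, ?_⟩
    · intro h
      have := DFunLike.congr_fun h j
      simp at this
    · rw [Th_shift, Th_bi c1, shift_bin, ← hd p a2, ← hd q a3]
  obtain ⟨g, hg, hg'⟩ := h1 h
  obtain ⟨y, y1, rfl⟩ := R.Rm_vec hg
  simp only [← map_smul, ← map_sum] at hg'
  have h2 := Th_inj c1 hg'
  have h3 := R.minimal (y - ∑ l, Pi.single (ι l) (C (c l))) (by
    rw [Matrix.sub_vecMul, h2, sub_eq_zero, Matrix.sum_vecMul]
    refine Finset.sum_congr rfl fun l _ => ?_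
    rw [Matrix.single_vecMul]
    funext i
    simp [smul_eq_C_mul]) (ι l)
  rw [Pi.sub_apply, coeff_sub, y1, zero_sub, neg_eq_zero, Finset.sum_apply,
    Finset.sum_eq_single l] at h3
  · simpa using h3
  · intro l' _ hl
    rw [Pi.single_eq_of_ne (hι.ne hl).symm]
  · simp

theorem Th_deg (cc : Fin 3 → k) (l : Fin 8) (m : Fin 4 →₀ ℕ) (w : Vtx)
    (h : Th cc ((monomial m (1 : k) : P4 k) • R.φ3 l) w ≠ 0) :
    dg R.s R.dd w = -(R.b l + wz R.s (-1)) + wt R.s m := by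
  classical
  rw [Th_shift] at h
  obtain ⟨w', hw, rfl⟩ :=
    Finset.mem_image.1 (Finsupp.mapDomain_support (Finsupp.mem_support_iff.2 h))
  have h1 := R.hom3 l w'.1 (tm w'.2) (right_ne_zero_of_mul (Finsupp.mem_support_iff.1 hw))
  rw [wz_emb, coe_tm] at h1
  rw [dg_sh, dg, dd]
  omega

theorem nz' {cc : Fin 3 → k} (c1 : ∀ i, cc i ≠ 0)
    (c4 : ∀ z : Vtx × Vtx, dg R.s R.dd z.1 = dg R.s R.dd z.2 → bi cc z ∈ R.Rk) {p q : Vtx}
    (h : dg R.s R.dd p = dg R.s R.dd q) (hne : p ≠ q) : p.2 ≠ 0 := by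
  intro h0
  have h1 := R.Rk_const (c4 (p, q) h) p.1
  have h2 := Th_apply cc (bi cc (p, q)) p
  rw [Th_bi c1, h0, show tm 0 = 0 from tm_coe 0, h1, mul_zero] at h2
  simp [bin, hne.symm] at h2

theorem big' (i i' : Fin 3) (j : Fin 4) : ∃ N m, dg R.s R.dd (i, sg j N) = dg R.s R.dd (i', m) := by
  obtain ⟨M, hM⟩ := R.big (R.dd i - R.dd i') j
  obtain ⟨m, hm⟩ := (SZ_iff _ _).1 hM
  exact ⟨M, m, by rw [dg_mk, dg_mk, wt_sg]; omega⟩

theorem col0 (h1 : ∀ l, R.c 0 - R.b (hi l) < 0) (l : Fin 4) : R.φ3 (hi l) 0 = 0 :=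
  hom_neg R.s (R.hom3 _ _) (h1 l)

theorem w_ne (h1 : ∀ l, R.c 0 - R.b (hi l) < 0) (l : Fin 4) : R.φ3 (lo l) 0 ≠ 0 := by
  classical
  obtain ⟨cc, c1, -, -, c4⟩ := R.canon'
  intro h0
  refine krull ((Finset.univ.erase l).image fun a => R.φ3 (lo a) 0)
    (Finset.card_image_le.trans (by simp)) ?_ fun j => ?_
  · intro f hf
    obtain ⟨a, -, rfl⟩ := Finset.mem_image.1 hf
    exact R.min3 _ _
  · obtain ⟨N, m, hN⟩ := R.big' 0 1 j
    have h2 := R.Rk_zero (c4 (_, _) hN)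
    refine ⟨N, ?_⟩
    have h3 : (X j : P4 k) ^ N = C (cc 0) * bi cc ((0, sg j N), (1, m)) 0 := by
      have : tm (sg j N) = Finsupp.single j N := by
        ext i
        simp [sg, Finsupp.single_apply, eq_comm]
      simp [bi, C_mul_monomial, mul_inv_cancel₀ (c1 0), X_pow_eq_monomial, this]
    rw [h3]
    refine Ideal.mul_mem_left _ _ (Ideal.span_le.2 ?_ h2)
    rintro _ ⟨a, rfl⟩
    rcases lo_or_hi a with ⟨a, rfl⟩ | ⟨a, rfl⟩
    · by_cases ha : a = l
      · simp only [ha, h0]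
        exact zero_mem _
      · exact Ideal.subset_span (Finset.mem_coe.2 (Finset.mem_image.2 ⟨a, by simp [ha], rfl⟩))
    · simp only [R.col0 h1]
      exact zero_mem _

theorem lo_le (h1 : ∀ l, R.c 0 - R.b (hi l) < 0) (l : Fin 4) : 0 ≤ R.c 0 - R.b (lo l) := by
  by_contra hc
  exact R.w_ne h1 l (hom_neg R.s (R.hom3 _ _) (by omega))

theorem noprime_aux (h1 : ∀ l, R.c 0 - R.b (hi l) < 0) {K : Type*} [Field K] [Algebra k K]
    (φ : P4 k →ₐ[k] K) (j0 : Fin 4) (hφ : ∀ g : P4 k, g.degreeOf j0 = 0 → φ g = 0 → g = 0)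
    (l1 l2 : K) (hl : l1 ≠ 0 ∨ l2 ≠ 0)
    (hr : ∀ l, φ (R.φ3 (hi l) 1) * l1 + φ (R.φ3 (hi l) 2) * l2 = 0) : False := by
  classical
  obtain ⟨cc, c1, c2, c3, c4⟩ := R.canon'
  have one : ∀ g : Fin 3 → P4 k, (monomial 0 (1 : k) : P4 k) • g = g := fun g => one_smul _ g
  have w0 : wt R.s (0 : Fin 4 →₀ ℕ) = 0 := by simp [wt]
  have hev : ∀ m : Fin 4 →₀ ℕ, φ (monomial m 1) = ev (fun j => φ (X j)) m := by
    intro m
    rw [monomial_eq, C_1, one_mul, Finsupp.prod_fintype _ _ (by simp), map_prod]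
    simp [ev]
  let lam : Fin 3 → K := ![0, l1, l2]
  refine prime_false (fun j => φ (X j)) (fun i => lam i * (algebraMap k K (cc i))⁻¹) R.s R.dd
    (fun v => ?_) ?_ j0 ?_ ?_ ?_
  · refine exists_sys (k := k) R.s R.dd R.spos (R.nz' c1 c4) R.big' ?_ ?_ ?_
      (fun l => Th cc (R.φ3 (hi l))) (fun l => Th cc (R.φ3 (lo l))) ?_ ?_ (fun l => c3 _)
      (fun l => c3 _) ?_ (R.indep c1 c4 hi hi_inj) (R.indep c1 c4 lo lo_inj) v
    · intro j p hp
      have : ¬ ∃ w, dg R.s R.dd w = dg R.s R.dd p - R.s j := by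
        rintro ⟨w, hw⟩
        have := hp (sh w (sg j 1)) (by rw [dg_sh, wt_sg, hw]; simp)
        simp [sh] at this
      rw [c2, not_not] at this
      obtain ⟨m, hm⟩ := this
      exact ⟨m, by rw [dg_sh]; omega⟩
    · intro j q hq
      by_contra hc
      refine (c2 0).1 ⟨(q.1, q.2 - sg j 1), ?_⟩ ⟨0, by simp [wt]⟩
      have : q = sh (q.1, q.2 - sg j 1) (sg j 1) := by
        refine Prod.ext rfl (funext fun i => ?_)
        simp only [sh, Pi.add_apply, Pi.sub_apply]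
        by_cases hi : i = j
        · subst hi
          rw [sg_same]
          omega
        · simp [sg_ne hi]
      rw [this, dg_sh, wt_sg] at hq
      omega
    · intro j i
      by_contra hc
      obtain ⟨w, hw⟩ := (c2 (R.dd i - R.s j)).2 fun ⟨m, hm⟩ => hc ⟨m, by rw [dg_mk]; omega⟩
      refine R.nz' c1 c4 (p := (i, 0)) (q := sh w (sg j 1)) ?_ ?_ rfl
      · rw [dg_sh, wt_sg, hw, dg_mk]
        simp [wt]
      · intro h
        have := congrFun (congrArg Prod.snd h) j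
        simp [sh] at this
    · intro l w hw
      have := R.Th_deg cc (hi l) 0 w (by rwa [one])
      have := h1 l
      simp only [dd]
      omega
    · intro l w hw
      have := R.Th_deg cc (lo l) 0 w (by rwa [one])
      have := R.lo_le h1 l
      simp only [dd]
      omega
    · intro z hz
      rw [← Th_bi c1, ← mem_comap]
      refine (span_le (p := Submodule.comap (Th cc) _)).2 ?_ (c4 z hz)
      rintro _ ⟨l, m, rfl⟩
      simp only [SetLike.mem_coe, mem_comap]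
      by_cases hm : m = 0
      · rw [hm, one]
        rcases lo_or_hi l with ⟨a, rfl⟩ | ⟨a, rfl⟩
        · exact mem_sup_left (mem_sup_right (subset_span ⟨a, rfl⟩))
        · exact mem_sup_left (mem_sup_left (subset_span ⟨a, rfl⟩))
      · rw [Th_shift]
        exact mem_sup_right (shift_RS _ _ (fun h => hm (DFunLike.coe_injective h)) (c3 l))
  · let Λ : (Vtx →₀ k) →ₗ[k] K := Finsupp.linearCombination k fun w : Vtx =>
      lam w.1 * (algebraMap k K (cc w.1))⁻¹ * ev (fun j => φ (X j)) w.2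
    have e1 : ∀ g, Λ (Th cc g) = φ (g 1) * l1 + φ (g 2) * l2 := by
      have : Λ ∘ₗ Th cc = LinearMap.mulRight k l1 ∘ₗ φ.toLinearMap ∘ₗ LinearMap.proj 1 +
          LinearMap.mulRight k l2 ∘ₗ φ.toLinearMap ∘ₗ LinearMap.proj 2 := by
        refine lin_ext fun i m => ?_
        have hc : algebraMap k K (cc i) ≠ 0 := (map_ne_zero _).2 (c1 i)
        rw [LinearMap.comp_apply, Th_single, Finsupp.linearCombination_single, mul_one,
          Algebra.smul_def, ← hev]
        simp only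
        rw [mul_right_comm, mul_left_comm, mul_inv_cancel₀ hc, mul_one]
        fin_cases i <;> simp [lam, mul_comm]
      exact fun g => DFunLike.congr_fun this g
    have e2 : R.Rk ≤ LinearMap.ker (Λ ∘ₗ flt k (fun w => dg R.s R.dd w < R.dd 0) ∘ₗ Th cc) := by
      refine span_le.2 ?_
      rintro _ ⟨l, m, rfl⟩
      simp only [SetLike.mem_coe, LinearMap.mem_ker, LinearMap.comp_apply]
      by_cases hb : -(R.b l + wz R.s (-1)) + wt R.s m < R.dd 0
      · rw [flt_pos fun w hw => by rw [R.Th_deg cc l m w hw]; exact hb, e1]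
        rcases lo_or_hi l with ⟨a, rfl⟩ | ⟨a, rfl⟩
        · have := R.lo_le h1 a
          have := wt_nonneg R.s m
          simp only [dd] at hb
          omega
        · simp only [Pi.smul_apply, smul_eq_mul, map_mul]
          linear_combination φ (monomial m 1) * hr a
      · rw [flt_neg fun w hw => by rw [R.Th_deg cc l m w hw]; exact hb, map_zero]
    intro p q a1 a2
    have := e2 (c4 (p, q) a1)
    rw [LinearMap.mem_ker, LinearMap.comp_apply, LinearMap.comp_apply, Th_bi c1,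
      flt_bin_pos (B := fun w => dg R.s R.dd w < R.dd 0) a2 (a1 ▸ a2), bin, map_sub,
      sub_eq_zero] at this
    simpa only [Λ, Finsupp.linearCombination_single, one_smul] using this
  · intro j hj h
    exact X_ne_zero j (hφ _ (by rw [degreeOf_X, if_neg hj.symm]) h)
  · intro m m' a1 a2 a3
    have h := hφ (monomial (tm m) 1 - monomial (tm m') 1) (by
      have := degreeOf_sub_le j0 (monomial (tm m) (1 : k)) (monomial (tm m') 1)
      rw [degreeOf_monomial_eq _ _ one_ne_zero, degreeOf_monomial_eq _ _ one_ne_zero] at this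
      simp only [coe_tm, a1, a2] at this
      omega) (by rw [map_sub, hev, hev, coe_tm, coe_tm, a3, sub_self])
    exact tm_inj (monomial_left_injective one_ne_zero (sub_eq_zero.1 h))
  · have hc : ∀ i, (algebraMap k K (cc i))⁻¹ ≠ 0 := fun i => inv_ne_zero ((map_ne_zero _).2 (c1 i))
    rcases hl with h | h
    · exact Or.inl (mul_ne_zero h (hc _))
    · exact Or.inr (mul_ne_zero h (hc _))

theorem noprime (h1 : ∀ l, R.c 0 - R.b (hi l) < 0) {π : P4 k} (hπ : Prime π) :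
    ∃ l l', ¬ π ∣ R.φ3 (hi l) 1 * R.φ3 (hi l') 2 - R.φ3 (hi l) 2 * R.φ3 (hi l') 1 := by
  by_contra hc
  push Not at hc
  have : (Ideal.span {π}).IsPrime := (Ideal.span_singleton_prime hπ.ne_zero).2 hπ
  let φ : P4 k →ₐ[k] FractionRing (P4 k ⧸ Ideal.span {π}) :=
    (IsScalarTower.toAlgHom k (P4 k ⧸ Ideal.span {π}) _).comp (Ideal.Quotient.mkₐ k _)
  have hφ : ∀ g, φ g = 0 ↔ π ∣ g := by
    intro g
    rw [← Ideal.mem_span_singleton, ← Ideal.Quotient.eq_zero_iff_mem]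
    exact map_eq_zero_iff _ (IsFractionRing.injective (P4 k ⧸ Ideal.span {π}) _)
  obtain ⟨j0, hj⟩ := prime_var hπ
  by_cases h0 : ∀ l, φ (R.φ3 (hi l) 1) = 0
  · exact R.noprime_aux h1 φ j0 (fun g a b => hj g a ((hφ g).1 b)) 1 0 (Or.inl one_ne_zero)
      fun l => by simp [h0]
  · push Not at h0
    obtain ⟨l0, hl0⟩ := h0
    refine R.noprime_aux h1 φ j0 (fun g a b => hj g a ((hφ g).1 b)) (φ (R.φ3 (hi l0) 2))
      (-φ (R.φ3 (hi l0) 1)) (Or.inr (neg_ne_zero.2 hl0)) fun l => ?_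
    have := (hφ _).2 (hc l l0)
    rw [map_sub, map_mul, map_mul] at this
    linear_combination this

end Res

end Pool.Agent.P.MP_1f474f_ag
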